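import Pool.Agent.Y158.GR.Rig

/-!
# Subextensions of pro-`ℓ` extensions: an `ℓ`-th root between two of them
-/

set_option autoImplicit false
set_option linter.all false

open Polynomial FF Pool.Agent.Y157.PS

namespace Pool.Agent.Zk12.TR

open Pool.Agent.Y158.GR

/-- Kummer theory for a proper subgroup -/
theorem exists_kummer {R N : Type} [Field R] [Field N] [Algebra R N] {ℓ : ℕ} [hℓ : Fact ℓ.Prime]
    [FiniteDimensional R N] [IsGalois R N] {ζ : R}
    (hζ : IsPrimitiveRoot ζ ℓ) {m : ℕ} (hm : Nat.card (N ≃ₐ[R] N) = ℓ ^ m)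
    (K : Subgroup (N ≃ₐ[R] N)) (hK : K ≠ ⊤) : ∃ β : N, β ≠ 0 ∧ (∃ r : R, algebraMap R N r = β ^ ℓ) ∧
      (∀ γ ∈ K, γ β = β) ∧ ∃ σ : N ≃ₐ[R] N, σ β ≠ β := by
  classical
  obtain ⟨Q, hQ, hKQ⟩ := (eq_top_or_exists_le_coatom K).resolve_left hK
  have hpg : IsPGroup ℓ (N ≃ₐ[R] N) := IsPGroup.of_card hm
  have hnil : Group.IsNilpotent (N ≃ₐ[R] N) := hpg.isNilpotent
  have hQn : Q.Normal := Subgroup.NormalizerCondition.normal_of_coatom Q
    (normalizerCondition_of_isNilpotent) hQ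
  have hidx : ∃ j : ℕ, Nat.card ((N ≃ₐ[R] N) ⧸ Q) = ℓ ^ (j + 1) := by
    obtain ⟨j, -, hj⟩ := (Nat.dvd_prime_pow hℓ.out).1 (hm ▸ Q.index_dvd_card)
    have h1 : Nat.card ((N ≃ₐ[R] N) ⧸ Q) = ℓ ^ j := by rw [← hj]; rfl
    rcases Nat.eq_zero_or_pos j with h0 | h0
    · exfalso
      rw [h0, pow_zero] at hj
      exact hQ.1 (Subgroup.index_eq_one.1 hj)
    · exact ⟨j - 1, by rw [Nat.sub_add_cancel h0]; exact h1⟩
  obtain ⟨j, hj⟩ := hidx
  obtain ⟨χ0, hχ0⟩ := Pool.Agent.Y705.PS.exists_char ℓ hj hζ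
  let χ : (N ≃ₐ[R] N) →* rootsOfUnity ℓ R := χ0.comp (QuotientGroup.mk' Q)
  have hχ : Function.Surjective χ := hχ0.comp (QuotientGroup.mk'_surjective Q)
  have hχQ : ∀ g ∈ Q, χ g = 1 := by
    intro g hg
    have h1 : QuotientGroup.mk' Q g = 1 := (QuotientGroup.eq_one_iff g).2 hg
    change χ0 (QuotientGroup.mk' Q g) = 1
    rw [h1, map_one]
  let f : (N ≃ₐ[R] N) → Nˣ := fun σ => Units.map (algebraMap R N).toMonoidHom (χ σ : Rˣ)
  have hf : groupCohomology.IsMulCocycle₁ f := by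
    intro g h
    ext
    have : g • (f h) = f h := by
      ext
      exact g.commutes _
    rw [this]
    simp only [f, map_mul, Subgroup.coe_mul, Units.val_mul, mul_comm]
  obtain ⟨β, hβ⟩ := groupCohomology.isMulCoboundary₁_of_isMulCocycle₁_of_aut_to_units f hf
  have h1 : ∀ σ : N ≃ₐ[R] N, σ (β : N) = (f σ : N) * β := by
    intro σ
    have := hβ σ
    rw [div_eq_iff_eq_mul] at this
    have h2 := congrArg (fun u : Nˣ => (u : N)) this
    exact h2
  have h2 : ∃ r : R, algebraMap R N r = (β : N) ^ ℓ := by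
    have h3 : (β : N) ^ ℓ ∈ (⊥ : IntermediateField R N) := by
      rw [IsGalois.mem_bot_iff_fixed]
      intro σ
      rw [map_pow, h1, mul_pow]
      have h4 : (f σ : N) ^ ℓ = 1 := by
        have h5 : ((χ σ : Rˣ)) ^ ℓ = 1 := (χ σ).2
        have h6 : (f σ) ^ ℓ = 1 := by
          simp only [f]
          rw [← map_pow, h5, map_one]
        have := congrArg (fun u : Nˣ => (u : N)) h6
        simpa using this
      rw [h4, one_mul]
    exact IntermediateField.mem_bot.mp h3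
  obtain ⟨σ, hσ⟩ := hχ ⟨hζ.isUnit hℓ.out.ne_zero |>.unit, by
    rw [mem_rootsOfUnity]
    ext
    simp [hζ.pow_eq_one]⟩
  refine ⟨β, β.ne_zero, h2, fun γ hγ => ?_, σ, fun h3 => ?_⟩
  · rw [h1]
    have h5 : (f γ : N) = 1 := by
      simp only [f, hχQ γ (hKQ hγ)]
      simp
    rw [h5, one_mul]
  · rw [h1] at h3
    have h6 : (f σ : N) = 1 := mul_right_cancel₀ β.ne_zero (by rw [h3, one_mul])
    have h7 : algebraMap R N ζ = 1 := by
      rw [← h6]
      simp only [f, hσ]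
      rfl
    have h8 : ζ = 1 := (algebraMap R N).injective (by rw [h7, map_one])
    rw [h8] at hζ
    exact hℓ.out.one_lt.ne' (hζ.unique IsPrimitiveRoot.one)

/-- between two subextensions of a pro-`ℓ` extension there is an `ℓ`-th root -/
theorem exists_root_between {ℓ : ℕ} [hℓ : Fact ℓ.Prime] {R M : Type} [Field R] [Field M]
    [Algebra R M] [CharZero R] {ζ : R} (hζ : IsPrimitiveRoot ζ ℓ)
    (hpow : ∀ z : M, ∃ N : IntermediateField R M, z ∈ N ∧ Lev ℓ N)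
    (L L0 : IntermediateField R M) (hLL : L ≤ L0) {z : M} (hz0 : z ∈ L0) (hz : z ∉ L) :
    ∃ h : M, h ∈ L0 ∧ h ∉ L ∧ h ^ ℓ ∈ L := by
  classical
  obtain ⟨N, hzN, hN⟩ := hpow z
  haveI := hN.fin
  haveI := hN.gal
  obtain ⟨m, hm⟩ := hN.card
  obtain ⟨F, hF⟩ : ∃ F : IntermediateField R N, F = L.comap N.val := ⟨_, rfl⟩
  obtain ⟨F0, hF0⟩ : ∃ F0 : IntermediateField R N, F0 = L0.comap N.val := ⟨_, rfl⟩
  have hmF : ∀ y : N, y ∈ F ↔ (y : M) ∈ L := by intro y; rw [hF]; rfl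
  have hmF0 : ∀ y : N, y ∈ F0 ↔ (y : M) ∈ L0 := by intro y; rw [hF0]; rfl
  obtain ⟨m', -, hm'⟩ := (Nat.dvd_prime_pow hℓ.out).1
    (show Module.finrank F N ∣ ℓ ^ m from ⟨Module.finrank R F, by
      rw [← hm, mul_comm]; exact (Module.finrank_mul_finrank R F N).symm⟩)
  have hcard : Nat.card (N ≃ₐ[F] N) = ℓ ^ m' := by rw [IsGalois.card_aut_eq_finrank, hm']
  let K : Subgroup (N ≃ₐ[F] N) :=
    { carrier := {γ | ∀ y ∈ F0, γ y = y}
      mul_mem' := fun {a b} ha hb y hy => by rw [AlgEquiv.mul_apply, hb y hy, ha y hy]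
      one_mem' := fun y _ => rfl
      inv_mem' := fun {a} ha y hy => by
        have h1 := ha y hy
        have h2 : a⁻¹ (a y) = y := a.symm_apply_apply y
        rwa [h1] at h2 }
  have hK : K ≠ ⊤ := by
    intro h
    apply hz
    have h1 : (⟨z, hzN⟩ : N) ∈ (⊥ : IntermediateField F N) := by
      rw [IsGalois.mem_bot_iff_fixed]
      intro γ
      have h2 : γ ∈ K := by rw [h]; trivial
      exact h2 _ ((hmF0 _).2 hz0)
    obtain ⟨y, hy⟩ := IntermediateField.mem_bot.1 h1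
    have h3 := (hmF y).1 y.2
    have h4 : ((y : N) : M) = z := congrArg Subtype.val hy
    rwa [h4] at h3
  have hζF : IsPrimitiveRoot (algebraMap R F ζ) ℓ :=
    hζ.map_of_injective (algebraMap R F).injective
  obtain ⟨β, hβ0, ⟨r, hr⟩, hβK, σ, hσ⟩ := exists_kummer hζF hcard K hK
  refine ⟨β, (hmF0 β).1 ?_, fun h => hσ ?_, ?_⟩
  · have h1 : β ∈ (⊥ : IntermediateField F0 N) := by
      rw [IsGalois.mem_bot_iff_fixed]
      intro γ
      let γ' : N ≃ₐ[F] N := AlgEquiv.ofRingEquiv (f := (γ : N ≃+* N)) (fun y => by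
        have : (y : N) ∈ F0 := (hmF0 _).2 (hLL ((hmF _).1 y.2))
        exact γ.commutes ⟨y, this⟩)
      exact hβK γ' (fun y hy => γ.commutes ⟨y, hy⟩)
    obtain ⟨y, hy⟩ := IntermediateField.mem_bot.1 h1
    rw [← hy]
    exact y.2
  · exact σ.commutes ⟨β, (hmF β).2 h⟩
  · have h1 := (hmF r).1 r.2
    have h2 : ((r : N) : M) = (β : M) ^ ℓ := congrArg Subtype.val hr
    rwa [h2] at h1

end Pool.Agent.Zk12.TR
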