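import Pool.Agent.Zk12.TR.Fix2
import Pool.Agent.Zk12.TR.Prol2

/-!
# Rigidity of sections on a stable subfield
-/

set_option autoImplicit false
set_option linter.all false

open Polynomial FF Pool.Agent.Y157.PS

namespace Pool.Agent.Zk12.TR

open Pool.Agent.Y158.GR

variable {ℓ : ℕ} [hℓ : Fact ℓ.Prime] {κ R M : Type} [Field κ] [IsAlgClosed κ] [CharZero κ]
  [Field R] [Field M] [Algebra κ R] [Algebra R M] [Algebra κ M] [IsScalarTower κ R M] {x : R}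
  {B : Finset κ} {Y : M} {k : Type} [Field k] [Algebra k κ]

/-- the semilinear automorphisms which map `L0` to itself -/
def StG (k : Type) [Field k] [Algebra k κ] (x : R) (L0 : IntermediateField R M) :
    Subgroup (RingAut M) where
  carrier := {ψ | ψ ∈ GG (κ := κ) k M x ∧ ∀ z, ψ z ∈ L0 ↔ z ∈ L0}
  mul_mem' := by
    rintro a b ⟨h1, h2⟩ ⟨h3, h4⟩
    exact ⟨mul_mem h1 h3, fun z => (h2 _).trans (h4 z)⟩
  one_mem' := ⟨one_mem _, fun z => Iff.rfl⟩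
  inv_mem' := by
    rintro a ⟨h1, h2⟩
    refine ⟨inv_mem h1, fun z => ?_⟩
    have e : a ((a⁻¹ : RingAut M) z) = z := a.apply_symm_apply z
    rw [← h2, e]

/-- the field of the elements of `L0` on whose conjugates the two actions agree -/
def LD2 (L0 : IntermediateField R M) (hR : RatF κ x) {s t : (κ ≃ₐ[k] κ) →* RingAut M}
    (hs : Act k κ R M x s) (ht : Act k κ R M x t) : IntermediateField R M where
  carrier := {z | z ∈ L0 ∧ ∀ ψ ∈ StG (κ := κ) k x L0, ∀ σ, s σ (ψ z) = t σ (ψ z)}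
  mul_mem' := fun ha hb => ⟨mul_mem ha.1 hb.1, fun ψ hψ σ => by
    rw [map_mul, map_mul, map_mul, ha.2 ψ hψ σ, hb.2 ψ hψ σ]⟩
  one_mem' := ⟨one_mem _, fun ψ hψ σ => by rw [map_one, map_one, map_one]⟩
  add_mem' := fun ha hb => ⟨add_mem ha.1 hb.1, fun ψ hψ σ => by
    rw [map_add, map_add, map_add, ha.2 ψ hψ σ, hb.2 ψ hψ σ]⟩
  zero_mem' := ⟨zero_mem _, fun ψ hψ σ => by rw [map_zero, map_zero, map_zero]⟩
  algebraMap_mem' := fun r => ⟨L0.algebraMap_mem r, fun ψ hψ σ => by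
    obtain ⟨σ', hσ'⟩ := mem_GG.1 hψ.1
    obtain ⟨r', hr'⟩ := hσ'.mapR hR r
    rw [hr']
    exact hs.eq_R hR ht σ r'⟩
  inv_mem' := fun a ha => ⟨inv_mem ha.1, fun ψ hψ σ => by
    rw [map_inv₀, map_inv₀, map_inv₀, ha.2 ψ hψ σ]⟩

theorem mem_LD2 {L0 : IntermediateField R M} {hR : RatF κ x} {s t : (κ ≃ₐ[k] κ) →* RingAut M}
    {hs : Act k κ R M x s} {ht : Act k κ R M x t} {z : M} : z ∈ LD2 L0 hR hs ht ↔
      z ∈ L0 ∧ ∀ ψ ∈ StG (κ := κ) k x L0, ∀ σ, s σ (ψ z) = t σ (ψ z) := Iff.rfl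

/-- **rigidity on a stable subfield** -/
theorem rigid2 (hk : Algebra.IsAlgebraic k κ) (hC : Cov ℓ κ R M x B Y)
    (hB : ∀ σ : κ ≃ₐ[k] κ, ∀ e ∈ B, σ e = e) (hμ : ∀ σ : κ ≃ₐ[k] κ, ∀ c : κ, c ^ ℓ = 1 → σ c = c)
    (L0 : IntermediateField R M)
    {s t : (κ ≃ₐ[k] κ) →* RingAut M} (hs : Act k κ R M x s) (ht : Act k κ R M x t)
    (hsL : ∀ σ, ∀ z ∈ L0, s σ z ∈ L0) (htL : ∀ σ, ∀ z ∈ L0, t σ z ∈ L0)
    (hχ : ∀ χ : (κ ≃ₐ[k] κ) → κ, (∀ σ, χ σ ^ ℓ = 1) → (∀ σ τ, χ (σ * τ) = χ σ * χ τ) →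
      (∃ E : IntermediateField k κ, FiniteDimensional k E ∧
        ∀ σ ∈ E.fixingSubgroup, χ σ = 1) → (∀ σ, (∀ z ∈ L0, s σ z = t σ z) → χ σ = 1) →
          ∀ σ, χ σ = 1) :
    ∀ σ, ∀ z ∈ L0, s σ z = t σ z := by
  classical
  have hR := hC.rat
  haveI := hC.gal
  haveI : CharZero R := charZero_of_injective_algebraMap (algebraMap κ R).injective
  have hG : ∀ u : (κ ≃ₐ[k] κ) →* RingAut M, Act k κ R M x u → (∀ σ, ∀ z ∈ L0, u σ z ∈ L0) →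
      ∀ σ, u σ ∈ StG (κ := κ) k x L0 := by
    intro u hu huL σ
    refine ⟨hu.mem σ, fun z => ⟨fun h => ?_, huL σ z⟩⟩
    have h1 := huL σ⁻¹ _ h
    rwa [Pool.Agent.Y748.PS.s_inv_apply] at h1
  have hsG := hG s hs hsL
  have htG := hG t ht htL
  have hGst : ∀ ψ ∈ StG (κ := κ) k x L0, ∀ z ∈ LD2 L0 hR hs ht, ψ z ∈ LD2 L0 hR hs ht := by
    intro ψ hψ z hz
    rw [mem_LD2] at hz ⊢
    exact ⟨(hψ.2 z).2 hz.1, fun ψ' hψ' σ => hz.2 (ψ' * ψ) (mul_mem hψ' hψ) σ⟩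
  have hself : ∀ z ∈ LD2 L0 hR hs ht, ∀ σ, s σ z = t σ z := fun z hz σ =>
    (mem_LD2.1 hz).2 1 (one_mem _) σ
  have htinv : ∀ (σ : κ ≃ₐ[k] κ) (z : M), t σ (t σ⁻¹ z) = z := fun σ z =>
    Pool.Agent.Y748.PS.s_apply_inv t σ z
  have hprim : ∃ ζ : R, IsPrimitiveRoot ζ ℓ := by
    haveI : NeZero ℓ := ⟨hℓ.out.ne_zero⟩
    haveI : NeZero (ℓ : κ) := ⟨Nat.cast_ne_zero.2 hℓ.out.ne_zero⟩
    obtain ⟨ζ, hζ⟩ := HasEnoughRootsOfUnity.exists_primitiveRoot κ ℓ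
    exact ⟨algebraMap κ R ζ, hζ.map_of_injective (algebraMap κ R).injective⟩
  obtain ⟨ζ, hζ⟩ := hprim
  have hle : LD2 L0 hR hs ht ≤ L0 := fun z hz => hz.1
  by_contra hno
  obtain ⟨z, hz0, hz⟩ : ∃ z ∈ L0, z ∉ LD2 L0 hR hs ht := by
    by_contra h
    apply hno
    intro σ z hz
    by_contra h1
    exact h ⟨z, hz, fun h2 => h1 (hself z h2 σ)⟩
  obtain ⟨h0, h00, h0L, h0ℓ⟩ := exists_root_between hζ hC.pow _ L0 hle hz0 hz
  obtain ⟨h, hh0', hhL, hhℓ, hfix⟩ := exists_fixed2 hk hC hB hμ (StG (κ := κ) k x L0)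
    (fun ψ hψ => hψ.1) (LD2 L0 hR hs ht) L0 hle hGst (fun ψ hψ z hz => (hψ.2 z).2 hz) h0 h00 h0L h0ℓ
  apply hhL
  have hh0 : h ≠ 0 := by
    rintro rfl
    exact hhL (zero_mem _)
  -- `s σ (t σ⁻¹ h) = χ σ h`
  have h1 : ∀ σ : κ ≃ₐ[k] κ, ∃ c : κ, c ^ ℓ = 1 ∧ s σ (t σ⁻¹ h) = algebraMap κ M c * h := by
    intro σ
    have h2 : (s σ (t σ⁻¹ h) / h) ^ ℓ = 1 := by
      have h3 : t σ⁻¹ (h ^ ℓ) ∈ LD2 L0 hR hs ht := hGst _ (htG _) _ hhℓ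
      rw [div_pow, ← map_pow, ← map_pow, hself _ h3, htinv, div_self (pow_ne_zero _ hh0)]
    obtain ⟨c, hc, hc'⟩ := Pool.Agent.Y748.PS.rou_const (κ := κ) hℓ.out.pos h2
    exact ⟨c, hc, by rw [hc', div_mul_cancel₀ _ hh0]⟩
  choose χ hχ1 hχ2 using h1
  have hone : ∀ σ, s σ (t σ⁻¹ h) = h → χ σ = 1 := by
    intro σ h6
    have h7 := hχ2 σ
    rw [h6] at h7
    have h8 : algebraMap κ M 1 * h = algebraMap κ M (χ σ) * h := by rw [map_one, one_mul, ← h7]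
    exact ((algebraMap κ M).injective (mul_right_cancel₀ hh0 h8)).symm
  have hχall : ∀ σ, χ σ = 1 := by
    apply hχ χ hχ1
    · intro σ τ
      -- `t σ⁻¹ h = a h`
      obtain ⟨a, ha, haL⟩ : ∃ a : M, t σ⁻¹ h = a * h ∧ a ∈ LD2 L0 hR hs ht :=
        ⟨t σ⁻¹ h / h, by rw [div_mul_cancel₀ _ hh0], hfix _ (htG _)⟩
      have haτ : s τ (t τ⁻¹ a) = a := by
        have h3 : t τ⁻¹ a ∈ LD2 L0 hR hs ht := hGst _ (htG _) _ haL
        rw [hself _ h3, htinv]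
      have e1 : s (σ * τ) (t (σ * τ)⁻¹ h) = s σ (s τ (t τ⁻¹ (t σ⁻¹ h))) := by
        rw [mul_inv_rev, map_mul, map_mul]
        rfl
      have e2 : s τ (t τ⁻¹ (t σ⁻¹ h)) = algebraMap κ M (χ τ) * t σ⁻¹ h := by
        rw [ha, map_mul, map_mul, haτ, hχ2]
        ring
      have e3 := hχ2 (σ * τ)
      rw [e1, e2, map_mul, hs.const, hμ σ _ (hχ1 τ), hχ2 σ, ← mul_assoc, ← map_mul] at e3
      have e4 := (algebraMap κ M).injective (mul_right_cancel₀ hh0 e3)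
      rw [← e4, mul_comm]
    · obtain ⟨E1, hE1, hE1'⟩ := hs.cont h
      obtain ⟨E2, hE2, hE2'⟩ := ht.cont h
      haveI := hE1
      haveI := hE2
      refine ⟨E1 ⊔ E2, inferInstance, fun σ hσE => ?_⟩
      rw [IntermediateField.mem_fixingSubgroup_iff] at hσE
      have h4 : s σ h = h := hE1' σ (by
        rw [IntermediateField.mem_fixingSubgroup_iff]
        exact fun y hy => hσE y ((le_sup_left : E1 ≤ _) hy))
      have h5 : t σ h = h := hE2' σ (by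
        rw [IntermediateField.mem_fixingSubgroup_iff]
        exact fun y hy => hσE y ((le_sup_right : E2 ≤ _) hy))
      have h6 : t σ⁻¹ h = h := by
        conv_lhs => rw [← h5]
        exact Pool.Agent.Y748.PS.s_inv_apply t σ h
      exact hone σ (by rw [h6, h4])
    · intro σ hσ
      refine hone σ ?_
      rw [hσ _ (htL _ _ hh0'), htinv]
  have heq : ∀ σ, s σ h = t σ h := by
    intro σ
    have h7 := hχ2 σ⁻¹
    rw [hχall, map_one, one_mul, inv_inv] at h7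
    have h8 := congrArg (s σ) h7
    rw [Pool.Agent.Y748.PS.s_apply_inv] at h8
    exact h8.symm
  rw [mem_LD2]
  refine ⟨hh0', fun ψ hψ σ => ?_⟩
  obtain ⟨a, ha, haL⟩ : ∃ a : M, ψ h = a * h ∧ a ∈ LD2 L0 hR hs ht :=
    ⟨ψ h / h, by rw [div_mul_cancel₀ _ hh0], hfix _ hψ⟩
  rw [ha, map_mul, map_mul, hself a haL σ, heq]

end Pool.Agent.Zk12.TR
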