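import Mathlib
import Pool.Agent.Zk12.Good
import Pool.Agent.Y158.GR.Com

/-!
# Rigidity of twisted sections: statements of the parts

As in `Pool.Agent.Y157.PS.Stm`, every part is a `def S_X : Prop`.
-/

set_option autoImplicit false
set_option linter.all false

open Polynomial FF Pool.Agent.Y157.PS IsDedekindDomain NumberField

namespace Pool.Agent.Zk12.TR

open Pool.Agent.Y158.GR Pool.Agent.Zk12

/-- `h` is fixed by all elements of `Gal(M/E)` which fix a place: if `h ^ (2 ^ n) ∈ E` this says that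
`E(h)/E` is unramified -/
def Ur (κ : Type) {R M : Type} [Field κ] [Field R] [Field M] [Algebra R M] [Algebra κ M]
    (E : IntermediateField R M) (h : M) : Prop :=
  ∀ (W : Place κ M) (c : M ≃ₐ[R] M), Fixes W c → (∀ z ∈ E, c z = z) → c h = h

/-- divisors of even degree are principal modulo `2`, also if `E` is not Galois over `R` -/
def S_T1E : Prop :=
  ∀ (κ R M : Type) [Field κ] [IsAlgClosed κ] [CharZero κ] [Field R] [Field M] [Algebra κ R]
    [Algebra R M] [Algebra κ M] [IsScalarTower κ R M] (x : R) (B : Finset κ) (Y : M),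
    Cov 2 κ R M x B Y → ∀ E : IntermediateField R M, FiniteDimensional R E →
    ∀ D : Place κ E →₀ ℤ, (2 : ℤ) ∣ D.sum (fun _ n => n) →
      ∃ z : E, z ≠ 0 ∧ ∀ w : Place κ E, (2 : ℤ) ∣ w.ord z - D w

/-- `φ` is a semilinear automorphism which raises the roots of unity of `2`-power order to the power
`q` and which fixes only finitely many classes on every level -/
structure Frb (k : Type) {κ R M : Type} [Field k] [Field κ] [Algebra k κ] [Field R] [Field M]
    [Algebra κ R] [Algebra R M] [Algebra κ M] (x : R) (Y : M) (φ : RingAut M) (σ : κ ≃ₐ[k] κ)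
    (q : ℕ) : Prop where
  sa : SA k x φ σ
  mu : ∀ (n : ℕ) (c : κ), c ^ 2 ^ n = 1 → σ c = c ^ q
  fin : ∀ N : IntermediateField R M, Lev 2 N → Y ∈ N → (∀ z, φ z ∈ N ↔ z ∈ N) →
    FinCls N.toSubfield (fun h => (∃ n : ℕ, h ^ (2 ^ n) ∈ N) ∧ φ h / h ∈ N)

/-- **part A (weights)**: `φ - q` is surjective on the unramified Kummer classes of `2`-power order
of a finite level `E` which is stable under `φ` (not necessarily Galois over `R`) -/
def S_WT : Prop :=
  ∀ (k κ R M : Type) [Field k] [Field κ] [Algebra k κ] [IsAlgClosed κ] [CharZero κ] [Field R]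
    [Field M] [Algebra κ R] [Algebra R M] [Algebra κ M] [IsScalarTower κ R M] (x : R)
    (B : Finset κ) (Y : M), Algebra.IsAlgebraic k κ → Cov 2 κ R M x B Y →
    ∀ (φ : RingAut M) (σ : κ ≃ₐ[k] κ) (q : ℕ), Frb k x Y φ σ q →
    ∀ E : IntermediateField R M, FiniteDimensional R E → (∀ z, φ z ∈ E ↔ z ∈ E) →
    ∀ (h : M) (n : ℕ), h ≠ 0 → h ^ 2 ^ n ∈ E → Ur κ E h →
      ∃ (g : M) (m : ℕ) (e : M), g ≠ 0 ∧ g ^ 2 ^ m ∈ E ∧ Ur κ E g ∧ e ∈ E ∧
        h = φ g / g ^ q * e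

/-- **part B**: if `φ` acts on the constants as the Frobenius automorphism modulo `V` and fixes a
place `W` above the branch point `e`, then it fixes no place above the other branch points, even when
restricted to the elements which are fixed by all inertia groups above `e` -/
def S_NF : Prop :=
  ∀ (κ R M : Type) [Field κ] [Algebra ℚ κ] [IsAlgClosure ℚ κ] [Field R] [Field M] [Algebra κ R]
    [Algebra R M] [Algebra κ M] [IsScalarTower κ R M] (x : R) (Y : M),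
    Cov 2 κ R M x (BK κ) Y → ∀ V : ValuationSubring κ, IsU V (6 : κ) →
    ∀ (φ : RingAut M) (σ : κ ≃ₐ[ℚ] κ) (q : ℕ), 1 < q → SA ℚ x φ σ → Fro V q σ →
    ∀ (W W' : Place κ M), ∀ e ∈ BK κ, ∀ e' ∈ BK κ, e' ≠ e →
      0 < W.ord (algebraMap R M x - algebraMap κ M e) →
      0 < W'.ord (algebraMap R M x - algebraMap κ M e') → Fixes W φ →
      ∃ z : M, (∀ (W₁ : Place κ M) (c : M ≃ₐ[R] M),
          0 < W₁.ord (algebraMap R M x - algebraMap κ M e) → Fixes W₁ c → c z = z) ∧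
        W'.ord (φ z) ≠ W'.ord z

/-- **part C**: the local data at a place `v` outside `6` where `a` is a uniformiser -/
def S_BAD : Prop :=
  ∀ (κ R M : Type) [Field κ] [Algebra ℚ κ] [IsAlgClosure ℚ κ] [Field R] [Field M] [Algebra κ R]
    [Algebra R M] [Algebra κ M] [IsScalarTower κ R M] (x : R) (Y : M),
    Cov 2 κ R M x (BK κ) Y → ∀ (a : ℚ) (δ : κ), δ ^ 2 = algebraMap ℚ κ (30 ^ 5 * a) →
    ∀ v : HeightOneSpectrum (𝓞 ℚ), v.valuation ℚ 6 = 1 →
      v.valuation ℚ a = WithZero.exp (-1 : ℤ) →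
    ∃ (V : ValuationSubring κ) (O : ValuationSubring M) (σ : κ ≃ₐ[ℚ] κ) (q : ℕ), Above v V ∧
      1 < q ∧ Fro V q σ ∧
      -- `Gal(M/R)` acts faithfully on the residue field of `O`
      (∀ (γ : M ≃ₐ[R] M) (z : M), γ z ∈ O ↔ z ∈ O) ∧
      (∀ γ : M ≃ₐ[R] M, (∀ z ∈ O, γ z - z ∈ O.nonunits) → γ = 1) ∧
      -- weights
      (∀ (j : ℕ) (φ : RingAut M), SA ℚ x φ (σ ^ 2 ^ j) → Frb ℚ x Y φ (σ ^ 2 ^ j) (q ^ 2 ^ j)) ∧
      -- sections
      ∀ S : (κ ≃ₐ[ℚ] κ) →* RingAut M, Sec ℚ κ R M x Y δ S →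
        ∃ (W : Place κ M) (c : M ≃ₐ[R] M),
          (∃ e ∈ BK κ, 0 < W.ord (algebraMap R M x - algebraMap κ M e)) ∧
          Fixes W c ∧ c Y ≠ Y ∧ Fixes W (S σ) ∧
          (∀ τ : κ ≃ₐ[ℚ] κ, Ine V τ → τ δ = δ → ∀ z ∈ O, S τ z - z ∈ O.nonunits) ∧
          (∀ τ : κ ≃ₐ[ℚ] κ, Ine V τ → τ δ ≠ δ → ∀ z ∈ O, S τ z - c z ∈ O.nonunits) ∧
          ∀ W' : Place κ M,
            (∃ e ∈ BK κ, 0 < W'.ord (algebraMap R M x - algebraMap κ M e)) →
            (∀ τ : κ ≃ₐ[ℚ] κ, Dec V τ → Fixes W' (S τ)) → W' = W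

end Pool.Agent.Zk12.TR
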