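import Mathlib
import Pool.Agent.Zk12.TR.Stm
import Pool.Agent.Zk12.Rigid

/-!
# The section attached to a place above a rational branch point
-/

set_option autoImplicit false
set_option linter.all false

open Polynomial FF Pool.Agent.Y157.PS

namespace Pool.Agent.Zk12.TR

open Pool.Agent.Y158.GR Pool.Agent.Zk12

section

variable {k κ R M : Type} [Field k] [Field κ] [Algebra k κ] [IsAlgClosed κ] [CharZero κ] [Field R]
  [Field M] [Algebra κ R] [Algebra R M] [Algebra κ M] [IsScalarTower κ R M] {x : R}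
  {B : Finset κ} {Y : M}

theorem Y_ne (hC : Cov 2 κ R M x B Y) (W : Place κ M) {e : κ} (he : e ∈ B)
    (hW : 0 < W.ord (algebraMap R M x - algebraMap κ M e)) : Y ≠ 0 := by
  have hYW := hC.ordY W he hW
  rintro rfl
  rw [W.ord_zero] at hYW
  exact zero_ne_one hYW

/-- an automorphism over `R` from two semilinear ones -/
theorem diffR (hR : RatF κ x) {τ τ' : RingAut M} {σ : κ ≃ₐ[k] κ} (h : SA k x τ σ)
    (h' : SA k x τ' σ) : ∃ γ : M ≃ₐ[R] M, ∀ z, τ' (γ z) = τ z := by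
  have h1 : SA k x (τ'⁻¹ * τ : RingAut M) (1 : κ ≃ₐ[k] κ) := by
    have := h'.inv.mul h
    rwa [inv_mul_cancel] at this
  have hfix : ∀ r : R, (τ'⁻¹ * τ : RingAut M) (algebraMap R M r) = algebraMap R M r := by
    intro r
    have hz : r ∈ IntermediateField.adjoin κ {x} := by rw [hR.gen]; trivial
    induction hz using IntermediateField.adjoin_induction with
    | mem y hy =>
      rw [Set.mem_singleton_iff] at hy
      subst hy
      exact h1.fixx
    | algebraMap c =>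
      rw [← IsScalarTower.algebraMap_apply, h1.const]
      rfl
    | add a b _ _ ha hb => rw [map_add, map_add, ha, hb]
    | inv a _ ha => rw [map_inv₀, map_inv₀, ha]
    | mul a b _ _ ha hb => rw [map_mul, map_mul, ha, hb]
  refine ⟨AlgEquiv.ofRingEquiv (f := (τ'⁻¹ * τ : RingAut M)) hfix, fun z => ?_⟩
  change τ' ((τ'⁻¹ : RingAut M) (τ z)) = τ z
  exact τ'.apply_symm_apply _

/-- uniqueness of a semilinear automorphism which fixes a place and has a given value on `Y` -/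
theorem sa_unique (hC : Cov 2 κ R M x B Y) (W : Place κ M) {e : κ} (he : e ∈ B)
    (hW : 0 < W.ord (algebraMap R M x - algebraMap κ M e)) {τ τ' : RingAut M} {σ : κ ≃ₐ[k] κ}
    (h : SA k x τ σ) (h' : SA k x τ' σ) (hF : Fixes W τ) (hF' : Fixes W τ')
    (hY : τ Y = τ' Y) : τ = τ' := by
  obtain ⟨γ, hγ⟩ := diffR hC.rat h h'
  have h1 : γ = 1 := by
    refine hC.stabR a_stab W γ (fun z => ?_) Y (hC.ordY W he hW) ?_
    · have h2 := hF' (γ z)
      rw [hγ, hF] at h2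
      exact h2.symm
    · apply τ'.injective
      rw [hγ, hY]
  ext z
  have h2 := hγ z
  rw [h1] at h2
  exact h2.symm

/-- existence -/
theorem sa_exists (hC : Cov 2 κ R M x B Y) (W : Place κ M) {e : κ} (he : e ∈ B)
    (hW : 0 < W.ord (algebraMap R M x - algebraMap κ M e)) {c : M ≃ₐ[R] M} (hcW : Fixes W c)
    (hcY : c Y ≠ Y) {τ : RingAut M} {σ : κ ≃ₐ[k] κ} (h : SA k x τ σ) (hσ : σ e = e) {ξ : κ}
    (hξ : ξ ≠ 0) (hY : τ Y = algebraMap κ M ξ * Y) :
    ∃ τ' : RingAut M, SA k x τ' σ ∧ Fixes W τ' ∧ τ' Y = algebraMap κ M ξ * Y := by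
  haveI := hC.gal
  haveI : Normal R M := hC.gal.to_normal
  have hY0 := Y_ne hC W he hW
  let W₁ : Place κ M := Place.comapEquiv W τ (σ : κ ≃+* κ) h.const
  have hW₁ : ∀ z, W₁.ord z = W.ord (τ z) := fun z => rfl
  have hW₁e : 0 < W₁.ord (algebraMap R M x - algebraMap κ M e) := by
    rw [hW₁, map_sub, h.fixx, h.const, hσ]
    exact hW
  obtain ⟨γ, hγ⟩ := a_conj R M W₁.O W.O (trace_eq hC.rat e hW₁e hW)
  have hO : ∀ z, W.ord (τ (γ z)) = W.ord z := by
    have h1 : Fixes W (((γ : M ≃+* M).trans τ : M ≃+* M)) := by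
      refine fixes_of_O W _ (σ : κ ≃+* κ) (fun b => ?_) fun z => ?_
      · change τ (γ (algebraMap κ M b)) = _
        rw [Pool.Agent.Y748.PS.gal_const, h.const]
        rfl
      · rw [hγ z]
        change τ (γ z) ∈ W.O ↔ γ z ∈ W₁.O
        by_cases hz : z = 0
        · rw [hz, map_zero, map_zero]
          exact ⟨fun _ => zero_mem _, fun _ => zero_mem _⟩
        · have hz' : γ z ≠ 0 := (map_ne_zero_iff γ γ.injective).2 hz
          rw [O_iff _ hz', O_iff _ ((map_ne_zero_iff τ τ.injective).2 hz')]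
          exact Iff.rfl
    exact h1
  -- the sign
  have hcase : ∀ g : M ≃ₐ[R] M, g Y = Y ∨ g Y = -Y := by
    intro g
    obtain ⟨ζ, hζ, hgY⟩ := hC.actY hY0 g
    have h1 : (ζ - 1) * (ζ + 1) = 0 := by linear_combination hζ
    rcases mul_eq_zero.1 h1 with h | h
    · left; rw [hgY, sub_eq_zero.1 h, map_one, one_mul]
    · right; rw [hgY, eq_neg_of_add_eq_zero_left h, map_neg, map_one, neg_one_mul]
  have hcY' : c Y = -Y := (hcase c).resolve_left hcY
  have hsa : ∀ g : M ≃ₐ[R] M, SA k x (τ * ((g : M ≃+* M) : RingAut M) : RingAut M) σ := by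
    intro g
    refine ⟨fun b => ?_, ?_⟩
    · change τ (g (algebraMap κ M b)) = _
      rw [Pool.Agent.Y748.PS.gal_const, h.const]
    · change τ (g (algebraMap R M x)) = _
      rw [g.commutes, h.fixx]
  rcases hcase γ with h1 | h1
  · refine ⟨(τ * ((γ : M ≃+* M) : RingAut M) : RingAut M), hsa γ, fun z => hO z, ?_⟩
    change τ (γ Y) = _
    rw [h1, hY]
  · refine ⟨(τ * (((γ * c : M ≃ₐ[R] M) : M ≃+* M) : RingAut M) : RingAut M), hsa (γ * c),
      fun z => ?_, ?_⟩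
    · change W.ord (τ (γ (c z))) = W.ord z
      rw [hO, hcW]
    · change τ (γ (c Y)) = _
      rw [hcY', map_neg, h1, neg_neg, hY]

/-- **the section attached to `W`** -/
theorem exists_tw (hk : Algebra.IsAlgebraic k κ) (hC : Cov 2 κ R M x B Y) {δ : κ} (hδ : δ ≠ 0)
    {S : (κ ≃ₐ[k] κ) →* RingAut M} (hS : Sec k κ R M x Y δ S) (W : Place κ M) {e : κ} (he : e ∈ B)
    (hek : ∀ σ : κ ≃ₐ[k] κ, σ e = e)
    (hW : 0 < W.ord (algebraMap R M x - algebraMap κ M e)) {c : M ≃ₐ[R] M} (hcW : Fixes W c)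
    (hcY : c Y ≠ Y) :
    ∃ t : (κ ≃ₐ[k] κ) →* RingAut M, Sec k κ R M x Y δ t ∧ ∀ σ, Fixes W (t σ) := by
  classical
  haveI := hC.gal
  have hSA : ∀ σ, SA k x (S σ) σ := fun σ => ⟨hS.const σ, hS.fixx σ⟩
  have hex : ∀ σ : κ ≃ₐ[k] κ, ∃ τ' : RingAut M, SA k x τ' σ ∧ Fixes W τ' ∧
      τ' Y = algebraMap κ M (σ δ / δ) * Y := fun σ =>
    sa_exists hC W he hW hcW hcY (hSA σ) (hek σ)
      (div_ne_zero ((_root_.map_ne_zero _).2 hδ) hδ) (hS.fixy σ)
  choose t0 h1 h2 h3 using hex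
  have hmul : ∀ σ τ, t0 (σ * τ) = t0 σ * t0 τ := by
    intro σ τ
    refine sa_unique hC W he hW (h1 _) ((h1 σ).mul (h1 τ)) (h2 _) (fun z => ?_) ?_
    · change W.ord (t0 σ (t0 τ z)) = _
      rw [h2, h2]
    · change _ = t0 σ (t0 τ Y)
      rw [h3, h3, map_mul, (h1 σ).const, h3, ← mul_assoc, ← map_mul]
      congr 2
      rw [map_div₀]
      have : σ δ ≠ 0 := (_root_.map_ne_zero _).2 hδ
      rw [AlgEquiv.mul_apply]
      field_simp
  let t : (κ ≃ₐ[k] κ) →* RingAut M := MonoidHom.mk' t0 hmul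
  have ht : ∀ σ, t σ = t0 σ := fun σ => rfl
  refine ⟨t, ⟨fun σ b => (h1 σ).const b, fun σ => (h1 σ).fixx, fun σ => h3 σ, fun z => ?_⟩,
    fun σ => h2 σ⟩
  -- continuity
  obtain ⟨N0, hzN0, hN0⟩ := hC.pow z
  obtain ⟨N1, hYN1, hN1⟩ := hC.pow Y
  haveI := hN0.fin
  haveI := hN0.gal
  haveI := hN1.fin
  haveI := hN1.gal
  obtain ⟨N, hN⟩ : ∃ N : IntermediateField R M, N = N0 ⊔ N1 := ⟨_, rfl⟩
  haveI hfd : FiniteDimensional R N := by rw [hN]; infer_instance
  haveI hgal : IsGalois R N := by rw [hN]; infer_instance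
  have hzN : z ∈ N := by rw [hN]; exact (le_sup_left : N0 ≤ N0 ⊔ N1) hzN0
  have hYN : Y ∈ N := by rw [hN]; exact (le_sup_right : N1 ≤ N0 ⊔ N1) hYN1
  obtain ⟨w, hw⟩ := (a_res 2 κ R M x B Y hC N hfd hYN).1 W
  -- separating elements
  have hsep : ∀ g : N ≃ₐ[R] N, ∃ u : N, (∃ z : N, w.ord (g z) ≠ w.ord z) → w.ord (g u) ≠ w.ord u := by
    intro g
    by_cases hg : ∃ z : N, w.ord (g z) ≠ w.ord z
    · obtain ⟨z, hz⟩ := hg
      exact ⟨z, fun _ => hz⟩
    · exact ⟨0, fun h => absurd h hg⟩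
  choose u hu using hsep
  have hcont : ∀ m : M, ∃ E : IntermediateField k κ, FiniteDimensional k E ∧
      ∀ σ ∈ E.fixingSubgroup, S σ m = m := hS.cont
  choose E hE hE' using hcont
  haveI : Fintype (N ≃ₐ[R] N) := Fintype.ofFinite _
  haveI hEi : ∀ m, FiniteDimensional k (E m) := hE
  haveI : FiniteDimensional k (IntermediateField.adjoin k {δ}) :=
    IntermediateField.adjoin.finiteDimensional (hk.isAlgebraic δ).isIntegral
  haveI hfs : FiniteDimensional k (⨆ g : N ≃ₐ[R] N, E (u g : M) : IntermediateField k κ) :=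
    IntermediateField.finiteDimensional_iSup_of_finite
  refine ⟨((⨆ g : N ≃ₐ[R] N, E (u g : M)) ⊔ E z) ⊔ IntermediateField.adjoin k {δ}, inferInstance,
    fun σ hσ => ?_⟩
  rw [IntermediateField.mem_fixingSubgroup_iff] at hσ
  have hσ1 : ∀ g, S σ (u g : M) = u g := fun g => hE' _ σ (by
    rw [IntermediateField.mem_fixingSubgroup_iff]
    intro y hy
    exact hσ y ((le_sup_left : _ ≤ _ ⊔ IntermediateField.adjoin k {δ})
      ((le_sup_left : _ ≤ (⨆ g : N ≃ₐ[R] N, E (u g : M)) ⊔ E z)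
        ((le_iSup (fun g : N ≃ₐ[R] N => E (u g : M)) g) hy))))
  have hσ2 : S σ z = z := hE' _ σ (by
    rw [IntermediateField.mem_fixingSubgroup_iff]
    intro y hy
    exact hσ y ((le_sup_left : _ ≤ _ ⊔ IntermediateField.adjoin k {δ})
      ((le_sup_right : _ ≤ (⨆ g : N ≃ₐ[R] N, E (u g : M)) ⊔ E z) hy)))
  have hσ3 : σ δ = δ := hσ δ ((le_sup_right : IntermediateField.adjoin k {δ} ≤ _)
    (IntermediateField.mem_adjoin_simple_self k δ))
  -- `t σ = γ * S σ`
  obtain ⟨γ, hγ⟩ : ∃ γ : M ≃ₐ[R] M, ∀ z, γ (S σ z) = t0 σ z := by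
    obtain ⟨γ, hγ⟩ := diffR hC.rat (h1 σ).inv (hSA σ).inv
    refine ⟨γ⁻¹, fun z => ?_⟩
    have h5 := hγ (t0 σ z)
    have h6 : ((t0 σ)⁻¹ : RingAut M) (t0 σ z) = z := (t0 σ).symm_apply_apply z
    rw [h6] at h5
    have h7 : S σ ((S σ)⁻¹ (γ (t0 σ z))) = γ (t0 σ z) := (S σ).apply_symm_apply _
    rw [h5] at h7
    rw [h7]
    exact γ.symm_apply_apply _
  obtain ⟨g, hg⟩ : ∃ g : N ≃ₐ[R] N, ∀ z : N, ((g z : N) : M) = γ z :=
    ⟨γ.restrictNormal N, fun z => AlgEquiv.restrictNormal_commutes γ N z⟩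
  have hgw : ∀ z : N, w.ord (g z) = w.ord z := by
    by_contra hno
    rw [not_forall] at hno
    apply hu g hno
    rw [← hw, ← hw, hg, ← hσ1 g, hγ, h2, hσ1 g]
  have hgY : g ⟨Y, hYN⟩ = ⟨Y, hYN⟩ := by
    apply Subtype.ext
    rw [hg]
    have h5 : S σ Y = Y := by
      rw [hS.fixy, hσ3, div_self hδ, map_one, one_mul]
    change γ Y = Y
    rw [← h5, hγ, h3, hσ3, div_self hδ, map_one, one_mul, h5]
  have hg1 : g = 1 := by
    have h5 : Algebra.IsAlgebraic (IntermediateField.adjoin κ {algebraMap R N x}) N := by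
      have hff : IsFF κ N := hC.rat.isFF (N := N)
      have htr : Transcendental κ (algebraMap R N x) := by
        rw [transcendental_algebraMap_iff (algebraMap R N).injective]
        exact hC.rat.trans
      exact IsFF.isAlgebraic htr
    have h6 := a_stab κ N (algebraMap R N x) h5 w (g.restrictScalars κ) (fun z => hgw z)
      ⟨Y, hYN⟩ (by rw [← hw]; exact hC.ordY W he hW) hgY
    ext z
    exact congrArg Subtype.val (DFunLike.congr_fun h6 z)
  change t0 σ z = z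
  rw [← hγ, hσ2]
  have h5 := hg ⟨z, hzN⟩
  rw [hg1] at h5
  exact h5.symm

end

end Pool.Agent.Zk12.TR
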