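import Mathlib
import Pool.Agent.Zk12.TR.Tw
import Pool.Agent.Helper386.D5V.Helper399_FF4

/-!
# Places of `M` and places of a finite level
-/

set_option autoImplicit false
set_option linter.all false

open Polynomial FF Pool.Agent.Y157.PS

namespace Pool.Agent.Zk12.TR

open Pool.Agent.Y158.GR Pool.Agent.Zk12

section

variable {κ R M : Type} [Field κ] [IsAlgClosed κ] [CharZero κ] [Field R]
  [Field M] [Algebra κ R] [Algebra R M] [Algebra κ M] [IsScalarTower κ R M] {x : R}
  {B : Finset κ} {Y : M}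

/-- places of `M` which agree on `E` are conjugate under `Gal(M/E)` (`E` of arbitrary degree) -/
theorem dic_conj (hC : Cov 2 κ R M x B Y) (E : IntermediateField R M) (W W' : Place κ M)
    (h : ∀ z ∈ E, 0 ≤ W.ord z ↔ 0 ≤ W'.ord z) :
    ∃ γ : M ≃ₐ[R] M, (∀ z ∈ E, γ z = z) ∧ ∀ z, W'.ord z = W.ord (γ z) := by
  haveI := hC.gal
  haveI : IsGalois E M := inferInstance
  haveI : Normal E M := IsGalois.to_normal
  obtain ⟨γ, hγ⟩ := a_conj E M W.O W'.O (by
    ext z
    rw [ValuationSubring.mem_comap, ValuationSubring.mem_comap]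
    by_cases hz : z = 0
    · rw [hz, map_zero]
      exact ⟨fun _ => zero_mem _, fun _ => zero_mem _⟩
    · have hz' : algebraMap E M z ≠ 0 := (_root_.map_ne_zero _).2 hz
      rw [O_iff _ hz', O_iff _ hz']
      exact h _ z.2)
  refine ⟨γ.restrictScalars R, fun z hz => γ.commutes ⟨z, hz⟩, fun z => ?_⟩
  have hc : ∀ b : κ, (γ : M ≃+* M) (algebraMap κ M b) =
      algebraMap κ M ((RingEquiv.refl κ) b) := by
    intro b
    exact Pool.Agent.Y748.PS.gal_const (γ.restrictScalars R) b
  have h1 : Place.comapEquiv W (γ : M ≃+* M) (RingEquiv.refl κ) hc = W' := by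
    apply Place.ext_O
    ext z
    by_cases hz : z = 0
    · rw [hz]
      exact ⟨fun _ => zero_mem _, fun _ => zero_mem _⟩
    · rw [O_iff _ hz, hγ z, O_iff _ ((map_ne_zero_iff γ γ.injective).2 hz)]
      exact Iff.rfl
  rw [← h1]
  rfl

theorem dic_conj' (hC : Cov 2 κ R M x B Y) (E : IntermediateField R M) (W W' : Place κ M)
    (h : ∀ z ∈ E, W.ord z = W'.ord z) :
    ∃ γ : M ≃ₐ[R] M, (∀ z ∈ E, γ z = z) ∧ ∀ z, W'.ord z = W.ord (γ z) :=
  dic_conj hC E W W' fun z hz => by rw [h z hz]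

/-- a nontrivial element which fixes a place -/
theorem invol (hC : Cov 2 κ R M x B Y) (W : Place κ M) (c : M ≃ₐ[R] M) (hc : Fixes W c)
    (h1 : c ≠ 1) : (∃ e ∈ B, 0 < W.ord (algebraMap R M x - algebraMap κ M e)) ∧ W.ord Y = 1 ∧
      Y ≠ 0 ∧ c Y = -Y ∧ c ^ 2 = 1 ∧
      ∀ g : M ≃ₐ[R] M, Fixes W g → g = 1 ∨ g = c := by
  obtain ⟨hcY, e, he, hW, hWY⟩ := hC.fixed a_stab W c hc h1
  have hY0 := Y_ne hC W he hW
  have hcase : ∀ g : M ≃ₐ[R] M, g Y = Y ∨ g Y = -Y := by
    intro g
    obtain ⟨ζ, hζ, hgY⟩ := hC.actY hY0 g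
    have h1 : (ζ - 1) * (ζ + 1) = 0 := by linear_combination hζ
    rcases mul_eq_zero.1 h1 with h | h
    · left; rw [hgY, sub_eq_zero.1 h, map_one, one_mul]
    · right; rw [hgY, eq_neg_of_add_eq_zero_left h, map_neg, map_one, neg_one_mul]
  have hcY' : c Y = -Y := (hcase c).resolve_left hcY
  have hc2 : c ^ 2 = 1 := by
    refine hC.stabR a_stab W _ (hc.pow 2) Y hWY ?_
    rw [pow_two, AlgEquiv.mul_apply, hcY', map_neg, hcY', neg_neg]
  refine ⟨⟨e, he, hW⟩, hWY, hY0, hcY', hc2, fun g hg => ?_⟩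
  rcases hcase g with h | h
  · exact Or.inl (hC.stabR a_stab W g hg Y hWY h)
  · right
    have h2 : c * g = 1 := by
      refine hC.stabR a_stab W _ (hc.mul hg) Y hWY ?_
      rw [AlgEquiv.mul_apply, h, map_neg, hcY', neg_neg]
    have h3 : c * (c * g) = c * 1 := by rw [h2]
    rw [← mul_assoc, ← pow_two, hc2, one_mul, mul_one] at h3
    exact h3

/-- the involution acts by the parity of the order on the elements which it multiplies by a
constant -/
theorem sign (hC : Cov 2 κ R M x B Y) (W : Place κ M) (c : M ≃ₐ[R] M) (hc : Fixes W c)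
    (h1 : c ≠ 1) {z : M} (hz : z ≠ 0) {ζ : κ} (hcz : c z = algebraMap κ M ζ * z) :
    (Even (W.ord z) → ζ = 1) ∧ (Odd (W.ord z) → ζ = -1) := by
  obtain ⟨⟨e, he, hW⟩, hWY, hY0, hcY, hc2, -⟩ := invol hC W c hc h1
  -- `u = z / Y ^ n` is a unit
  obtain ⟨n, hn⟩ : ∃ n : ℤ, n = W.ord z := ⟨_, rfl⟩
  have hYn : Y ^ n ≠ 0 := zpow_ne_zero _ hY0
  obtain ⟨u, hu⟩ : ∃ u : M, u = z / Y ^ n := ⟨_, rfl⟩
  have hu0 : u ≠ 0 := by rw [hu]; exact div_ne_zero hz hYn
  have huord : W.ord u = 0 := by
    rw [hu, W.ord_div hz hYn, W.ord_zpow, hWY, ← hn]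
    ring
  -- `u = a + (positive order)`
  obtain ⟨a, ha⟩ := Pool.Agent.Y536.PS.res_const κ M (algebraMap R M x) hC.alg W u huord.ge
  have ha0 : a ≠ 0 := by
    rintro rfl
    rw [map_zero, sub_zero] at ha
    rcases ha with h | h
    · exact hu0 h
    · omega
  have hca : c (algebraMap κ M a) = algebraMap κ M a := Pool.Agent.Y748.PS.gal_const c a
  -- the constant `b` with `c u = b u`
  obtain ⟨b, hb⟩ : ∃ b : κ, b = ζ * (-1) ^ n := ⟨_, rfl⟩
  have hm : ((-1 : M) ^ n) * ((-1 : M) ^ n) = 1 := by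
    rw [← mul_zpow, neg_one_mul, neg_neg, one_zpow]
  have hcu : c u = algebraMap κ M b * u := by
    rw [hu, map_div₀, map_zpow₀, hcY, hcz, hb, map_mul, map_zpow₀, map_neg, map_one,
      neg_eq_neg_one_mul Y, mul_zpow]
    rw [div_eq_iff (mul_ne_zero (zpow_ne_zero _ (neg_ne_zero.2 one_ne_zero)) hYn)]
    have h5 : algebraMap κ M ζ * (-1 : M) ^ n * (z / Y ^ n) * ((-1 : M) ^ n * Y ^ n) =
        ((-1 : M) ^ n * (-1 : M) ^ n) * (algebraMap κ M ζ * (z / Y ^ n * Y ^ n)) := by ring
    rw [h5, hm, one_mul, div_mul_cancel₀ _ hYn]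
  have hb1 : b = 1 := by
    by_contra hb1
    have hb0 : algebraMap κ M (b - 1) ≠ 0 := (_root_.map_ne_zero _).2 (sub_ne_zero.2 hb1)
    have h3 : algebraMap κ M (b - 1) * u = (c u - algebraMap κ M a) - (u - algebraMap κ M a) := by
      rw [hcu, map_sub, map_one]
      ring
    have h4 : W.ord (algebraMap κ M (b - 1) * u) = 0 := by
      rw [W.ord_mul hb0 hu0, W.ord_const (sub_ne_zero.2 hb1), huord, add_zero]
    rcases ha with h | h
    · rw [h, hca, sub_self] at h3
      exact mul_ne_zero hb0 hu0 (by rw [h]; exact h3)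
    · have h5 : W.ord (c u - algebraMap κ M a) = W.ord (u - algebraMap κ M a) := by
        rw [← hc (u - algebraMap κ M a), map_sub, hca]
      have h6 : u - algebraMap κ M a ≠ 0 := by
        intro h0
        rw [h0, W.ord_zero] at h
        exact lt_irrefl _ h
      have h7 : c u - algebraMap κ M a ≠ 0 := by
        intro h0
        rw [h0, W.ord_zero] at h5
        omega
      have h8 := W.ord_sub h7 h6 (by rw [← h3]; exact mul_ne_zero hb0 hu0)
      rw [← h3, h4, h5, min_self] at h8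
      omega
  rw [hb1] at hb
  constructor
  · intro h
    rw [← hn] at h
    rw [h.neg_one_zpow, mul_one] at hb
    exact hb.symm
  · intro h
    rw [← hn] at h
    rw [h.neg_one_zpow, mul_neg, mul_one] at hb
    rw [hb, neg_neg]

/-- an element which is fixed by the involution has even order -/
theorem even_of_fix (hC : Cov 2 κ R M x B Y) (W : Place κ M) (c : M ≃ₐ[R] M) (hc : Fixes W c)
    (h1 : c ≠ 1) {z : M} (hz : z ≠ 0) (hcz : c z = z) : Even (W.ord z) := by
  rcases Int.even_or_odd (W.ord z) with h | h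
  · exact h
  · exfalso
    have h2 := (sign hC W c hc h1 hz (ζ := 1) (by rw [map_one, one_mul, hcz])).2 h
    have h3 : (2 : κ) = 0 := by linear_combination h2
    exact two_ne_zero h3

/-- signs -/
theorem sign' (hC : Cov 2 κ R M x B Y) (W : Place κ M) (c : M ≃ₐ[R] M) (hc : Fixes W c)
    (h1 : c ≠ 1) {z : M} (hz : z ≠ 0) (hcz : c z = z ∨ c z = -z) :
    (c z = z ↔ Even (W.ord z)) ∧ (c z = -z ↔ Odd (W.ord z)) := by
  have hzz : z ≠ -z := by
    intro h
    apply hz
    have h2 : (2 : M) * z = 0 := by linear_combination h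
    haveI : CharZero M := charZero_of_injective_algebraMap (algebraMap κ M).injective
    exact (mul_eq_zero.1 h2).resolve_left two_ne_zero
  have hodd : Odd (W.ord z) → c z = -z := by
    intro ho
    rcases hcz with h | h
    · exact absurd (even_of_fix hC W c hc h1 hz h) (Int.not_even_iff_odd.2 ho)
    · exact h
  have heven : Even (W.ord z) → c z = z := by
    intro he
    rcases hcz with h | h
    · exact h
    · have h2 := (sign hC W c hc h1 hz (ζ := -1) (by rw [map_neg, map_one, neg_one_mul, h])).1 he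
      have h3 : (2 : κ) = 0 := by linear_combination -h2
      exact absurd h3 two_ne_zero
  constructor
  · refine ⟨fun h => even_of_fix hC W c hc h1 hz h, heven⟩
  · refine ⟨fun h => ?_, hodd⟩
    rcases Int.even_or_odd (W.ord z) with h2 | h2
    · exact absurd ((heven h2).symm.trans h) hzz
    · exact h2

/-- a finite level which contains `E` and `Y` -/
theorem exists_big (hC : Cov 2 κ R M x B Y) (E : IntermediateField R M)
    (hE : FiniteDimensional R E) : ∃ N : IntermediateField R M, Lev 2 N ∧ Y ∈ N ∧ E ≤ N := by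
  classical
  haveI := hC.gal
  haveI := hE
  haveI : CharZero R := charZero_of_injective_algebraMap (algebraMap κ R).injective
  obtain ⟨α, hα⟩ := Field.exists_primitive_element R E
  obtain ⟨N, hN, hsN⟩ := Pool.Agent.Y31.PS.exists_lev hC.pow {Y, (α : M)}
  refine ⟨N, hN, hsN Y (by simp), ?_⟩
  intro w hw
  have h1 : (⟨w, hw⟩ : E) ∈ IntermediateField.adjoin R {α} := by rw [hα]; trivial
  have h2 : (IntermediateField.adjoin R {α}).map E.val = IntermediateField.adjoin R {(α : M)} := by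
    rw [IntermediateField.adjoin_map, Set.image_singleton]
    rfl
  have h3 : w ∈ IntermediateField.adjoin R {(α : M)} := by
    rw [← h2]
    exact ⟨⟨w, hw⟩, h1, rfl⟩
  have h4 : IntermediateField.adjoin R {(α : M)} ≤ N := by
    rw [IntermediateField.adjoin_le_iff, Set.singleton_subset_iff]
    exact hsN _ (by simp)
  exact h4 h3

/-- the ramification index of `M` over `E` at a place -/
theorem dic_over (hC : Cov 2 κ R M x B Y) (E : IntermediateField R M)
    (hE : FiniteDimensional R E) (W : Place κ M) :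
    ∃ (v : Place κ E) (e : ℕ), (e = 1 ∨ e = 2) ∧ (∀ z : E, W.ord (z : M) = e * v.ord z) ∧
      (e = 2 ↔ ∃ c : M ≃ₐ[R] M, c ≠ 1 ∧ Fixes W c ∧ ∀ z ∈ E, c z = z) := by
  classical
  haveI := hC.gal
  haveI := hE
  haveI : IsFF κ E := hC.rat.isFF (N := E)
  haveI : IsScalarTower κ E M := IsScalarTower.of_algebraMap_eq fun c => by
    rw [IsScalarTower.algebraMap_apply κ R M, IsScalarTower.algebraMap_apply κ R E]
    rfl
  -- the place of `E`
  obtain ⟨e, v, he0, hv⟩ : ∃ (e : ℕ) (v : Place κ E), Over W v e := by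
    apply exists_over
    rcases hC.loc' W with ⟨b, hb, h1, -⟩ | ⟨b, hb, h1⟩ | h1
    · refine ⟨algebraMap R E (x - algebraMap κ R b), ?_⟩
      rw [← IsScalarTower.algebraMap_apply R E M, map_sub, ← IsScalarTower.algebraMap_apply κ R M,
        h1]
      norm_num
    · refine ⟨algebraMap R E (x - algebraMap κ R b), ?_⟩
      rw [← IsScalarTower.algebraMap_apply R E M, map_sub, ← IsScalarTower.algebraMap_apply κ R M,
        h1]
      norm_num
    · refine ⟨algebraMap R E x, ?_⟩
      rw [← IsScalarTower.algebraMap_apply R E M, h1]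
      norm_num
  have hv' : ∀ z : E, W.ord (z : M) = e * v.ord z := fun z => hv z
  have he2 : e = 1 ∨ e = 2 := by
    have key : ∀ (r : R) (n : ℤ), W.ord (algebraMap R M r) = n → ∃ j : ℤ, n = e * j := by
      intro r n hn
      refine ⟨v.ord (algebraMap R E r), ?_⟩
      rw [← hv', ← hn]
      rfl
    rcases hC.loc' W with ⟨b, hb, h1, -⟩ | ⟨b, hb, h1⟩ | h1
    · obtain ⟨j, hj⟩ := key (x - algebraMap κ R b) 2 (by
        rw [map_sub, ← IsScalarTower.algebraMap_apply κ R M, h1]
        norm_num)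
      have h2 : (e : ℤ) ∣ 2 := ⟨j, hj⟩
      have h3 : e ∣ 2 := by exact_mod_cast h2
      exact (Nat.dvd_prime Nat.prime_two).1 h3
    · obtain ⟨j, hj⟩ := key (x - algebraMap κ R b) 1 (by
        rw [map_sub, ← IsScalarTower.algebraMap_apply κ R M, h1])
      have h2 : (e : ℤ) ∣ 1 := ⟨j, hj⟩
      have h3 : e ∣ 1 := by exact_mod_cast h2
      exact Or.inl (Nat.dvd_one.1 h3)
    · obtain ⟨j, hj⟩ := key x (-1) h1
      have h2 : (e : ℤ) ∣ 1 := ⟨-j, by linarith⟩
      have h3 : e ∣ 1 := by exact_mod_cast h2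
      exact Or.inl (Nat.dvd_one.1 h3)
  refine ⟨v, e, he2, hv', ?_⟩
  constructor
  · -- ramified: counting
    intro he
    by_contra hno
    obtain ⟨N, hN, hYN, hEN⟩ := exists_big hC E hE
    haveI := hN.fin
    haveI := hN.gal
    obtain ⟨w, hw⟩ := (a_res 2 κ R M x B Y hC N hN.fin hYN).1 W
    obtain ⟨E', hE'⟩ : ∃ E' : IntermediateField R N, E' = E.comap N.val := ⟨_, rfl⟩
    have hmE : ∀ y : N, y ∈ E' ↔ (y : M) ∈ E := by intro y; rw [hE']; rfl
    haveI : IsFF κ N := hC.rat.isFF (N := N)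
    haveI : IsFF κ E' := hC.rat.isFF (N := E')
    haveI : IsScalarTower κ E' N := IsScalarTower.of_algebraMap_eq fun c => by
      rw [IsScalarTower.algebraMap_apply κ R N, IsScalarTower.algebraMap_apply κ R E']
      rfl
    -- the place of `E'`
    obtain ⟨e', v', hov⟩ : ∃ (e' : ℕ) (v' : Place κ E'), Over w v' e' := by
      apply exists_over
      obtain ⟨t, ht0, ht⟩ := v.surj
      refine ⟨⟨⟨t, hEN t.2⟩, (hmE _).2 t.2⟩, ?_⟩
      have h1 := hw ⟨t, hEN t.2⟩
      change w.ord ⟨t, hEN t.2⟩ ≠ 0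
      rw [← h1]
      change W.ord (t : M) ≠ 0
      rw [hv', ht, he]
      norm_num
    obtain ⟨S, T, hS1, hS2, hS3⟩ := exists_places_over (k := κ) (K' := N) v'
    -- the orbit
    have hinj : Function.Injective (fun g : N ≃ₐ[E'] N => w.comp (g.restrictScalars κ)) := by
      intro g g' hgg
      by_contra hne
      apply hno
      -- `g * g'⁻¹` fixes `w`
      obtain ⟨γ, hγ⟩ : ∃ γ : M ≃ₐ[R] M, ∀ z : N, ((γ (z : M)) : M) = ((g (g'⁻¹ z) : N) : M) := by
        obtain ⟨γ, hγ⟩ := AlgEquiv.restrictNormalHom_surjective (F := R) (K₁ := N) M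
          ((g * g'⁻¹).restrictScalars R)
        refine ⟨γ, fun z => ?_⟩
        have h1 := AlgEquiv.restrictNormal_commutes γ N z
        have h2 : γ.restrictNormal N = (g * g'⁻¹).restrictScalars R := hγ
        rw [h2] at h1
        exact h1.symm
      have hgw : ∀ z : N, w.ord (g (g'⁻¹ z)) = w.ord z := by
        intro z
        have h1 := congrArg (fun P : Place κ N => P.ord (g'⁻¹ z)) hgg
        change w.ord (g (g'⁻¹ z)) = w.ord (g' (g'⁻¹ z)) at h1
        rw [h1]
        congr 1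
        exact g'.apply_symm_apply z
      let W₁ : Place κ M := Place.comapEquiv W (γ : M ≃+* M) (RingEquiv.refl κ) (fun b => by
        exact Pool.Agent.Y748.PS.gal_const γ b)
      have hW₁ : ∀ z, W₁.ord z = W.ord (γ z) := fun z => rfl
      obtain ⟨ρ, hρN, hρ⟩ := dic_conj' hC N W W₁ (fun z hz => by
        rw [hW₁]
        have h1 := hγ ⟨z, hz⟩
        have h2 := hgw ⟨z, hz⟩
        rw [← hw, ← hw, ← h1] at h2
        exact h2.symm)
      -- `W (γ z) = W (ρ z)`
      refine ⟨γ * ρ⁻¹, ?_, ?_, ?_⟩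
      · intro h1
        apply hne
        have h2 : γ = ρ := by
          rw [← mul_inv_eq_one]
          exact h1
        have h3 : g * g'⁻¹ = 1 := by
          ext z
          have h4 := hγ z
          rw [h2, hρN z z.2] at h4
          exact h4.symm
        exact mul_inv_eq_one.1 h3
      · intro z
        have h1 := hρ (ρ⁻¹ z)
        rw [hW₁] at h1
        have h2 : ρ (ρ⁻¹ z) = z := ρ.apply_symm_apply z
        rw [h2] at h1
        exact h1
      · intro z hz
        have h0 : ρ z = z := hρN z (hEN hz)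
        have h1 : ρ⁻¹ z = z := by
          have h2 : ρ⁻¹ (ρ z) = z := ρ.symm_apply_apply z
          rwa [h0] at h2
        rw [AlgEquiv.mul_apply, h1]
        have h2 := hγ ⟨z, hEN hz⟩
        rw [h2]
        have h3 : (⟨z, hEN hz⟩ : N) ∈ E' := (hmE _).2 hz
        have h4 : g'⁻¹ (⟨z, hEN hz⟩ : N) = ⟨z, hEN hz⟩ := g'⁻¹.commutes ⟨_, h3⟩
        have h5 : g (⟨z, hEN hz⟩ : N) = ⟨z, hEN hz⟩ := g.commutes ⟨_, h3⟩
        rw [h4, h5]
    have hmem : ∀ g : N ≃ₐ[E'] N, w.comp (g.restrictScalars κ) ∈ S := by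
      intro g
      refine hS1 _ e' ⟨hov.1, fun f => ?_⟩
      rw [Place.comp_ord, ← hov.2]
      congr 1
      exact g.commutes f
    haveI : Fintype (N ≃ₐ[E'] N) := Fintype.ofFinite _
    have hcard : Module.finrank E' N ≤ S.card := by
      rw [← IsGalois.card_aut_eq_finrank, Nat.card_eq_fintype_card, ← Finset.card_univ]
      exact Finset.card_le_card_of_injOn _ (fun g _ => hmem g) hinj.injOn
    have hT : T w = 1 := by
      by_contra hTw
      have hwS : w ∈ S := hS1 w e' hov
      have h1 : ∀ w' ∈ S, 1 ≤ T w' := fun w' hw' => (hS2 w' hw').choose_spec.choose_spec.2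
      have h2 : 2 ≤ T w := by
        have := h1 w hwS
        omega
      have h3 : S.card < ∑ w' ∈ S, T w' := by
        rw [Finset.card_eq_sum_ones]
        exact Finset.sum_lt_sum (fun i hi => h1 i hi) ⟨w, hwS, h2⟩
      omega
    obtain ⟨e'', hov'', hT2, -⟩ := hS2 w (hS1 w e' hov)
    have hee : e'' = e' := hov''.unique hov
    have he1 : e' = 1 := by
      rw [hT] at hT2
      rw [← hee]
      exact Nat.eq_one_of_mul_eq_one_right hT2.symm
    -- contradiction
    obtain ⟨t, ht0, ht⟩ := v'.surj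
    have h1 := hov.2 t
    rw [ht, he1] at h1
    have h2 := hw (t : N)
    have h3 : ((t : N) : M) ∈ E := (hmE _).1 t.2
    have h4 := hv' ⟨_, h3⟩
    change W.ord ((t : N) : M) = _ at h4
    rw [h4, he] at h2
    have h5 : w.ord (algebraMap E' N t) = w.ord (t : N) := rfl
    rw [h5] at h1
    rw [h1] at h2
    push_cast at h2
    omega
  · rintro ⟨c, hc1, hcW, hcE⟩
    rcases he2 with he | he
    · exfalso
      obtain ⟨t, ht0, ht⟩ := v.surj
      have h1 := hv' t
      rw [ht, he] at h1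
      have h2 := even_of_fix hC W c hcW hc1 (z := (t : M)) (fun h0 => ht0 (Subtype.ext h0))
        (hcE _ t.2)
      rw [h1] at h2
      exact absurd h2 (by decide)
    · exact he

/-- there is a place of `M` above every place of `E` -/
theorem dic_above (hC : Cov 2 κ R M x B Y) (E : IntermediateField R M)
    (hE : FiniteDimensional R E) (v : Place κ E) :
    ∃ (W : Place κ M) (e : ℕ), (e = 1 ∨ e = 2) ∧ (∀ z : E, W.ord (z : M) = e * v.ord z) ∧
      (e = 2 ↔ ∃ c : M ≃ₐ[R] M, c ≠ 1 ∧ Fixes W c ∧ ∀ z ∈ E, c z = z) := by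
  classical
  haveI := hC.gal
  haveI := hE
  obtain ⟨V', hV'⟩ := a_extv E M v.O
  have hmem : ∀ z : E, (z : M) ∈ V' ↔ z ∈ v.O := by
    intro z
    rw [← hV']
    exact Iff.rfl
  obtain ⟨W, hW, -⟩ := hC.loc V' (fun c => by
    have h1 : algebraMap κ E c ∈ v.O := v.reg_const c
    exact (hmem _).2 h1) (by
    intro h
    apply Place.O_ne_top v
    rw [eq_top_iff]
    intro z _
    rw [← hmem, h]
    trivial)
  obtain ⟨v', e, he, hv', hiff⟩ := dic_over hC E hE W
  have hvv : v' = v := by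
    apply Place.ext_O
    ext z
    rw [← hmem, ← hW]
    by_cases hz : z = 0
    · rw [hz]
      exact ⟨fun _ => zero_mem _, fun _ => zero_mem _⟩
    · have hz' : (z : M) ≠ 0 := fun h0 => hz (Subtype.ext h0)
      rw [O_iff _ hz, O_iff _ hz', hv']
      have h1 : (0 : ℤ) < e := by rcases he with rfl | rfl <;> norm_num
      exact (mul_nonneg_iff_of_pos_left h1).symm
  rw [hvv] at hv'
  exact ⟨W, e, he, hv', hiff⟩

end

end Pool.Agent.Zk12.TR
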