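import Mathlib
import Pool.Agent.Zk12.TR.Dic

/-!
# The elements which are fixed by the conjugates of an involution
-/

set_option autoImplicit false
set_option linter.all false

open Polynomial FF Pool.Agent.Y157.PS

namespace Pool.Agent.Zk12.TR

open Pool.Agent.Y158.GR Pool.Agent.Zk12

section

variable {k κ R M : Type} [Field k] [Field κ] [Algebra k κ] [IsAlgClosed κ] [CharZero κ] [Field R]
  [Field M] [Algebra κ R] [Algebra R M] [Algebra κ M] [IsScalarTower κ R M] {x : R}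
  {B : Finset κ} {Y : M}

/-- the elements which are fixed by all conjugates of `c` under `Gal(M/K)` -/
def LK (K : IntermediateField R M) (c : M ≃ₐ[R] M) : IntermediateField R M where
  carrier := {z | ∀ γ : M ≃ₐ[R] M, (∀ y ∈ K, γ y = y) → c (γ z) = γ z}
  mul_mem' := fun ha hb γ hγ => by rw [map_mul, map_mul, ha γ hγ, hb γ hγ]
  one_mem' := fun γ hγ => by rw [map_one, map_one]
  add_mem' := fun ha hb γ hγ => by rw [map_add, map_add, ha γ hγ, hb γ hγ]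
  zero_mem' := fun γ hγ => by rw [map_zero, map_zero]
  algebraMap_mem' := fun r γ hγ => by rw [γ.commutes, c.commutes]
  inv_mem' := fun a ha γ hγ => by rw [map_inv₀, map_inv₀, ha γ hγ]

theorem mem_LK {K : IntermediateField R M} {c : M ≃ₐ[R] M} {z : M} : z ∈ LK K c ↔
    ∀ γ : M ≃ₐ[R] M, (∀ y ∈ K, γ y = y) → c (γ z) = γ z := Iff.rfl

theorem inv_fix {K : IntermediateField R M} {γ : M ≃ₐ[R] M} (h : ∀ y ∈ K, γ y = y) :
    ∀ y ∈ K, γ⁻¹ y = y := by
  intro y hy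
  have h1 : γ⁻¹ (γ y) = y := inv_c γ y
  rwa [h y hy] at h1

theorem LK_fix {K : IntermediateField R M} {c : M ≃ₐ[R] M} {z : M} (h : z ∈ LK K c) : c z = z :=
  h 1 fun y _ => rfl

theorem le_LK {K : IntermediateField R M} {c : M ≃ₐ[R] M} (h : ∀ y ∈ K, c y = y) :
    K ≤ LK K c := fun z hz γ hγ => by rw [hγ z hz, h z hz]

theorem LK_gal {K : IntermediateField R M} {c : M ≃ₐ[R] M} {γ : M ≃ₐ[R] M}
    (hγ : ∀ y ∈ K, γ y = y) {z : M} (hz : z ∈ LK K c) : γ z ∈ LK K c := by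
  intro γ' hγ'
  exact hz (γ' * γ) fun y hy => by rw [AlgEquiv.mul_apply, hγ y hy, hγ' y hy]

theorem LK_mono {K K' : IntermediateField R M} (h : K ≤ K') (c : M ≃ₐ[R] M) :
    LK K c ≤ LK K' c := fun z hz γ hγ => hz γ fun y hy => hγ y (h hy)

/-- conjugate involutions -/
theorem conj_invol (hC : Cov 2 κ R M x B Y) {W : Place κ M} {c : M ≃ₐ[R] M} (hcW : Fixes W c)
    (hc1 : c ≠ 1) {W' : Place κ M} {c' : M ≃ₐ[R] M} (hcW' : Fixes W' c') (hc' : c' ≠ 1)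
    {γ : M ≃ₐ[R] M} (hγ : ∀ z, W'.ord z = W.ord (γ z)) (z : M) : c (γ z) = γ (c' z) := by
  have h1 : Fixes W (γ * c' * γ⁻¹ : M ≃ₐ[R] M) := by
    intro y
    change W.ord (γ (c' (γ⁻¹ y))) = W.ord y
    rw [← hγ, hcW', hγ, c_inv]
  have h2 : γ * c' * γ⁻¹ ≠ 1 := by
    intro h0
    apply hc'
    have h3 : γ⁻¹ * (γ * c' * γ⁻¹) * γ = γ⁻¹ * 1 * γ := by rw [h0]
    rw [mul_one, inv_mul_cancel] at h3
    rw [← h3]
    group
  obtain ⟨-, -, -, -, -, hu⟩ := invol hC W c hcW hc1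
  have h3 : γ * c' * γ⁻¹ = c := (hu _ h1).resolve_left h2
  rw [← h3]
  change γ (c' (γ⁻¹ (γ z))) = _
  rw [inv_c]

/-- the involution at a place which agrees with `W` on `K` -/
theorem LK_conj (hC : Cov 2 κ R M x B Y) {K : IntermediateField R M} {W : Place κ M}
    {c : M ≃ₐ[R] M} (hcW : Fixes W c) (hc1 : c ≠ 1) {W' : Place κ M} {c' : M ≃ₐ[R] M}
    (hcW' : Fixes W' c') (hc' : c' ≠ 1) (h : ∀ z ∈ K, W.ord z = W'.ord z) {z : M}
    (hz : z ∈ LK K c) : c' z = z := by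
  obtain ⟨γ, hγK, hγ⟩ := dic_conj' hC K W W' h
  have h4 := hz γ hγK
  rw [conj_invol hC hcW hc1 hcW' hc' hγ] at h4
  exact γ.injective h4

/-- membership in `LK` through the conjugate involutions -/
theorem mem_LK_of (hC : Cov 2 κ R M x B Y) {K : IntermediateField R M} {W : Place κ M}
    {c : M ≃ₐ[R] M} (hcW : Fixes W c) {z : M}
    (h : ∀ (W' : Place κ M) (c' : M ≃ₐ[R] M), Fixes W' c' → (∀ y ∈ LK K c, c' y = y) → c' z = z) :
    z ∈ LK K c := by
  intro γ hγ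
  let W' : Place κ M := Place.comapEquiv W (γ : M ≃+* M) (RingEquiv.refl κ) (fun b =>
    Pool.Agent.Y748.PS.gal_const γ b)
  have hW' : ∀ z, W'.ord z = W.ord (γ z) := fun z => rfl
  have h1 := h W' (γ⁻¹ * c * γ) (fun y => by
    rw [hW', hW']
    change W.ord (γ (γ⁻¹ (c (γ y)))) = _
    rw [c_inv, hcW]) (fun y hy => by
    change γ⁻¹ (c (γ y)) = y
    rw [hy γ hγ, inv_c])
  change γ⁻¹ (c (γ z)) = z at h1
  have h2 := congrArg γ h1
  rwa [c_inv] at h2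

/-- `LK` is stable under semilinear automorphisms which commute with `c` -/
theorem LK_sa (hR : RatF κ x) {K : IntermediateField R M} {c : M ≃ₐ[R] M} {φ : RingAut M}
    {σ : κ ≃ₐ[k] κ} (hφ : SA k x φ σ) (hφc : ∀ z, φ (c z) = c (φ z)) (hφK : ∀ z, φ z ∈ K ↔ z ∈ K)
    {z : M} : φ z ∈ LK K c ↔ z ∈ LK K c := by
  have key : ∀ (φ : RingAut M) (σ : κ ≃ₐ[k] κ), SA k x φ σ → (∀ z, φ (c z) = c (φ z)) →
      (∀ z, φ z ∈ K ↔ z ∈ K) → ∀ z, z ∈ LK K c → φ z ∈ LK K c := by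
    intro φ σ hφ hφc hφK z hz γ hγ
    obtain ⟨η, hη⟩ := conjR hR φ (σ : κ ≃+* κ) hφ.const hφ.fixx γ
    have hη' : ∀ z, φ (η z) = γ (φ z) := fun z => by
      rw [hη]
      exact φ.apply_symm_apply _
    have h1 := hz η fun y hy => by
      apply φ.injective
      rw [hη', hγ _ ((hφK y).2 hy)]
    rw [← hη', ← hφc, h1]
  refine ⟨fun h => ?_, key φ σ hφ hφc hφK z⟩
  have e1 : ∀ z, (φ⁻¹ : RingAut M) (φ z) = z := fun z => φ.symm_apply_apply z
  have e2 : ∀ z, φ ((φ⁻¹ : RingAut M) z) = z := fun z => φ.apply_symm_apply z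
  have h1 := key φ⁻¹ σ⁻¹ hφ.inv (fun z => by
    apply φ.injective
    rw [e2, hφc, e2]) (fun z => by rw [← hφK, e2]) _ h
  rwa [e1] at h1

end

end Pool.Agent.Zk12.TR
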