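import Mathlib
import Pool.Agent.Zk12.TR.LK

/-!
# Finite levels which are stable under all semilinear automorphisms; periods of places
-/

set_option autoImplicit false
set_option linter.all false

open Polynomial FF Pool.Agent.Y157.PS

namespace Pool.Agent.Zk12.TR

open Pool.Agent.Y158.GR Pool.Agent.Zk12

section

variable {k κ R M : Type} [Field k] [Field κ] [Algebra k κ] [IsAlgClosed κ] [CharZero κ] [Field R]
  [Field M] [Algebra κ R] [Algebra R M] [Algebra κ M] [IsScalarTower κ R M] {x : R}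
  {B : Finset κ} {Y : M}

/-- stable finite levels -/
theorem exists_stable (k : Type) [Field k] [Algebra k κ] (hk : Algebra.IsAlgebraic k κ)
    (hC : Cov 2 κ R M x B Y) (Z : Finset M) :
    ∃ N : IntermediateField R M, Lev 2 N ∧ (∀ z ∈ Z, z ∈ N) ∧
      ∀ ψ ∈ GG (κ := κ) k M x, ∀ z, ψ z ∈ N ↔ z ∈ N := by
  classical
  haveI := hC.gal
  have hR := hC.rat
  haveI : CharZero R := charZero_of_injective_algebraMap (algebraMap κ R).injective
  have hM : Algebra.IsAlgebraic R M := inferInstance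
  have h1 : ∀ h0 : M, ∃ T : Set M, T.Finite ∧ h0 ∈ T ∧
      ∀ ψ ∈ GG (κ := κ) k M x, ∀ w ∈ T, ψ w ∈ T := by
    intro h0
    obtain ⟨T, hT, hm, hs⟩ := Pool.Agent.Y748.PS.exists_orbit (k := k) hk hR hM h0
    refine ⟨T, hT, hm, ?_⟩
    rintro ψ ⟨σ, h1, h2⟩ w hw
    exact hs ψ (fun c => by rw [h1, AlgEquiv.commutes]) h2 w hw
  choose T0 hT0 hm0 hs0 using h1
  obtain ⟨T, hTe⟩ : ∃ T : Set M, T = ⋃ z ∈ Z, T0 z := ⟨_, rfl⟩
  have hT : T.Finite := by
    rw [hTe]
    exact Set.Finite.biUnion Z.finite_toSet fun z _ => hT0 z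
  have hm : ∀ z ∈ Z, z ∈ T := fun z hz => by
    rw [hTe]
    exact Set.mem_biUnion hz (hm0 z)
  have hs' : ∀ ψ ∈ GG (κ := κ) k M x, ∀ w ∈ T, ψ w ∈ T := by
    intro ψ hψ w hw
    rw [hTe] at hw ⊢
    obtain ⟨z, hz, hwz⟩ := Set.mem_iUnion₂.1 hw
    exact Set.mem_iUnion₂.2 ⟨z, hz, hs0 z ψ hψ w hwz⟩
  haveI : Finite T := hT
  set N := IntermediateField.adjoin R T with hN
  haveI hfin : FiniteDimensional R N :=
    IntermediateField.finiteDimensional_adjoin fun w _ => (hM.isAlgebraic w).isIntegral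
  have hnorm : Normal R N := by
    rw [IntermediateField.normal_iff_forall_map_le']
    intro g
    rw [hN, IntermediateField.adjoin_map, IntermediateField.adjoin_le_iff]
    rintro _ ⟨w, hw, rfl⟩
    exact IntermediateField.subset_adjoin R T (hs' _ (gal_GG g) w hw)
  haveI : Algebra.IsSeparable R N := inferInstance
  have hgal : IsGalois R N := ⟨⟩
  have hLev : Lev 2 N := Pool.Agent.Y748.PS.lev_of_galois hC.pow N hfin hgal
  have hNs : ∀ ψ ∈ GG (κ := κ) k M x, ∀ z ∈ N, ψ z ∈ N := by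
    intro ψ hψ z hz
    induction hz using IntermediateField.adjoin_induction with
    | mem y hy => exact IntermediateField.subset_adjoin R T (hs' ψ hψ y hy)
    | algebraMap c =>
      obtain ⟨σ, hσ⟩ := mem_GG.1 hψ
      obtain ⟨c', hc'⟩ := hσ.mapR hR c
      rw [hc']
      exact N.algebraMap_mem c'
    | add a b _ _ ha hb => rw [map_add]; exact add_mem ha hb
    | inv a _ ha => rw [map_inv₀]; exact inv_mem ha
    | mul a b _ _ ha hb => rw [map_mul]; exact mul_mem ha hb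
  refine ⟨N, hLev, fun z hz => IntermediateField.subset_adjoin R T (hm z hz), fun ψ hψ z => ?_⟩
  refine ⟨fun h => ?_, hNs ψ hψ z⟩
  have h1 := hNs _ (inv_mem hψ) _ h
  have e : (ψ⁻¹ : RingAut M) (ψ z) = z := ψ.symm_apply_apply z
  rwa [e] at h1

/-- a finite extension is generated by one element -/
theorem exists_gen (hC : Cov 2 κ R M x B Y) (E : IntermediateField R M)
    (hE : FiniteDimensional R E) : ∃ α ∈ E, ∀ N : IntermediateField R M, α ∈ N → E ≤ N := by
  haveI := hC.gal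
  haveI := hE
  haveI : CharZero R := charZero_of_injective_algebraMap (algebraMap κ R).injective
  obtain ⟨α, hα⟩ := Field.exists_primitive_element R E
  refine ⟨α, α.2, fun N hN w hw => ?_⟩
  have h1 : (⟨w, hw⟩ : E) ∈ IntermediateField.adjoin R {α} := by rw [hα]; trivial
  have h2 : (IntermediateField.adjoin R {α}).map E.val = IntermediateField.adjoin R {(α : M)} := by
    rw [IntermediateField.adjoin_map, Set.image_singleton]
    rfl
  have h3 : w ∈ IntermediateField.adjoin R {(α : M)} := by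
    rw [← h2]
    exact ⟨⟨w, hw⟩, h1, rfl⟩
  have h4 : IntermediateField.adjoin R {(α : M)} ≤ N := by
    rw [IntermediateField.adjoin_le_iff, Set.singleton_subset_iff]
    exact hN
  exact h4 h3

/-- the powers of `2` as periods of the elements of the Galois group on a level -/
theorem lev_period {N : IntermediateField R M} (hN : Lev 2 N) :
    ∃ m : ℕ, ∀ (g : M ≃ₐ[R] M), ∀ z ∈ N, (g ^ 2 ^ m) z = z := by
  haveI := hN.fin
  haveI := hN.gal
  obtain ⟨m, hm⟩ := hN.card
  refine ⟨m, fun g z hz => ?_⟩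
  have h1 : (AlgEquiv.restrictNormalHom N g) ^ (2 ^ m) = 1 := by
    rw [← hm, ← IsGalois.card_aut_eq_finrank R N]
    exact pow_card_eq_one'
  rw [← map_pow] at h1
  have h2 := AlgEquiv.restrictNormal_commutes (g ^ 2 ^ m) N ⟨z, hz⟩
  have h3 : (g ^ 2 ^ m).restrictNormal N = 1 := h1
  rw [h3] at h2
  exact h2.symm

theorem pow_apply_mul (φ : RingAut M) (a b : ℕ) (z : M) :
    (φ ^ (a * b) : RingAut M) z = ((φ ^ a : RingAut M) ^ b : RingAut M) z := by rw [pow_mul]

/-- **periods**: the places above a rational branch point have `2`-power periods under a semilinear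
automorphism, on every finite level -/
theorem place_period (hk : Algebra.IsAlgebraic k κ) (hC : Cov 2 κ R M x B Y) {φ : RingAut M}
    {σ : κ ≃ₐ[k] κ} (hφ : SA k x φ σ) (hσB : ∀ e ∈ B, σ e = e) (Z : Finset M) :
    ∃ (N : IntermediateField R M) (s : ℕ), Lev 2 N ∧ (∀ z ∈ Z, z ∈ N) ∧
      ∀ W : Place κ M, (∃ e ∈ B, 0 < W.ord (algebraMap R M x - algebraMap κ M e)) →
        ∀ z ∈ N, W.ord ((φ ^ 2 ^ s : RingAut M) z) = W.ord z := by
  classical
  haveI := hC.gal
  obtain ⟨N, hN, hZN, hst⟩ := exists_stable k hk hC Z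
  have hμ : ∀ c : κ, c ^ 2 = 1 → σ c = c := by
    intro c hc
    have h1 : (c - 1) * (c + 1) = 0 := by linear_combination hc
    rcases mul_eq_zero.1 h1 with h | h
    · rw [sub_eq_zero.1 h, map_one]
    · rw [eq_neg_of_add_eq_zero_left h, map_neg, map_one]
  obtain ⟨n, hn⟩ := commute_pow hC hφ hσB hμ hN (hst φ (mem_GG.2 ⟨σ, hφ⟩))
  obtain ⟨m, hm⟩ := lev_period hN
  refine ⟨N, n + m, hN, hZN, ?_⟩
  rintro W ⟨e, he, hW⟩ z hz
  obtain ⟨ψ, hψ⟩ : ∃ ψ : RingAut M, ψ = φ ^ 2 ^ n := ⟨_, rfl⟩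
  have hψGG : ψ ∈ GG (κ := κ) k M x := by
    rw [hψ]
    exact pow_mem (mem_GG.2 ⟨σ, hφ⟩) _
  obtain ⟨τ, hτ⟩ := mem_GG.1 hψGG
  have hτe : τ e = e := by
    have h1 : ∀ j : ℕ, (φ ^ j : RingAut M) (algebraMap κ M e) = algebraMap κ M e := by
      intro j
      induction j with
      | zero => rfl
      | succ j ih =>
        rw [pow_succ]
        change (φ ^ j : RingAut M) (φ (algebraMap κ M e)) = _
        rw [hφ.const, hσB e he, ih]
    apply (algebraMap κ M).injective
    rw [← hτ.const, hψ, h1]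
  let W₁ : Place κ M := Place.comapEquiv W ψ (τ : κ ≃+* κ) hτ.const
  have hW₁ : ∀ z, W₁.ord z = W.ord (ψ z) := fun z => rfl
  have hW₁e : 0 < W₁.ord (algebraMap R M x - algebraMap κ M e) := by
    rw [hW₁, map_sub, hτ.fixx, hτ.const, hτe]
    exact hW
  have htr := trace_eq hC.rat e hW hW₁e
  obtain ⟨g, -, hg⟩ := dic_conj hC ⊥ W W₁ (by
    intro z hz
    obtain ⟨r, rfl⟩ := IntermediateField.mem_bot.1 hz
    by_cases h0 : r = 0
    · rw [h0, map_zero, W.ord_zero, W₁.ord_zero]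
    have h0' : algebraMap R M r ≠ 0 := (_root_.map_ne_zero _).2 h0
    rw [← O_iff W h0', ← O_iff W₁ h0']
    have h1 : r ∈ W.O.comap (algebraMap R M) ↔ r ∈ W₁.O.comap (algebraMap R M) := by rw [htr]
    exact h1)
  have hcomm : ∀ z ∈ N, ψ (g z) = g (ψ z) := by
    intro z hz
    rw [hψ]
    exact hn g z hz
  have hgN : ∀ z ∈ N, g z ∈ N := fun z hz => (hst _ (gal_GG g) z).2 hz
  have hψN : ∀ z ∈ N, ψ z ∈ N := fun z hz => (hst _ hψGG z).2 hz
  have hψj : ∀ (j : ℕ), ∀ z ∈ N, (ψ ^ j : RingAut M) z ∈ N ∧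
      (ψ ^ j : RingAut M) (g z) = g ((ψ ^ j : RingAut M) z) := by
    intro j
    induction j with
    | zero => exact fun z hz => ⟨hz, rfl⟩
    | succ j ih =>
      intro z hz
      obtain ⟨h1, h2⟩ := ih z hz
      rw [pow_succ']
      change ψ ((ψ ^ j : RingAut M) z) ∈ N ∧ ψ ((ψ ^ j : RingAut M) (g z)) =
        g (ψ ((ψ ^ j : RingAut M) z))
      exact ⟨hψN _ h1, by rw [h2, hcomm _ h1]⟩
  have key : ∀ (j : ℕ), ∀ z ∈ N, W.ord ((ψ ^ j : RingAut M) z) = W.ord ((g ^ j) z) := by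
    intro j
    induction j with
    | zero => exact fun z hz => rfl
    | succ j ih =>
      intro z hz
      rw [pow_succ', pow_succ]
      change W.ord (ψ ((ψ ^ j : RingAut M) z)) = W.ord ((g ^ j) (g z))
      rw [← hW₁, hg, ← (hψj j z hz).2, ih _ (hgN z hz)]
  have h1 := key (2 ^ m) z hz
  rw [hm g z hz] at h1
  rw [← h1, hψ, pow_add, pow_mul]

end

end Pool.Agent.Zk12.TR
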