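import Mathlib
import Pool.Agent.Zk12.TR.Stab

/-!
# The compactness argument
-/

set_option autoImplicit false
set_option linter.all false

open Polynomial FF Pool.Agent.Y157.PS

namespace Pool.Agent.Zk12.TR

open Pool.Agent.Y158.GR Pool.Agent.Zk12

theorem eval_nhds {R M : Type} [Field R] [Field M] [Algebra R M] [Algebra.IsAlgebraic R M] (w : M)
    (g : M ≃ₐ[R] M) : {e : M ≃ₐ[R] M | e w = g w} ∈ nhds g := by
  have h1 : {e : M ≃ₐ[R] M | e w = w} ∈ nhds (1 : M ≃ₐ[R] M) := by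
    rw [krullTopology_mem_nhds_one_iff]
    refine ⟨IntermediateField.adjoin R {w}, ?_, ?_⟩
    · exact IntermediateField.adjoin.finiteDimensional (Algebra.IsIntegral.isIntegral _)
    · intro e he
      exact (IntermediateField.mem_fixingSubgroup_iff _ _).1 he _ (IntermediateField.mem_adjoin_simple_self R _)
  have h2 : Filter.Tendsto (fun e : M ≃ₐ[R] M => g⁻¹ * e) (nhds g) (nhds (g⁻¹ * g)) :=
    (continuous_const_mul g⁻¹).tendsto g
  rw [inv_mul_cancel] at h2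
  refine Filter.mem_of_superset (h2 h1) fun e he => ?_
  have h3 : g⁻¹ (e w) = w := he
  have h4 := congrArg g h3
  have h5 : g (g⁻¹ (e w)) = e w := g.apply_symm_apply _
  rw [h5] at h4
  exact h4

theorem closed_eval {R M : Type} [Field R] [Field M] [Algebra R M] [Algebra.IsAlgebraic R M]
    (a b : M) (P : M → M → Prop) : IsClosed {g : M ≃ₐ[R] M | P (g a) (g b)} := by
  rw [← isOpen_compl_iff, isOpen_iff_mem_nhds]
  intro g hg
  refine Filter.mem_of_superset (Filter.inter_mem (eval_nhds a g) (eval_nhds b g)) ?_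
  rintro e ⟨h1, h2⟩ he
  apply hg
  have h1' : e a = g a := h1
  have h2' : e b = g b := h2
  change P (e a) (e b) at he
  rwa [h1', h2'] at he

section

variable {k κ R M : Type} [Field k] [Field κ] [Algebra k κ] [IsAlgClosed κ] [CharZero κ] [Field R]
  [Field M] [Algebra κ R] [Algebra R M] [Algebra κ M] [IsScalarTower κ R M] {x : R}
  {B : Finset κ} {Y : M}

/-- compactness for the places above `B` with their involutions; the condition `P z a b` for
`z ∈ E` is imposed on the values `a`, `b` of the order -/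
theorem cpt (hC : Cov 2 κ R M x B Y) (E : Set M) (h : M) (f : M → M)
    (hfin : ∀ Z : Finset M, (∀ z ∈ Z, z ∈ E) → ∃ (W' : Place κ M) (c' : M ≃ₐ[R] M), c' ≠ 1 ∧
      Fixes W' c' ∧ (∀ z ∈ Z, c' z = z) ∧ c' h ≠ h ∧ ∀ z ∈ Z, W'.ord (f z) = W'.ord z) :
    ∃ (W' : Place κ M) (c' : M ≃ₐ[R] M), c' ≠ 1 ∧ Fixes W' c' ∧ (∀ z ∈ E, c' z = z) ∧ c' h ≠ h ∧
      ∀ z ∈ E, W'.ord (f z) = W'.ord z := by
  classical
  haveI := hC.gal
  haveI hM : Algebra.IsAlgebraic R M := inferInstance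
  haveI hcpt : CompactSpace (M ≃ₐ[R] M) := inferInstance
  -- a place above every branch point
  by_cases hbase : ∃ e ∈ B, ∃ (W₀ : Place κ M) (c₀ : M ≃ₐ[R] M),
      0 < W₀.ord (algebraMap R M x - algebraMap κ M e) ∧ c₀ ≠ 1 ∧ Fixes W₀ c₀ ∧
      ∀ Z : Finset M, (∀ z ∈ Z, z ∈ E) → ∃ g : M ≃ₐ[R] M, (∀ z ∈ Z, c₀ (g z) = g z) ∧
        c₀ (g h) ≠ g h ∧ ∀ z ∈ Z, W₀.ord (g (f z)) = W₀.ord (g z)
  · obtain ⟨e, he, W₀, c₀, hW₀, hc₀, hc₀W, hZ⟩ := hbase
    -- compactness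
    let t : E → Set (M ≃ₐ[R] M) := fun z =>
      {g | (c₀ (g (z : M)) = g z ∧ W₀.ord (g (f z)) = W₀.ord (g z)) ∧ c₀ (g h) ≠ g h}
    have ht : ∀ z : E, IsClosed (t z) := fun z =>
      IsClosed.inter (closed_eval (z : M) (f z) fun a b => c₀ a = a ∧ W₀.ord b = W₀.ord a)
        (closed_eval h h fun a b => c₀ a ≠ a)
    by_cases hE : E.Nonempty
    · obtain ⟨z₀, hz₀⟩ := hE
      have hne : (Set.univ ∩ ⋂ z : E, t z).Nonempty := by
        refine isCompact_univ.inter_iInter_nonempty t ht fun u => ?_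
        obtain ⟨g, hg1, hg2, hg3⟩ := hZ (u.image Subtype.val) (by
          intro z hz
          rw [Finset.mem_image] at hz
          obtain ⟨y, -, rfl⟩ := hz
          exact y.2)
        refine ⟨g, trivial, ?_⟩
        rw [Set.mem_iInter₂]
        intro z hz
        have hz' : (z : M) ∈ u.image Subtype.val := Finset.mem_image_of_mem _ hz
        exact ⟨⟨hg1 _ hz', hg3 _ hz'⟩, hg2⟩
      obtain ⟨g, -, hg⟩ := hne
      rw [Set.mem_iInter] at hg
      let W' : Place κ M := Place.comapEquiv W₀ (g : M ≃+* M) (RingEquiv.refl κ) (fun b =>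
        Pool.Agent.Y748.PS.gal_const g b)
      have hW' : ∀ z, W'.ord z = W₀.ord (g z) := fun z => rfl
      have hc' : ∀ z, (g⁻¹ * c₀ * g : M ≃ₐ[R] M) z = g⁻¹ (c₀ (g z)) := fun z => rfl
      refine ⟨W', g⁻¹ * c₀ * g, ?_, ?_, ?_, ?_, ?_⟩
      · intro h0
        apply hc₀
        have h3 : g * (g⁻¹ * c₀ * g) * g⁻¹ = g * 1 * g⁻¹ := by rw [h0]
        rw [mul_one, mul_inv_cancel] at h3
        rw [← h3]
        group
      · intro z
        rw [hW', hW', hc', c_inv, hc₀W]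
      · intro z hz
        rw [hc', (hg ⟨z, hz⟩).1.1, inv_c]
      · intro h1
        rw [hc'] at h1
        have h2 := congrArg g h1
        rw [c_inv] at h2
        exact (hg ⟨z₀, hz₀⟩).2 h2
      · intro z hz
        rw [hW', hW']
        exact (hg ⟨z, hz⟩).1.2
    · obtain ⟨W', c', h1, h2, -, h3, -⟩ := hfin ∅ (by simp)
      exact ⟨W', c', h1, h2, fun z hz => absurd ⟨z, hz⟩ hE, h3, fun z hz => absurd ⟨z, hz⟩ hE⟩
  · exfalso
    -- choose a base place above every branch point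
    have hb : ∀ e : κ, ∃ Z : Finset M, (∀ z ∈ Z, z ∈ E) ∧ (e ∈ B →
        ∀ (W' : Place κ M) (c' : M ≃ₐ[R] M), c' ≠ 1 → Fixes W' c' →
        0 < W'.ord (algebraMap R M x - algebraMap κ M e) →
        ¬ ((∀ z ∈ Z, c' z = z) ∧ c' h ≠ h ∧ ∀ z ∈ Z, W'.ord (f z) = W'.ord z)) := by
      intro e
      by_cases heB : e ∈ B
      swap
      · exact ⟨∅, by simp, fun h => absurd h heB⟩
      by_cases hW : ∃ (W₀ : Place κ M) (c₀ : M ≃ₐ[R] M),
          0 < W₀.ord (algebraMap R M x - algebraMap κ M e) ∧ c₀ ≠ 1 ∧ Fixes W₀ c₀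
      swap
      · refine ⟨∅, by simp, fun _ W' c' h1 h2 h3 => ?_⟩
        exact absurd ⟨W', c', h3, h1, h2⟩ hW
      obtain ⟨W₀, c₀, hW₀, hc₀, hc₀W⟩ := hW
      have h1 : ¬ ∀ Z : Finset M, (∀ z ∈ Z, z ∈ E) → ∃ g : M ≃ₐ[R] M, (∀ z ∈ Z, c₀ (g z) = g z) ∧
          c₀ (g h) ≠ g h ∧ ∀ z ∈ Z, W₀.ord (g (f z)) = W₀.ord (g z) :=
        fun h => hbase ⟨e, heB, W₀, c₀, hW₀, hc₀, hc₀W, h⟩
      rw [not_forall] at h1
      obtain ⟨Z, h1⟩ := h1
      rw [Classical.not_imp] at h1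
      obtain ⟨hZE, hZ⟩ := h1
      refine ⟨Z, hZE, fun _ W' c' hc' hcW' hW' h2 => hZ ?_⟩
      -- `W' = W₀ ∘ g`
      have htr := trace_eq hC.rat e hW₀ hW'
      obtain ⟨g, -, hg⟩ := dic_conj hC ⊥ W₀ W' (by
        intro z hz
        obtain ⟨r, rfl⟩ := IntermediateField.mem_bot.1 hz
        by_cases h0 : r = 0
        · rw [h0, map_zero, W₀.ord_zero, W'.ord_zero]
        have h0' : algebraMap R M r ≠ 0 := (_root_.map_ne_zero _).2 h0
        rw [← O_iff W₀ h0', ← O_iff W' h0']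
        have h1 : r ∈ W₀.O.comap (algebraMap R M) ↔ r ∈ W'.O.comap (algebraMap R M) := by rw [htr]
        exact h1)
      have hcg := conj_invol hC hc₀W hc₀ hcW' hc' hg
      refine ⟨g, fun z hz => ?_, ?_, fun z hz => ?_⟩
      · rw [hcg, h2.1 z hz]
      · rw [hcg]
        intro h3
        exact h2.2.1 (g.injective h3)
      · rw [← hg, ← hg]
        exact h2.2.2 z hz
    choose Z hZE hZ using hb
    obtain ⟨W', c', hc', hcW', h1, h2, h3⟩ := hfin (B.biUnion Z) (by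
      intro z hz
      rw [Finset.mem_biUnion] at hz
      obtain ⟨e, -, hz⟩ := hz
      exact hZE e z hz)
    obtain ⟨⟨e, he, hW'⟩, -⟩ := invol hC W' c' hcW' hc'
    refine hZ e he W' c' hc' hcW' hW' ⟨fun z hz => h1 z ?_, h2, fun z hz => h3 z ?_⟩
    · exact Finset.mem_biUnion.2 ⟨e, he, hz⟩
    · exact Finset.mem_biUnion.2 ⟨e, he, hz⟩

end

end Pool.Agent.Zk12.TR
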