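import Mathlib

/-!
# A two-colouring of the orbits
-/

set_option autoImplicit false
set_option linter.all false

namespace Pool.Agent.Zk12.TR

theorem comb {α : Type} (S : Finset α) (Φ : α → α) (hS : ∀ v ∈ S, Φ v ∈ S) (s : ℕ)
    (hs : ∀ v ∈ S, Φ^[2 ^ s] v = v) (h2 : ∀ v ∈ S, Φ (Φ v) ≠ v) :
    ∃ T : Finset α, T ⊆ S ∧ Even T.card ∧ ∀ v ∈ S, (v ∈ T ↔ Φ v ∉ T) := by
  classical
  let X := {v // v ∈ S}
  let f : X → X := fun v => ⟨Φ v.1, hS v.1 v.2⟩
  have hfv : ∀ v : X, ((f v : X) : α) = Φ v := fun v => rfl
  have hfi : ∀ (n : ℕ) (v : X), ((f^[n] v : X) : α) = Φ^[n] v := by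
    intro n
    induction n with
    | zero => intro v; rfl
    | succ n ih =>
      intro v
      rw [Function.iterate_succ_apply, Function.iterate_succ_apply, ih, hfv]
  have hfs : ∀ v : X, f^[2 ^ s] v = v := fun v => Subtype.ext (by rw [hfi, hs v.1 v.2])
  have hf2 : ∀ v : X, f (f v) ≠ v := fun v h => h2 v.1 v.2 (congrArg Subtype.val h)
  have hfm : ∀ (m : ℕ) (v : X), f^[2 ^ s * m] v = v := by
    intro m
    induction m with
    | zero => intro v; rfl
    | succ m ih => intro v; rw [Nat.mul_succ, Function.iterate_add_apply, hfs, ih]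
  have hinj : Function.Injective f := by
    intro v w h
    have h1 : 2 ^ s = (2 ^ s - 1) + 1 := (Nat.sub_add_cancel Nat.one_le_two_pow).symm
    have h3 : ∀ u : X, f^[2 ^ s] u = f^[2 ^ s - 1] (f u) := fun u => by
      conv_lhs => rw [h1]
      rw [Function.iterate_succ_apply]
    rw [← hfs v, ← hfs w, h3, h3, h]
  have hpar0 : ∀ (r : X) (d : ℕ), f^[d] r = r → Even d := by
    intro r d hd
    by_contra hno
    rw [Nat.not_even_iff_odd] at hno
    have h1 : Function.IsPeriodicPt f d r := hd
    have h3 : Function.IsPeriodicPt f (2 ^ s) r := hfs r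
    have h4 := h1.gcd h3
    have h5 : d.gcd (2 ^ s) = 1 := by
      have : Nat.Coprime d (2 ^ s) := Nat.Coprime.pow_right _ hno.coprime_two_right
      exact this
    rw [h5] at h4
    have h6 : f r = r := h4
    exact hf2 r (by rw [h6, h6])
  have hpar : ∀ (r : X) (a b : ℕ), f^[a] r = f^[b] r → (Even a ↔ Even b) := by
    have key : ∀ (r : X) (a d : ℕ), f^[a] r = f^[a + d] r → (Even a ↔ Even (a + d)) := by
      intro r a d h
      rw [Function.iterate_add_apply] at h
      have h1 := (hinj.iterate a) h
      have h3 := hpar0 r d h1.symm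
      constructor
      · intro h4; exact h4.add h3
      · intro h4
        have h5 := (Nat.even_add.1 h4).2 h3
        exact h5
    intro r a b h
    rcases le_total a b with hab | hab
    · obtain ⟨d, rfl⟩ := Nat.exists_eq_add_of_le hab
      exact key r a d h
    · obtain ⟨d, rfl⟩ := Nat.exists_eq_add_of_le hab
      exact (key r b d h.symm).symm
  -- the orbits
  let R : Setoid X :=
    { r := fun v w => ∃ i : ℕ, f^[i] v = w
      iseqv :=
        { refl := fun v => ⟨0, rfl⟩
          symm := by
            rintro v w ⟨i, rfl⟩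
            refine ⟨2 ^ s * i - i, ?_⟩
            rw [← Function.iterate_add_apply, Nat.sub_add_cancel, hfm]
            exact Nat.le_mul_of_pos_left i (by positivity)
          trans := by
            rintro v w u ⟨i, rfl⟩ ⟨j, rfl⟩
            exact ⟨j + i, Function.iterate_add_apply f j i v⟩ } }
  let rep : X → X := fun v => (Quotient.mk R v).out
  have hrep : ∀ v : X, ∃ i : ℕ, f^[i] (rep v) = v := fun v => Quotient.mk_out (s := R) v
  have hrepf : ∀ v : X, rep (f v) = rep v := by
    intro v
    have h1 : Quotient.mk R (f v) = Quotient.mk R v :=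
      Quotient.sound (R.iseqv.symm ⟨1, rfl⟩)
    change (Quotient.mk R (f v)).out = (Quotient.mk R v).out
    rw [h1]
  choose j hj using hrep
  have hcol : ∀ v : X, Even (j (f v)) ↔ ¬ Even (j v) := by
    intro v
    have h1 : f^[j (f v)] (rep v) = f^[j v + 1] (rep v) := by
      rw [Function.iterate_succ_apply', hj v, ← hrepf v, hj (f v)]
    rw [hpar _ _ _ h1, Nat.even_add_one]
  let T : Finset α := (Finset.univ.filter fun v : X => Even (j v)).map ⟨Subtype.val,
    Subtype.val_injective⟩
  have hmT : ∀ v : X, (v : α) ∈ T ↔ Even (j v) := by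
    intro v
    simp only [T, Finset.mem_map, Finset.mem_filter, Finset.mem_univ, true_and,
      Function.Embedding.coeFn_mk]
    constructor
    · rintro ⟨w, hw, h⟩
      rw [← Subtype.ext h]
      exact hw
    · intro h
      exact ⟨v, h, rfl⟩
  refine ⟨T, ?_, ?_, ?_⟩
  · intro v hv
    rw [Finset.mem_map] at hv
    obtain ⟨w, -, rfl⟩ := hv
    exact w.2
  · let Z := {v : X // Even (j v)}
    have hZ : T.card = Fintype.card Z := by
      rw [Finset.card_map, Fintype.card_subtype]
    let G : Function.End Z := fun v => ⟨f (f v.1), by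
      rw [hcol, hcol, not_not]
      exact v.2⟩
    have hGn : ∀ (n : ℕ) (v : Z), (((G ^ n) v : Z) : X) = f^[2 * n] v.1 := by
      intro n
      induction n with
      | zero => intro v; rfl
      | succ n ih =>
        intro v
        rw [pow_succ]
        change (((G ^ n) (G v) : Z) : X) = _
        rw [ih]
        change f^[2 * n] (f (f v.1)) = _
        rw [Nat.mul_succ, Function.iterate_add_apply]
        rfl
    have hG : G ^ 2 ^ s = 1 := by
      funext v
      apply Subtype.ext
      rw [hGn, mul_comm, hfm]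
      rfl
    haveI : Fact (Nat.Prime 2) := ⟨Nat.prime_two⟩
    have h1 := Equiv.Perm.card_fixedPoints_modEq (f := G) (p := 2) (n := s) hG
    have h3 : Fintype.card (Function.fixedPoints G) = 0 := by
      rw [Fintype.card_eq_zero_iff]
      refine ⟨fun v => ?_⟩
      have h4 : G v.1 = v.1 := v.2
      exact hf2 v.1.1 (congrArg Subtype.val h4)
    rw [h3] at h1
    rw [hZ]
    exact (Nat.even_iff.2 h1)
  · intro v hv
    have h1 := hmT ⟨v, hv⟩
    have h3 := hmT (f ⟨v, hv⟩)
    change (Φ v ∈ T ↔ _) at h3
    change (v ∈ T ↔ _) at h1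
    rw [h1, h3, hcol, not_not]

end Pool.Agent.Zk12.TR
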