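import Mathlib
import Pool.Agent.Zk12.TR.Stab
import Pool.Agent.Zk12.TR.Comb

/-!
# The parity argument
-/

set_option autoImplicit false
set_option linter.all false

open Polynomial FF Pool.Agent.Y157.PS

namespace Pool.Agent.Zk12.TR

open Pool.Agent.Y158.GR Pool.Agent.Zk12

section

variable {k κ R M : Type} [Field k] [Field κ] [Algebra k κ] [IsAlgClosed κ] [CharZero κ] [Field R]
  [Field M] [Algebra κ R] [Algebra R M] [Algebra κ M] [IsScalarTower κ R M] {x : R}
  {B : Finset κ} {Y : M}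

/-- the restriction of an automorphism to a stable subfield -/
def resE (E : IntermediateField R M) (φ : RingAut M) (hφE : ∀ z, φ z ∈ E ↔ z ∈ E) : E ≃+* E where
  toFun z := ⟨φ z, (hφE z).2 z.2⟩
  invFun z := ⟨φ.symm z, by
    rw [← hφE, RingEquiv.apply_symm_apply]
    exact z.2⟩
  left_inv z := Subtype.ext (φ.symm_apply_apply _)
  right_inv z := Subtype.ext (φ.apply_symm_apply _)
  map_mul' z w := Subtype.ext (map_mul φ _ _)
  map_add' z w := Subtype.ext (map_add φ _ _)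

theorem resE_apply (E : IntermediateField R M) (φ : RingAut M) (hφE : ∀ z, φ z ∈ E ↔ z ∈ E)
    (z : E) : ((resE E φ hφE z : E) : M) = φ z := rfl

theorem par (hWT : S_WT) (hT : S_T1E) (hk : Algebra.IsAlgebraic k κ) (hC : Cov 2 κ R M x B Y)
    {W : Place κ M} {c : M ≃ₐ[R] M} (hcW : Fixes W c) (hc1 : c ≠ 1) {K : IntermediateField R M}
    {φ : RingAut M} {σ : κ ≃ₐ[k] κ} {q : ℕ} (hφ : Frb k x Y φ σ q) (hσB : ∀ e ∈ B, σ e = e)
    (hφL : ∀ z, φ z ∈ LK K c ↔ z ∈ LK K c)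
    {γ : M ≃ₐ[R] M} (hγφ : ∀ z ∈ LK K c, φ (γ z) = γ (φ z))
    (E : IntermediateField R M) (hE : FiniteDimensional R E) (hEL : E ≤ LK K c)
    (hφE : ∀ z, φ z ∈ E ↔ z ∈ E) (hγE : ∀ z ∈ E, γ z = z)
    {h : M} (h0 : h ≠ 0) (hhL : h ∈ LK K c) (hh2 : h ^ 2 ∈ E) (hφh : φ h / h ∈ E)
    (hγh : γ h = -h)
    (hno : ∀ (W' : Place κ M) (c' : M ≃ₐ[R] M), c' ≠ 1 → Fixes W' c' → (∀ z ∈ E, c' z = z) →
      c' h ≠ h → ∃ z ∈ E, W'.ord (φ (φ z)) ≠ W'.ord z) : False := by
  classical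
  haveI := hC.gal
  haveI := hE
  haveI hMz : CharZero M := charZero_of_injective_algebraMap (algebraMap κ M).injective
  haveI hff : IsFF κ E := hC.rat.isFF (N := E)
  have hφ0 : ∀ z : M, z ≠ 0 → φ z ≠ 0 := fun z hz => (map_ne_zero_iff φ φ.injective).2 hz
  have hh20 : h ^ 2 ≠ 0 := pow_ne_zero 2 h0
  -- the square and the action on the places
  obtain ⟨g2, hg2⟩ : ∃ g2 : E, (g2 : M) = h ^ 2 := ⟨⟨h ^ 2, hh2⟩, rfl⟩
  obtain ⟨b, hb⟩ : ∃ b : E, (b : M) = φ h / h := ⟨⟨φ h / h, hφh⟩, rfl⟩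
  have hg20 : g2 ≠ 0 := fun h1 => hh20 (by rw [← hg2, h1]; rfl)
  have hb0 : b ≠ 0 := fun h1 => div_ne_zero (hφ0 h h0) h0 (by rw [← hb, h1]; rfl)
  have hφg : resE E φ hφE g2 = b ^ 2 * g2 := by
    apply Subtype.ext
    rw [resE_apply, hg2, map_pow]
    change φ h ^ 2 = (b : M) ^ 2 * (g2 : M)
    rw [hb, hg2, div_pow, div_mul_cancel₀ _ hh20]
  have hconst : ∀ a : κ, resE E φ hφE (algebraMap κ E a) = algebraMap κ E ((σ : κ ≃+* κ) a) := by
    intro a
    apply Subtype.ext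
    rw [resE_apply]
    have e1 : ∀ a : κ, ((algebraMap κ E a : E) : M) = algebraMap κ M a := fun a => by
      rw [IsScalarTower.algebraMap_apply κ R M, IsScalarTower.algebraMap_apply κ R E]
      rfl
    rw [e1, e1]
    exact hφ.sa.const a
  let Φ : Place κ E → Place κ E := fun v => Place.comapEquiv v (resE E φ hφE) (σ : κ ≃+* κ) hconst
  have hΦ : ∀ v z, (Φ v).ord z = v.ord (resE E φ hφE z) := fun v z => rfl
  have hΦodd : ∀ v, Odd ((Φ v).ord g2) ↔ Odd (v.ord g2) := by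
    intro v
    rw [hΦ, hφg, v.ord_mul (pow_ne_zero 2 hb0) hg20, v.ord_pow]
    push_cast
    rw [Int.odd_add]
    constructor
    · intro h1
      by_contra h2
      rw [Int.not_odd_iff_even] at h2
      exact (Int.not_even_iff_odd.2 (h1.2 h2)) (even_two_mul _)
    · intro h1
      constructor
      · intro h2
        exact absurd h2 (Int.not_odd_iff_even.2 (even_two_mul _))
      · intro h2
        exact absurd h1 (Int.not_odd_iff_even.2 h2)
  -- the ramified places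
  have hfin : {v : Place κ E | v.ord g2 ≠ 0}.Finite := finite_support (k := κ) (K := E) g2
  obtain ⟨S, hS⟩ : ∃ S : Finset (Place κ E), ∀ v, v ∈ S ↔ Odd (v.ord g2) := by
    refine ⟨hfin.toFinset.filter fun v => Odd (v.ord g2), fun v => ?_⟩
    rw [Finset.mem_filter, Set.Finite.mem_toFinset]
    refine ⟨fun h1 => h1.2, fun h1 => ⟨?_, h1⟩⟩
    change v.ord g2 ≠ 0
    intro h2
    rw [h2] at h1
    exact absurd h1 (by decide)
  -- ramification over a place in `S`
  have hram : ∀ (W' : Place κ M) (v : Place κ E) (e : ℕ), (e = 1 ∨ e = 2) →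
      (∀ z : E, W'.ord (z : M) = e * v.ord z) → v ∈ S → e = 2 ∧ W'.ord h = v.ord g2 := by
    intro W' v e he hv hvS
    have h1 := hv g2
    rw [hg2, W'.ord_pow] at h1
    rw [hS] at hvS
    rcases he with rfl | rfl
    · exfalso
      push_cast at h1
      rw [one_mul] at h1
      rw [← h1] at hvS
      exact absurd hvS (Int.not_odd_iff_even.2 (even_two_mul _))
    · refine ⟨rfl, ?_⟩
      push_cast at h1
      omega
  have hchar : ∀ (c' : M ≃ₐ[R] M), (∀ z ∈ E, c' z = z) → c' h = h ∨ c' h = -h := by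
    intro c' hc'
    apply sq_eq_sq_iff_eq_or_eq_neg.1
    rw [← map_pow, hc' _ hh2]
  -- no fixed places of the square
  have hno2 : ∀ v ∈ S, Φ (Φ v) ≠ v := by
    intro v hv hΦv
    obtain ⟨W', e, he, hv', hiff⟩ := dic_above hC E hE v
    obtain ⟨he2, hWh⟩ := hram W' v e he hv' hv
    obtain ⟨c', hc'1, hc'W, hc'E⟩ := hiff.1 he2
    have h1 : c' h ≠ h := by
      intro h2
      have h3 := even_of_fix hC W' c' hc'W hc'1 h0 h2
      rw [hWh] at h3
      exact absurd ((hS v).1 hv) (Int.not_odd_iff_even.2 h3)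
    obtain ⟨z, hz, hne⟩ := hno W' c' hc'1 hc'W hc'E h1
    apply hne
    have h4 := congrArg (fun P : Place κ E => P.ord ⟨z, hz⟩) hΦv
    change v.ord (resE E φ hφE (resE E φ hφE ⟨z, hz⟩)) = v.ord ⟨z, hz⟩ at h4
    have h5 := hv' (resE E φ hφE (resE E φ hφE ⟨z, hz⟩))
    have h6 := hv' ⟨z, hz⟩
    rw [resE_apply, resE_apply] at h5
    rw [h5, h4, ← h6]
  -- periods
  obtain ⟨α, hαE, hα⟩ := exists_gen hC E hE
  obtain ⟨N, s, hN, hαN, hper⟩ := place_period hk hC hφ.sa hσB {α}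
  have hEN : E ≤ N := hα N (hαN α (Finset.mem_singleton_self α))
  have hΦi : ∀ (n : ℕ) (v : Place κ E) (z : E), (Φ^[n] v).ord z =
      v.ord ((resE E φ hφE ^ n : RingAut E) z) := by
    intro n
    induction n with
    | zero => intro v z; rfl
    | succ n ih =>
      intro v z
      rw [Function.iterate_succ_apply, ih, hΦ, pow_succ']
      rfl
  have hpowE : ∀ (n : ℕ) (z : E), (((resE E φ hφE ^ n : RingAut E) z : E) : M) =
      (φ ^ n : RingAut M) z := by
    intro n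
    induction n with
    | zero => intro z; rfl
    | succ n ih =>
      intro z
      rw [pow_succ', pow_succ']
      change φ (((resE E φ hφE ^ n : RingAut E) z : E) : M) = φ ((φ ^ n : RingAut M) z)
      rw [ih]
  have hs : ∀ v ∈ S, Φ^[2 ^ s] v = v := by
    intro v hv
    obtain ⟨W', e, he, hv', hiff⟩ := dic_above hC E hE v
    obtain ⟨he2, hWh⟩ := hram W' v e he hv' hv
    obtain ⟨c', hc'1, hc'W, hc'E⟩ := hiff.1 he2
    obtain ⟨hab, -⟩ := invol hC W' c' hc'W hc'1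
    have h1 : ∀ z : E, (Φ^[2 ^ s] v).ord z = v.ord z := by
      intro z
      rw [hΦi]
      have h2 := hper W' hab z (hEN z.2)
      rw [← hpowE, hv', hv', he2] at h2
      push_cast at h2
      omega
    apply Place.ext_O
    ext z
    by_cases hz : z = 0
    · rw [hz]
      exact ⟨fun _ => zero_mem _, fun _ => zero_mem _⟩
    · rw [O_iff _ hz, O_iff _ hz, h1]
  obtain ⟨T, hTS, hTeven, hTc⟩ := comb S Φ (fun v hv => (hS _).2 ((hΦodd v).2 ((hS v).1 hv))) s hs
    hno2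
  -- the divisor
  obtain ⟨D, hD⟩ : ∃ D : Place κ E →₀ ℤ, (∀ v, D v = if v ∈ T then 1 else 0) ∧
      D.sum (fun _ n => n) = T.card := by
    refine ⟨Finsupp.onFinset T (fun v => if v ∈ T then 1 else 0) (fun v hv => ?_), fun v => rfl, ?_⟩
    · by_contra hno
      rw [if_neg hno] at hv
      exact hv rfl
    · rw [Finsupp.onFinset_sum _ (fun _ => rfl)]
      rw [Finset.sum_congr rfl (fun v hv => if_pos hv), Finset.sum_const, nsmul_eq_mul, mul_one]
  obtain ⟨z, hz0, hz⟩ := hT κ R M x B Y hC E hE D (by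
    rw [hD.2]
    obtain ⟨m, hm⟩ := hTeven
    exact ⟨m, by rw [hm]; push_cast; ring⟩)
  have hzM : (z : M) ≠ 0 := fun h1 => hz0 (Subtype.ext h1)
  -- parity of `z`
  have hzT : ∀ v, Odd (v.ord z) ↔ v ∈ T := by
    intro v
    have h1 := hz v
    rw [hD.1] at h1
    by_cases hv : v ∈ T
    · rw [if_pos hv] at h1
      refine ⟨fun _ => hv, fun _ => ?_⟩
      obtain ⟨m, hm⟩ := h1
      exact ⟨m, by omega⟩
    · rw [if_neg hv, sub_zero] at h1
      refine ⟨fun h2 => ?_, fun h2 => absurd h2 hv⟩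
      obtain ⟨m, hm⟩ := h1
      obtain ⟨m', hm'⟩ := h2
      omega
  obtain ⟨F, hF⟩ := hC.root (z : M) hzM (by
    intro W'
    obtain ⟨v, e, he, hv', -⟩ := dic_over hC E hE W'
    rw [hv']
    rcases he with rfl | rfl
    · have h1 : v ∉ T := by
        intro h2
        exact absurd (hram W' v 1 (Or.inl rfl) hv' (hTS h2)).1 (by norm_num)
      have h2 : ¬ Odd (v.ord z) := fun h3 => h1 ((hzT v).1 h3)
      rw [Int.not_odd_iff_even] at h2
      push_cast
      rw [one_mul]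
      exact even_iff_two_dvd.1 h2
    · exact ⟨v.ord z, by push_cast; ring⟩)
  have hF0 : F ≠ 0 := by
    rintro rfl
    rw [zero_pow two_ne_zero] at hF
    exact hzM hF.symm
  have hordF : ∀ (W' : Place κ M) (v : Place κ E), (∀ z : E, W'.ord (z : M) = (2 : ℕ) * v.ord z) →
      W'.ord F = v.ord z := by
    intro W' v hv
    have h1 := hv z
    rw [← hF, W'.ord_pow] at h1
    push_cast at h1
    omega
  -- `F ∈ LK`
  have hFL : F ∈ LK K c := by
    refine mem_LK_of hC hcW fun W' c' hc'W hc'L => ?_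
    by_cases hc'1 : c' = 1
    · rw [hc'1]; rfl
    have h1 : c' F = F ∨ c' F = -F := by
      apply sq_eq_sq_iff_eq_or_eq_neg.1
      rw [← map_pow, hF, hc'L _ (hEL z.2)]
    rw [(sign' hC W' c' hc'W hc'1 hF0 h1).1]
    obtain ⟨v, e, he, hv', hiff⟩ := dic_over hC E hE W'
    have he2 : e = 2 := hiff.2 ⟨c', hc'1, hc'W, fun y hy => hc'L y (hEL hy)⟩
    subst he2
    rw [hordF W' v hv']
    by_contra hodd
    rw [Int.not_even_iff_odd, hzT] at hodd
    have h2 := even_of_fix hC W' c' hc'W hc'1 h0 (hc'L h hhL)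
    rw [(hram W' v 2 (Or.inr rfl) hv' (hTS hodd)).2] at h2
    exact absurd ((hS v).1 (hTS hodd)) (Int.not_odd_iff_even.2 h2)
  have hφF0 : φ F ≠ 0 := hφ0 F hF0
  have hφFL : φ F ∈ LK K c := (hφL F).2 hFL
  -- the unramified square root
  obtain ⟨u, hu⟩ : ∃ u : M, u = h / (F * φ F) := ⟨_, rfl⟩
  have hu0 : u ≠ 0 := by rw [hu]; exact div_ne_zero h0 (mul_ne_zero hF0 hφF0)
  obtain ⟨u2, hu2⟩ : ∃ u2 : E, u2 = g2 / (z * resE E φ hφE z) := ⟨_, rfl⟩
  have hz0' : resE E φ hφE z ≠ 0 :=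
    (map_ne_zero_iff (resE E φ hφE) (resE E φ hφE).injective).2 hz0
  have huu : u ^ 2 = (u2 : M) := by
    rw [hu, hu2, div_pow, mul_pow, ← map_pow, hF]
    change h ^ 2 / ((z : M) * φ z) = ((g2 : E) : M) / ((z : M) * ((resE E φ hφE z : E) : M))
    rw [hg2, resE_apply]
  have hu2S : u ^ 2 ∈ E := by rw [huu]; exact u2.2
  have huur : Ur κ E u := by
    intro W' c' hc'W hc'E
    by_cases hc'1 : c' = 1
    · rw [hc'1]; rfl
    have h1 : c' u = u ∨ c' u = -u := by
      apply sq_eq_sq_iff_eq_or_eq_neg.1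
      rw [← map_pow, hc'E _ hu2S]
    rw [(sign' hC W' c' hc'W hc'1 hu0 h1).1]
    obtain ⟨v, e, he, hv', hiff⟩ := dic_over hC E hE W'
    have he2 : e = 2 := hiff.2 ⟨c', hc'1, hc'W, hc'E⟩
    subst he2
    have h2 : W'.ord u = v.ord u2 := by
      have h3 := hv' u2
      rw [← huu, W'.ord_pow] at h3
      push_cast at h3
      omega
    rw [h2, hu2, v.ord_div hg20 (mul_ne_zero hz0 hz0'), v.ord_mul hz0 hz0', ← hΦ]
    have h4 := hzT v
    have h5 := hzT (Φ v)
    by_cases hvS : v ∈ S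
    · have h6 := hTc v hvS
      have h7 := (hS v).1 hvS
      by_cases hvT : v ∈ T
      · have h8 := h4.2 hvT
        have h9 : ¬ Odd ((Φ v).ord z) := fun h10 => (h6.1 hvT) (h5.1 h10)
        rw [Int.not_odd_iff_even] at h9
        obtain ⟨a1, ha1⟩ := h7
        obtain ⟨a2, ha2⟩ := h8
        obtain ⟨a3, ha3⟩ := h9
        exact ⟨a1 - a2 - a3, by omega⟩
      · have h8 : ¬ Odd (v.ord z) := fun h10 => hvT (h4.1 h10)
        have h9 : Odd ((Φ v).ord z) := by
          apply h5.2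
          by_contra h10
          exact hvT (h6.2 h10)
        rw [Int.not_odd_iff_even] at h8
        obtain ⟨a1, ha1⟩ := h7
        obtain ⟨a2, ha2⟩ := h8
        obtain ⟨a3, ha3⟩ := h9
        exact ⟨a1 - a2 - a3, by omega⟩
    · have h7 : ¬ Odd (v.ord g2) := fun h10 => hvS ((hS v).2 h10)
      have h8 : ¬ Odd (v.ord z) := fun h10 => hvS (hTS (h4.1 h10))
      have h9 : ¬ Odd ((Φ v).ord z) := fun h10 =>
        h7 ((hΦodd v).1 ((hS _).1 (hTS (h5.1 h10))))
      rw [Int.not_odd_iff_even] at h7 h8 h9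
      obtain ⟨a1, ha1⟩ := h7
      obtain ⟨a2, ha2⟩ := h8
      obtain ⟨a3, ha3⟩ := h9
      exact ⟨a1 - a2 - a3, by omega⟩
  -- weights
  obtain ⟨g, m, e', hg0, hgE, hgur, he'E, hug⟩ := hWT k κ R M x B Y hk hC φ σ q hφ E hE hφE u 1 hu0
    (by rw [pow_one]; exact hu2S) huur
  have hgL : g ∈ LK K c := mem_LK_of hC hcW fun W' c' hc'W hc'L =>
    hgur W' c' hc'W fun y hy => hc'L y (hEL hy)
  obtain ⟨ζ, hζ, hζg⟩ : ∃ ζ : κ, ζ ^ 2 ^ m = 1 ∧ γ g = algebraMap κ M ζ * g := by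
    have h1 : (γ g / g) ^ 2 ^ m = 1 := by
      rw [div_pow, ← map_pow, hγE _ hgE, div_self (pow_ne_zero _ hg0)]
    obtain ⟨ζ, hζ, hζ'⟩ := Pool.Agent.Y748.PS.rou_const (κ := κ) (by positivity) h1
    exact ⟨ζ, hζ, by rw [hζ', div_mul_cancel₀ _ hg0]⟩
  have hζ0 : algebraMap κ M ζ ≠ 0 := by
    rw [_root_.map_ne_zero]
    rintro rfl
    rw [zero_pow (by positivity)] at hζ
    exact zero_ne_one hζ
  have hγu : γ u = u := by
    have h1 : γ (φ g) = algebraMap κ M ζ ^ q * φ g := by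
      rw [← hγφ g hgL, hζg, map_mul, hφ.sa.const, hφ.mu m ζ hζ, map_pow]
    rw [hug, map_mul, map_div₀, map_pow, h1, hζg, hγE _ he'E, mul_pow,
      mul_div_mul_left _ _ (pow_ne_zero q hζ0)]
  have hγu' : γ u = -u := by
    have h1 : γ F = F ∨ γ F = -F := by
      apply sq_eq_sq_iff_eq_or_eq_neg.1
      rw [← map_pow, hF, hγE _ z.2]
    rw [hu, map_div₀, map_mul, hγh, ← hγφ F hFL]
    rcases h1 with h2 | h2
    · rw [h2, neg_div]
    · rw [h2, map_neg, neg_mul_neg, neg_div]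
  rw [hγu] at hγu'
  apply hu0
  have h1 : (2 : M) * u = 0 := by linear_combination hγu'
  exact (mul_eq_zero.1 h1).resolve_left two_ne_zero

end

end Pool.Agent.Zk12.TR
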