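import Mathlib
import Pool.Agent.Zk12.TR.Par
import Pool.Agent.Zk12.TR.Cpt
import Pool.Agent.Zk12.TR.Prol2

/-!
# Uniqueness of the place which is fixed by a Frobenius element
-/

set_option autoImplicit false
set_option linter.all false

open Polynomial FF Pool.Agent.Y157.PS

namespace Pool.Agent.Zk12.TR

open Pool.Agent.Y158.GR Pool.Agent.Zk12

section

variable {k κ R M : Type} [Field k] [Field κ] [Algebra k κ] [IsAlgClosed κ] [CharZero κ] [Field R]
  [Field M] [Algebra κ R] [Algebra R M] [Algebra κ M] [IsScalarTower κ R M] {x : R}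
  {B : Finset κ} {Y : M}

/-- automorphisms which are trivial on the fixed field of `γ` act as powers of `γ` on finite
levels -/
theorem procyc (L : IntermediateField R M) (γ : M ≃ₐ[R] M) (hγL : ∀ z ∈ L, γ z ∈ L)
    (hγL' : ∀ z ∈ L, γ⁻¹ z ∈ L) (r : M ≃ₐ[R] M) (hr : ∀ z ∈ L, γ z = z → r z = z)
    {N : IntermediateField R M} (hN : Lev 2 N) :
    ∃ a : ℤ, ∀ z ∈ L, z ∈ N → r z = (γ ^ a) z := by
  classical
  haveI := hN.fin
  haveI := hN.gal
  obtain ⟨F, hF⟩ : ∃ F : IntermediateField R N, F = L.comap N.val := ⟨_, rfl⟩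
  have hmF : ∀ y : N, y ∈ F ↔ (y : M) ∈ L := by intro y; rw [hF]; rfl
  obtain ⟨g, hg⟩ : ∃ g : N ≃ₐ[R] N, ∀ z : N, ((g z : N) : M) = γ z :=
    ⟨γ.restrictNormal N, fun z => AlgEquiv.restrictNormal_commutes γ N z⟩
  obtain ⟨r', hr'⟩ : ∃ g : N ≃ₐ[R] N, ∀ z : N, ((g z : N) : M) = r z :=
    ⟨r.restrictNormal N, fun z => AlgEquiv.restrictNormal_commutes r N z⟩
  have hgi : ∀ z : N, ((g⁻¹ z : N) : M) = γ⁻¹ z := by
    intro z
    have h1 := hg (g⁻¹ z)
    have h2 : g (g⁻¹ z) = z := g.apply_symm_apply z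
    rw [h2] at h1
    rw [h1, inv_c]
  have hgF : ∀ (a : ℤ), ∀ y ∈ F, (g ^ a) y ∈ F := by
    intro a
    induction a using Int.induction_on with
    | zero => exact fun y hy => hy
    | succ a ih =>
      intro y hy
      rw [zpow_add_one]
      change (g ^ (a : ℤ)) (g y) ∈ F
      exact ih _ ((hmF _).2 (by rw [hg]; exact hγL _ ((hmF y).1 hy)))
    | pred a ih =>
      intro y hy
      rw [zpow_sub_one]
      change (g ^ (-(a : ℤ))) (g⁻¹ y) ∈ F
      exact ih _ ((hmF _).2 (by rw [hgi]; exact hγL' _ ((hmF y).1 hy)))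
  have hga : ∀ (a : ℤ) (y : N), (((g ^ a) y : N) : M) = (γ ^ a) y := by
    intro a
    induction a using Int.induction_on with
    | zero => exact fun y => rfl
    | succ a ih =>
      intro y
      rw [zpow_add_one, zpow_add_one]
      change (((g ^ (a : ℤ)) (g y) : N) : M) = (γ ^ (a : ℤ)) (γ y)
      rw [ih, hg]
    | pred a ih =>
      intro y
      rw [zpow_sub_one, zpow_sub_one]
      change (((g ^ (-(a : ℤ))) (g⁻¹ y) : N) : M) = (γ ^ (-(a : ℤ))) (γ⁻¹ y)
      rw [ih, hgi]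
  let H : Subgroup (N ≃ₐ[R] N) := Subgroup.closure ({g} ∪ (F.fixingSubgroup : Set (N ≃ₐ[R] N)))
  have hfix : ∀ y ∈ IntermediateField.fixedField H, r' y = y := by
    intro y hy
    have h1 : ∀ u ∈ H, u y = y := fun u hu => hy ⟨u, hu⟩
    have h2 : y ∈ F := by
      rw [← IsGalois.fixedField_fixingSubgroup F]
      rintro ⟨u, hu⟩
      exact h1 u (Subgroup.subset_closure (Or.inr hu))
    have h3 : g y = y := h1 g (Subgroup.subset_closure (Or.inl rfl))
    apply Subtype.ext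
    rw [hr']
    refine hr _ ((hmF y).1 h2) ?_
    rw [← hg, h3]
  have hrH : r' ∈ H := by
    rw [← IntermediateField.fixingSubgroup_fixedField H, IntermediateField.mem_fixingSubgroup_iff]
    exact hfix
  have key : ∀ u ∈ H, ∃ a : ℤ, ∀ y ∈ F, u y = (g ^ a) y := by
    intro u hu
    induction hu using Subgroup.closure_induction with
    | mem u hu =>
      rcases hu with hu | hu
      · rw [Set.mem_singleton_iff] at hu
        exact ⟨1, fun y _ => by rw [hu, zpow_one]⟩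
      · refine ⟨0, fun y hy => ?_⟩
        rw [zpow_zero]
        exact (IntermediateField.mem_fixingSubgroup_iff _ _).1 hu y hy
    | one => exact ⟨0, fun y _ => by rw [zpow_zero]⟩
    | mul u v _ _ hu hv =>
      obtain ⟨a, ha⟩ := hu
      obtain ⟨b, hb⟩ := hv
      refine ⟨a + b, fun y hy => ?_⟩
      rw [AlgEquiv.mul_apply, hb y hy, ha _ (hgF b y hy), zpow_add, AlgEquiv.mul_apply]
    | inv u _ hu =>
      obtain ⟨a, ha⟩ := hu
      refine ⟨-a, fun y hy => ?_⟩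
      apply u.injective
      have h1 : u (u⁻¹ y) = y := u.apply_symm_apply y
      rw [h1, ha _ (hgF (-a) y hy), ← AlgEquiv.mul_apply, ← zpow_add, add_neg_cancel, zpow_zero]
      rfl
  obtain ⟨a, ha⟩ := key r' hrH
  refine ⟨a, fun z hz hzN => ?_⟩
  have h1 := congrArg (fun y : N => (y : M)) (ha ⟨z, hzN⟩ ((hmF _).2 hz))
  beta_reduce at h1
  rw [hr', hga] at h1
  exact h1

/-- the elements of `L` which are fixed by `γ` -/
def FE (L : IntermediateField R M) (γ : M ≃ₐ[R] M) : IntermediateField R M where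
  carrier := {z | z ∈ L ∧ γ z = z}
  mul_mem' := fun ha hb => ⟨mul_mem ha.1 hb.1, by rw [map_mul, ha.2, hb.2]⟩
  one_mem' := ⟨one_mem _, map_one _⟩
  add_mem' := fun ha hb => ⟨add_mem ha.1 hb.1, by rw [map_add, ha.2, hb.2]⟩
  zero_mem' := ⟨zero_mem _, map_zero _⟩
  algebraMap_mem' := fun r => ⟨L.algebraMap_mem r, γ.commutes r⟩
  inv_mem' := fun a ha => ⟨inv_mem ha.1, by rw [map_inv₀, ha.2]⟩

theorem uk (hWT : S_WT) (hT : S_T1E) (hk : Algebra.IsAlgebraic k κ) (hC : Cov 2 κ R M x B Y)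
    {W : Place κ M} {c : M ≃ₐ[R] M} (hcW : Fixes W c) (hc1 : c ≠ 1) {K : IntermediateField R M}
    {φ : RingAut M} {σ : κ ≃ₐ[k] κ} {q : ℕ} (hφ : Frb k x Y φ σ q) (hσB : ∀ e ∈ B, σ e = e)
    (hφc : ∀ z, φ (c z) = c (φ z)) (hφK : ∀ z, φ z ∈ K ↔ z ∈ K)
    (hNF : ∀ (W' : Place κ M) (c' : M ≃ₐ[R] M), c' ≠ 1 → Fixes W' c' →
      (∃ z ∈ LK K c, c' z ≠ z) → ∃ z ∈ LK K c, W'.ord (φ (φ z)) ≠ W'.ord z)
    {γ : M ≃ₐ[R] M} (hγK : ∀ z ∈ K, γ z = z) (hγφ : ∀ z ∈ LK K c, φ (γ z) = γ (φ z)) :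
    ∀ z ∈ LK K c, γ z = z := by
  classical
  haveI := hC.gal
  haveI hMz : CharZero M := charZero_of_injective_algebraMap (algebraMap κ M).injective
  haveI : CharZero R := charZero_of_injective_algebraMap (algebraMap κ R).injective
  have hφL : ∀ z, φ z ∈ LK K c ↔ z ∈ LK K c := fun z => LK_sa hC.rat hφ.sa hφc hφK
  have hγL : ∀ z ∈ LK K c, γ z ∈ LK K c := fun z hz => LK_gal hγK hz
  have hγL' : ∀ z ∈ LK K c, γ⁻¹ z ∈ LK K c := fun z hz => LK_gal (inv_fix hγK) hz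
  by_contra hno
  obtain ⟨z1, hz1, hγz1⟩ : ∃ z ∈ LK K c, γ z ≠ z := by
    by_contra h
    apply hno
    intro z hz
    by_contra h1
    exact h ⟨z, hz, h1⟩
  obtain ⟨E, hEe⟩ : ∃ E : IntermediateField R M, E = FE (LK K c) γ := ⟨_, rfl⟩
  have hmE : ∀ z, z ∈ E ↔ z ∈ LK K c ∧ γ z = z := by intro z; rw [hEe]; rfl
  have hEL : E ≤ LK K c := fun z hz => ((hmE z).1 hz).1
  have hprim : ∃ ζ : R, IsPrimitiveRoot ζ 2 := by
    haveI : NeZero (2 : ℕ) := ⟨two_ne_zero⟩
    haveI : NeZero ((2 : ℕ) : κ) := ⟨Nat.cast_ne_zero.2 two_ne_zero⟩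
    obtain ⟨ζ, hζ⟩ := HasEnoughRootsOfUnity.exists_primitiveRoot κ 2
    exact ⟨algebraMap κ R ζ, hζ.map_of_injective (algebraMap κ R).injective⟩
  obtain ⟨ζ, hζ⟩ := hprim
  obtain ⟨h, hhL, hhE, hh2⟩ := exists_root_between (ℓ := 2) hζ hC.pow E (LK K c) hEL hz1
    (fun h => hγz1 ((hmE _).1 h).2)
  have h0 : h ≠ 0 := by
    rintro rfl
    exact hhE (zero_mem _)
  have hγh : γ h = -h := by
    have h1 : γ h = h ∨ γ h = -h := by
      apply sq_eq_sq_iff_eq_or_eq_neg.1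
      rw [← map_pow, ((hmE _).1 hh2).2]
    exact h1.resolve_left fun h2 => hhE ((hmE _).2 ⟨hhL, h2⟩)
  have hφE : ∀ z, φ z ∈ E ↔ z ∈ E := by
    intro z
    rw [hmE, hmE, hφL]
    constructor
    · rintro ⟨h1, h2⟩
      refine ⟨h1, φ.injective ?_⟩
      rw [hγφ z h1, h2]
    · rintro ⟨h1, h2⟩
      exact ⟨h1, by rw [← hγφ z h1, h2]⟩
  have hφh : φ h / h ∈ E := by
    rw [hmE]
    refine ⟨div_mem ((hφL h).2 hhL) hhL, ?_⟩
    rw [map_div₀, ← hγφ h hhL, hγh, map_neg, neg_div_neg_eq]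
  by_cases hcase : ∀ Z : Finset M, (∀ z ∈ Z, z ∈ (E : Set M)) → ∃ (W' : Place κ M)
      (c' : M ≃ₐ[R] M), c' ≠ 1 ∧ Fixes W' c' ∧ (∀ z ∈ Z, c' z = z) ∧ c' h ≠ h ∧
      ∀ z ∈ Z, W'.ord ((fun z => φ (φ z)) z) = W'.ord z
  · -- the compactness argument
    obtain ⟨W', c', hc'1, hc'W, hc'E, hc'h, hord⟩ := cpt hC (E : Set M) h (fun z => φ (φ z)) hcase
    obtain ⟨-, -, -, -, hc'2, -⟩ := invol hC W' c' hc'W hc'1
    have hc'c' : ∀ z, c' (c' z) = z := fun z => by
      have h1 := DFunLike.congr_fun hc'2 z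
      rw [pow_two] at h1
      exact h1
    have hγ2h : ∀ b : ℤ, (γ ^ (2 * b)) h = h := by
      have h1 : γ ^ 2 ∈ MulAction.stabilizer (M ≃ₐ[R] M) h := by
        rw [MulAction.mem_stabilizer_iff, pow_two]
        change γ (γ h) = h
        rw [hγh, map_neg, hγh, neg_neg]
      intro b
      have h2 := zpow_mem h1 b
      rw [← zpow_natCast, ← zpow_mul] at h2
      exact MulAction.mem_stabilizer_iff.1 h2
    have hpc : ∀ z ∈ LK K c, c' z = γ z := by
      intro z hz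
      obtain ⟨N, hN, hZN⟩ := Pool.Agent.Y31.PS.exists_lev hC.pow {z, h}
      have hzN : z ∈ N := hZN z (by simp)
      have hhN : h ∈ N := hZN h (by simp)
      haveI := hN.gal
      obtain ⟨a, ha⟩ := procyc (LK K c) γ hγL hγL' c' (fun y hy hγy =>
        hc'E y ((hmE y).2 ⟨hy, hγy⟩)) hN
      obtain ⟨m, hm⟩ := lev_period hN
      have hodd : Odd a := by
        by_contra hev
        rw [Int.not_odd_iff_even] at hev
        obtain ⟨b, hb⟩ := hev
        apply hc'h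
        rw [ha h hhL hhN, hb, ← two_mul, hγ2h]
      obtain ⟨b, hb⟩ := hodd
      -- `c' z` is in `L ∩ N`
      have hcz : c' z = (γ ^ a) z := ha z hz hzN
      have hczN : c' z ∈ N := by
        have h1 := AlgEquiv.restrictNormal_commutes c' N ⟨z, hzN⟩
        change (((c'.restrictNormal N) ⟨z, hzN⟩ : N) : M) = c' z at h1
        rw [← h1]
        exact Subtype.property _
      have hczL : c' z ∈ LK K c := by
        rw [hcz]
        have key : ∀ (a : ℤ), ∀ y ∈ LK K c, (γ ^ a) y ∈ LK K c := by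
          intro a
          induction a using Int.induction_on with
          | zero => exact fun y hy => hy
          | succ a ih =>
            intro y hy
            rw [zpow_add_one]
            change (γ ^ (a : ℤ)) (γ y) ∈ LK K c
            exact ih _ (hγL y hy)
          | pred a ih =>
            intro y hy
            rw [zpow_sub_one]
            change (γ ^ (-(a : ℤ))) (γ⁻¹ y) ∈ LK K c
            exact ih _ (hγL' y hy)
        exact key a z hz
      have h2a : γ ^ (2 * a) ∈ MulAction.stabilizer (M ≃ₐ[R] M) z := by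
        rw [MulAction.mem_stabilizer_iff, two_mul, zpow_add]
        change (γ ^ a) ((γ ^ a) z) = z
        rw [← hcz, ← ha _ hczL hczN, hc'c']
      have h2m : γ ^ ((2 : ℤ) ^ m) ∈ MulAction.stabilizer (M ≃ₐ[R] M) z := by
        rw [MulAction.mem_stabilizer_iff]
        have h3 : γ ^ ((2 : ℤ) ^ m) = γ ^ 2 ^ m := by
          rw [← zpow_natCast]
          push_cast
          rfl
        rw [h3]
        exact hm γ z hzN
      have hcop : IsCoprime a ((2 : ℤ) ^ m) := by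
        apply IsCoprime.pow_right
        exact ⟨1, -b, by rw [hb]; ring⟩
      obtain ⟨u, v, huv⟩ := hcop
      have h2 : γ ^ (2 : ℤ) ∈ MulAction.stabilizer (M ≃ₐ[R] M) z := by
        have h3 := mul_mem (zpow_mem h2a u) (zpow_mem h2m (2 * v))
        rw [← zpow_mul, ← zpow_mul, ← zpow_add] at h3
        have h4 : 2 * a * u + 2 ^ m * (2 * v) = 2 := by linear_combination 2 * huv
        rwa [h4] at h3
      have h3 := zpow_mem h2 b
      rw [← zpow_mul] at h3
      rw [hcz, hb, add_comm, zpow_add, zpow_one]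
      change γ ((γ ^ (2 * b)) z) = γ z
      rw [show (γ ^ (2 * b)) z = z from MulAction.mem_stabilizer_iff.1 h3]
    have hγγ : ∀ z ∈ LK K c, γ (γ z) = z := by
      intro z hz
      rw [← hpc _ (hγL z hz), ← hpc z hz, hc'c']
    -- `W'` is fixed on `L`
    have hsa2 := hφ.sa.mul hφ.sa
    let W₂ : Place κ M := Place.comapEquiv W' (φ * φ : RingAut M) ((σ * σ : κ ≃ₐ[k] κ) : κ ≃+* κ)
      hsa2.const
    have hW₂ : ∀ z, W₂.ord z = W'.ord (φ (φ z)) := fun z => rfl
    obtain ⟨r, hrE, hr⟩ := dic_conj' hC E W' W₂ (fun z hz => by rw [hW₂]; exact (hord z hz).symm)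
    obtain ⟨z, hz, hne⟩ := hNF W' c' hc'1 hc'W ⟨h, hhL, hc'h⟩
    apply hne
    rw [← hW₂, hr]
    obtain ⟨N, hzN, hN⟩ := hC.pow z
    obtain ⟨a, ha⟩ := procyc (LK K c) γ hγL hγL' r (fun y hy hγy =>
      hrE y ((hmE y).2 ⟨hy, hγy⟩)) hN
    have h2 : γ ^ (2 : ℤ) ∈ MulAction.stabilizer (M ≃ₐ[R] M) z := by
      rw [MulAction.mem_stabilizer_iff]
      change (γ ^ (2 : ℤ)) z = z
      rw [show (2 : ℤ) = 1 + 1 from rfl, zpow_add, zpow_one]
      exact hγγ z hz
    rw [ha z hz hzN]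
    rcases Int.even_or_odd a with ⟨b, hb⟩ | ⟨b, hb⟩
    · have h3 := zpow_mem h2 b
      rw [← zpow_mul] at h3
      rw [hb, ← two_mul, show (γ ^ (2 * b)) z = z from MulAction.mem_stabilizer_iff.1 h3]
    · have h3 := zpow_mem h2 b
      rw [← zpow_mul] at h3
      rw [hb, add_comm, zpow_add, zpow_one]
      change W'.ord (γ ((γ ^ (2 * b)) z)) = W'.ord z
      rw [show (γ ^ (2 * b)) z = z from MulAction.mem_stabilizer_iff.1 h3, ← hpc z hz, hc'W]
  · -- the parity argument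
    rw [not_forall] at hcase
    obtain ⟨Z, hZ⟩ := hcase
    rw [Classical.not_imp] at hZ
    obtain ⟨hZE, hZ⟩ := hZ
    obtain ⟨N, hN, hZN, hst⟩ := exists_stable k hk hC (insert h Z)
    haveI := hN.fin
    have hfd : FiniteDimensional R (E ⊓ N : IntermediateField R M) :=
      FiniteDimensional.of_injective
        (IntermediateField.inclusion (inf_le_right : E ⊓ N ≤ N)).toLinearMap
        (IntermediateField.inclusion (inf_le_right : E ⊓ N ≤ N)).toRingHom.injective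
    have hφN := hst φ (mem_GG.2 ⟨σ, hφ.sa⟩)
    have hhN : h ∈ N := hZN h (Finset.mem_insert_self _ _)
    refine par hWT hT hk hC hcW hc1 hφ hσB hφL hγφ (E ⊓ N) hfd (fun z hz => hEL hz.1)
      (fun z => ?_) (fun z hz => ((hmE z).1 hz.1).2) h0 hhL ⟨hh2, pow_mem hhN 2⟩
      ⟨hφh, div_mem ((hφN h).2 hhN) hhN⟩ hγh fun W' c' hc'1 hc'W hc'E hc'h => ?_
    · exact ⟨fun h => ⟨(hφE z).1 h.1, (hφN z).1 h.2⟩, fun h => ⟨(hφE z).2 h.1, (hφN z).2 h.2⟩⟩
    · have hZ' : ∀ z ∈ Z, z ∈ E ⊓ N := fun z hz => ⟨hZE z hz, hZN z (Finset.mem_insert_of_mem hz)⟩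
      by_contra hcon
      apply hZ
      refine ⟨W', c', hc'1, hc'W, fun z hz => hc'E z (hZ' z hz), hc'h, fun z hz => ?_⟩
      by_contra h5
      exact hcon ⟨z, hZ' z hz, h5⟩

end

end Pool.Agent.Zk12.TR
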