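import Mathlib
import Pool.Agent.Zk12.TR.UK

/-!
# Places which are fixed by a Frobenius element on `LK K c`
-/

set_option autoImplicit false
set_option linter.all false

open Polynomial FF Pool.Agent.Y157.PS

namespace Pool.Agent.Zk12.TR

open Pool.Agent.Y158.GR Pool.Agent.Zk12

section

variable {k κ R M : Type} [Field k] [Field κ] [Algebra k κ] [IsAlgClosed κ] [CharZero κ] [Field R]
  [Field M] [Algebra κ R] [Algebra R M] [Algebra κ M] [IsScalarTower κ R M] {x : R}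
  {B : Finset κ} {Y : M}

/-- the place is above `B` -/
def Abv (B : Finset κ) (x : R) (W : Place κ M) : Prop :=
  ∃ e ∈ B, 0 < W.ord (algebraMap R M x - algebraMap κ M e)

/-- places above `B` which `φ` fixes on `LK K c` agree with `W` on `K` -/
def AK (B : Finset κ) (x : R) (W : Place κ M) (c : M ≃ₐ[R] M) (K : IntermediateField R M)
    (φ : RingAut M) : Prop :=
  ∀ W' : Place κ M, Abv B x W' → (∀ z ∈ LK K c, W'.ord (φ z) = W'.ord z) →
    ∀ z ∈ K, W'.ord z = W.ord z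

/-- places above `B` which `φ` fixes on `LK K c` agree with `W` on `LK K c` -/
def FK (B : Finset κ) (x : R) (W : Place κ M) (c : M ≃ₐ[R] M) (K : IntermediateField R M)
    (φ : RingAut M) : Prop :=
  ∀ W' : Place κ M, Abv B x W' → (∀ z ∈ LK K c, W'.ord (φ z) = W'.ord z) →
    ∀ z ∈ LK K c, W'.ord z = W.ord z

/-- a semilinear automorphism which fixes `W` commutes with the involution at `W` -/
theorem comm_c (hC : Cov 2 κ R M x B Y) {W : Place κ M} {c : M ≃ₐ[R] M} (hcW : Fixes W c)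
    (hc1 : c ≠ 1) {φ : RingAut M} {σ : κ ≃ₐ[k] κ} (hφ : SA k x φ σ) (hφW : Fixes W φ) (z : M) :
    φ (c z) = c (φ z) := by
  obtain ⟨η, hη⟩ := conjR hC.rat φ (σ : κ ≃+* κ) hφ.const hφ.fixx c
  have hη' : ∀ z, φ (η z) = c (φ z) := fun z => by
    rw [hη]
    exact φ.apply_symm_apply _
  obtain ⟨-, -, -, -, -, hu⟩ := invol hC W c hcW hc1
  have h1 : Fixes W η := by
    intro y
    have h2 := hφW (η y)
    rw [hη'] at h2
    rw [← h2, hcW]
    exact hφW y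
  have h2 : η ≠ 1 := by
    rintro rfl
    apply hc1
    ext y
    obtain ⟨y', rfl⟩ := φ.surjective y
    rw [← hη']
    rfl
  have h3 := (hu η h1).resolve_left h2
  rw [← hη', h3]

theorem fk (hWT : S_WT) (hT : S_T1E) (hk : Algebra.IsAlgebraic k κ) (hC : Cov 2 κ R M x B Y)
    {W : Place κ M} {c : M ≃ₐ[R] M} (hcW : Fixes W c) (hc1 : c ≠ 1) {K : IntermediateField R M}
    {φ : RingAut M} {σ : κ ≃ₐ[k] κ} {q : ℕ} (hφ : Frb k x Y φ σ q) (hσB : ∀ e ∈ B, σ e = e)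
    (hφW : Fixes W φ) (hφK : ∀ z, φ z ∈ K ↔ z ∈ K)
    (hA1 : AK B x W c K φ) (hA2 : AK B x W c K (φ * φ)) : FK B x W c K φ := by
  intro W' hW' hfix
  have hφc : ∀ z, φ (c z) = c (φ z) := comm_c hC hcW hc1 hφ.sa hφW
  have hφL : ∀ z, φ z ∈ LK K c ↔ z ∈ LK K c := fun z => LK_sa hC.rat hφ.sa hφc hφK
  obtain ⟨-, -, -, -, -, hu⟩ := invol hC W c hcW hc1
  obtain ⟨γ, hγK, hγ⟩ := dic_conj' hC K W W' (fun z hz => (hA1 W' hW' hfix z hz).symm)
  obtain ⟨η, hη⟩ := conjR hC.rat φ (σ : κ ≃+* κ) hφ.sa.const hφ.sa.fixx γ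
  have hη' : ∀ z, φ (η z) = γ (φ z) := fun z => by
    rw [hη]
    exact φ.apply_symm_apply _
  have hηK : ∀ z ∈ K, η z = z := by
    intro z hz
    apply φ.injective
    rw [hη', hγK _ ((hφK z).2 hz)]
  -- `γ = η` on `LK K c`
  have h1 : ∀ z ∈ LK K c, W.ord (γ z) = W.ord (η z) := by
    intro z hz
    rw [← hγ, ← hfix z hz, hγ, ← hη']
    exact hφW _
  have hγη : ∀ z ∈ LK K c, γ z = η z := by
    intro z hz
    let W₂ : Place κ M := Place.comapEquiv W ((γ * η⁻¹ : M ≃ₐ[R] M) : M ≃+* M) (RingEquiv.refl κ)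
      (fun b => Pool.Agent.Y748.PS.gal_const _ b)
    have hW₂ : ∀ z, W₂.ord z = W.ord (γ (η⁻¹ z)) := fun z => rfl
    obtain ⟨r, hr, hr'⟩ := dic_conj' hC (LK K c) W W₂ (fun y hy => by
      rw [hW₂, h1 _ (LK_gal (inv_fix hηK) hy), c_inv])
    have h2 : Fixes W (γ * η⁻¹ * r⁻¹ : M ≃ₐ[R] M) := by
      intro y
      change W.ord (γ (η⁻¹ (r⁻¹ y))) = W.ord y
      rw [← hW₂, hr', c_inv]
    have h3 : ∀ y ∈ LK K c, γ (η⁻¹ y) = y := by
      intro y hy
      have h4 : (γ * η⁻¹ * r⁻¹ : M ≃ₐ[R] M) y = γ (η⁻¹ y) := by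
        change γ (η⁻¹ (r⁻¹ y)) = _
        rw [inv_fix hr y hy]
      rw [← h4]
      rcases hu _ h2 with h5 | h5
      · rw [h5]; rfl
      · rw [h5]; exact LK_fix hy
    have h4 := h3 (η z) (LK_gal hηK hz)
    rwa [inv_c] at h4
  have hγφ : ∀ z ∈ LK K c, φ (γ z) = γ (φ z) := by
    intro z hz
    rw [hγη z hz, hη']
  have h5 := uk hWT hT hk hC hcW hc1 hφ hσB hφc hφK (fun W₁ c₁ hc₁ hcW₁ hex => by
    obtain ⟨hab, -⟩ := invol hC W₁ c₁ hcW₁ hc₁
    by_contra hno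
    obtain ⟨z, hz, hne⟩ := hex
    apply hne
    refine LK_conj hC hcW hc1 hcW₁ hc₁ (fun y hy => ?_) hz
    refine (hA2 W₁ hab (fun y hy => ?_) y hy).symm
    by_contra h6
    exact hno ⟨y, hy, h6⟩) hγK hγφ
  intro z hz
  rw [hγ, h5 z hz]

/-- the tower -/
def Kn (c : M ≃ₐ[R] M) : ℕ → IntermediateField R M
  | 0 => ⊥
  | n + 1 => LK (Kn c n) c

theorem Kn_fix (c : M ≃ₐ[R] M) (n : ℕ) : ∀ z ∈ Kn c n, c z = z := by
  cases n with
  | zero =>
    intro z hz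
    obtain ⟨r, rfl⟩ := IntermediateField.mem_bot.1 hz
    exact c.commutes r
  | succ n => exact fun z hz => LK_fix hz

theorem Kn_le (c : M ≃ₐ[R] M) (n : ℕ) : Kn c n ≤ Kn c (n + 1) := le_LK (Kn_fix c n)

theorem Kn_mono (c : M ≃ₐ[R] M) : Monotone (Kn c) := monotone_nat_of_le_succ (Kn_le c)

theorem Kn_sa (hR : RatF κ x) {c : M ≃ₐ[R] M} {φ : RingAut M}
    {σ : κ ≃ₐ[k] κ} (hφ : SA k x φ σ) (hφc : ∀ z, φ (c z) = c (φ z)) (n : ℕ) :
    ∀ z, φ z ∈ Kn c n ↔ z ∈ Kn c n := by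
  induction n with
  | zero =>
    have key : ∀ (φ : RingAut M) (σ : κ ≃ₐ[k] κ), SA k x φ σ → ∀ z ∈ (⊥ : IntermediateField R M),
        φ z ∈ (⊥ : IntermediateField R M) := by
      intro φ σ hφ z hz
      obtain ⟨r, rfl⟩ := IntermediateField.mem_bot.1 hz
      obtain ⟨r', hr'⟩ := hφ.mapR hR r
      rw [hr']
      exact IntermediateField.algebraMap_mem _ _
    intro z
    refine ⟨fun h => ?_, key φ σ hφ z⟩
    have h1 := key _ _ hφ.inv _ h
    have e : (φ⁻¹ : RingAut M) (φ z) = z := φ.symm_apply_apply z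
    rwa [e] at h1
  | succ n ih => exact fun z => LK_sa hR hφ hφc ih

/-- **the tower exhausts the fixed field of `c`** -/
theorem Kn_top (hC : Cov 2 κ R M x B Y) {W : Place κ M} {c : M ≃ₐ[R] M} (hcW : Fixes W c)
    (hc1 : c ≠ 1) {z : M} (hz : c z = z) : ∃ n, z ∈ Kn c n := by
  haveI := hC.gal
  haveI : CharZero R := charZero_of_injective_algebraMap (algebraMap κ R).injective
  -- the union and the fixed field
  let U : IntermediateField R M := ⨆ n, Kn c n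
  have hU : ∀ y, y ∈ U ↔ ∃ n, y ∈ Kn c n := by
    intro y
    have h1 := IntermediateField.coe_iSup_of_directed (Kn_mono c).directed_le
    have h2 : y ∈ ((⨆ n, Kn c n : IntermediateField R M) : Set M) ↔ y ∈ ⋃ n, (Kn c n : Set M) := by
      rw [h1]
    rw [Set.mem_iUnion] at h2
    exact h2
  rw [← hU]
  by_contra hzU
  let F : IntermediateField R M := FE ⊤ c
  have hF : ∀ y, y ∈ F ↔ c y = y := fun y => ⟨fun h => h.2, fun h => ⟨trivial, h⟩⟩
  have hUF : U ≤ F := by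
    intro y hy
    obtain ⟨n, hn⟩ := (hU y).1 hy
    exact (hF y).2 (Kn_fix c n y hn)
  have hprim : ∃ ζ : R, IsPrimitiveRoot ζ 2 := by
    haveI : NeZero (2 : ℕ) := ⟨two_ne_zero⟩
    haveI : NeZero ((2 : ℕ) : κ) := ⟨Nat.cast_ne_zero.2 two_ne_zero⟩
    obtain ⟨ζ, hζ⟩ := HasEnoughRootsOfUnity.exists_primitiveRoot κ 2
    exact ⟨algebraMap κ R ζ, hζ.map_of_injective (algebraMap κ R).injective⟩
  obtain ⟨ζ, hζ⟩ := hprim
  obtain ⟨h, hhF, hhU, hh2⟩ := exists_root_between (ℓ := 2) hζ hC.pow U F hUF ((hF z).2 hz) hzU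
  apply hhU
  obtain ⟨n, hn⟩ := (hU _).1 hh2
  rw [hU]
  refine ⟨n + 1, fun γ hγ => ?_⟩
  have h1 : γ h = h ∨ γ h = -h := by
    apply sq_eq_sq_iff_eq_or_eq_neg.1
    rw [← map_pow, hγ _ hn]
  rcases h1 with h1 | h1
  · rw [h1, (hF h).1 hhF]
  · rw [h1, map_neg, (hF h).1 hhF]

end

end Pool.Agent.Zk12.TR
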