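import Mathlib
import Pool.Agent.Zk12.TR.FK
import Pool.Agent.Zk12.TR.Stm3
import Pool.Agent.Y158.GR.Kum

/-!
# The tower at a place
-/

set_option autoImplicit false
set_option linter.all false

open Polynomial FF Pool.Agent.Y157.PS IsDedekindDomain NumberField

namespace Pool.Agent.Zk12.TR

open Pool.Agent.Y158.GR Pool.Agent.Zk12

section

variable {κ R M : Type} [Field κ] [Algebra ℚ κ] [IsAlgClosure ℚ κ] [Field R] [Field M]
  [Algebra κ R] [Algebra R M] [Algebra κ M] [IsScalarTower κ R M] {x : R} {Y : M}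

/-- two places above the same branch point agree on `κ(x)` -/
theorem bot_eq [IsAlgClosed κ] [CharZero κ] {B : Finset κ} (hC : Cov 2 κ R M x B Y) {e : κ}
    {W W' : Place κ M} (hW : 0 < W.ord (algebraMap R M x - algebraMap κ M e))
    (hW' : 0 < W'.ord (algebraMap R M x - algebraMap κ M e)) :
    ∀ z ∈ (⊥ : IntermediateField R M), W'.ord z = W.ord z := by
  have htr := trace_eq hC.rat e hW hW'
  obtain ⟨g, hg0, hg⟩ := dic_conj hC ⊥ W W' (by
    intro z hz
    obtain ⟨r, rfl⟩ := IntermediateField.mem_bot.1 hz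
    by_cases h0 : r = 0
    · rw [h0, map_zero, W.ord_zero, W'.ord_zero]
    have h0' : algebraMap R M r ≠ 0 := (_root_.map_ne_zero _).2 h0
    rw [← O_iff W h0', ← O_iff W' h0']
    have h1 : r ∈ W.O.comap (algebraMap R M) ↔ r ∈ W'.O.comap (algebraMap R M) := by rw [htr]
    exact h1)
  intro z hz
  rw [hg, hg0 z hz]

/-- **the tower at a place**: `φ` acts as a Frobenius element of `V` on the constants, satisfies the
weight condition, and fixes the place `W` above `e` -/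
theorem tower (hNF : S_NF) (hWT : S_WT) (hT : S_T1E) (hC : Cov 2 κ R M x (BK κ) Y)
    {V : ValuationSubring κ} (hV : IsU V (6 : κ)) {φ : RingAut M} {σ : κ ≃ₐ[ℚ] κ} {q : ℕ}
    (hq : 1 < q) (hFro : Fro V q σ) (hFrb : ∀ j : ℕ, Frb ℚ x Y (φ ^ 2 ^ j) (σ ^ 2 ^ j) (q ^ 2 ^ j))
    {W : Place κ M} {c : M ≃ₐ[R] M} (hcW : Fixes W c) (hc1 : c ≠ 1) {e : κ} (he : e ∈ BK κ)
    (hW : 0 < W.ord (algebraMap R M x - algebraMap κ M e)) (hφW : Fixes W φ) :
    ∀ n j : ℕ, AK (BK κ) x W c (Kn c n) (φ ^ 2 ^ j) ∧ FK (BK κ) x W c (Kn c n) (φ ^ 2 ^ j) := by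
  haveI : Algebra.IsAlgebraic ℚ κ := IsAlgClosure.isAlgebraic
  haveI : IsAlgClosed κ := IsAlgClosure.isAlgClosed ℚ
  haveI : CharZero κ := charZero_of_injective_algebraMap (algebraMap ℚ κ).injective
  have hB : ∀ (σ : κ ≃ₐ[ℚ] κ), ∀ e ∈ BK κ, σ e = e := by
    intro σ e he
    obtain ⟨q, -, rfl⟩ := mem_BK.1 he
    exact σ.commutes q
  have hφj : ∀ j : ℕ, Fixes W (φ ^ 2 ^ j : RingAut M) := by
    intro j
    have key : ∀ i : ℕ, Fixes W (φ ^ i : RingAut M) := by
      intro i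
      induction i with
      | zero => exact fun z => rfl
      | succ i ih =>
        intro z
        rw [pow_succ]
        change W.ord ((φ ^ i : RingAut M) (φ z)) = _
        rw [ih, hφW]
    exact key _
  have hsucc : ∀ j : ℕ, (φ ^ 2 ^ j : RingAut M) * (φ ^ 2 ^ j : RingAut M) = φ ^ 2 ^ (j + 1) := by
    intro j
    rw [← pow_add, pow_succ, mul_two]
  -- from `AK` to `FK`
  have hAF : ∀ n : ℕ, (∀ j : ℕ, AK (BK κ) x W c (Kn c n) (φ ^ 2 ^ j)) →
      ∀ j : ℕ, FK (BK κ) x W c (Kn c n) (φ ^ 2 ^ j) := by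
    intro n hA j
    refine fk hWT hT inferInstance hC hcW hc1 (hFrb j) (hB _) (hφj j)
      (Kn_sa hC.rat (hFrb j).sa (comm_c hC hcW hc1 (hFrb j).sa (hφj j)) n) (hA j) ?_
    rw [hsucc]
    exact hA (j + 1)
  have hA : ∀ n j : ℕ, AK (BK κ) x W c (Kn c n) (φ ^ 2 ^ j) := by
    intro n
    induction n with
    | zero =>
      rintro j W' ⟨e', he', hW'⟩ hfix
      by_cases hee : e' = e
      · subst hee
        exact bot_eq hC hW hW'
      exfalso
      obtain ⟨z, hz, hne⟩ := hNF κ R M x Y hC V hV (φ ^ 2 ^ j) (σ ^ 2 ^ j) (q ^ 2 ^ j)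
        (Nat.one_lt_pow (by positivity) hq) (hFrb j).sa (fro_pow hFro _) W W' e he e' he' hee hW
        hW' (hφj j)
      apply hne
      refine hfix z fun γ _ => ?_
      let W₁ : Place κ M := Place.comapEquiv W (γ : M ≃+* M) (RingEquiv.refl κ) (fun b =>
        Pool.Agent.Y748.PS.gal_const γ b)
      have hW₁ : ∀ z, W₁.ord z = W.ord (γ z) := fun z => rfl
      have h1 := hz W₁ (γ⁻¹ * c * γ) (by
        rw [hW₁, map_sub, γ.commutes, Pool.Agent.Y748.PS.gal_const]
        exact hW) (fun y => by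
        rw [hW₁, hW₁]
        change W.ord (γ (γ⁻¹ (c (γ y)))) = _
        rw [c_inv, hcW])
      change γ⁻¹ (c (γ z)) = z at h1
      have h2 := congrArg γ h1
      rwa [c_inv] at h2
    | succ n ih =>
      intro j W' hW' hfix z hz
      have hF := hAF n ih j
      exact hF W' hW' (fun y hy => hfix y (LK_mono (Kn_le c n) c hy)) z hz
  exact fun n j => ⟨hA n j, hAF n (hA n) j⟩

end

end Pool.Agent.Zk12.TR
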