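import Mathlib
import Pool.Agent.Zk12.TR.Tower
import Pool.Agent.Zk12.TR.Rig2
import Pool.Agent.Zk12.TR.Tw

/-!
# Faithfulness on the residue field
-/

set_option autoImplicit false
set_option linter.all false

open Polynomial FF Pool.Agent.Y157.PS

namespace Pool.Agent.Zk12.TR

open Pool.Agent.Y158.GR Pool.Agent.Zk12

section

variable {k κ R M : Type} [Field k] [Field κ] [Algebra k κ] [IsAlgClosed κ] [CharZero κ] [Field R]
  [Field M] [Algebra κ R] [Algebra R M] [Algebra κ M] [IsScalarTower κ R M] {x : R}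
  {B : Finset κ} {Y : M}

theorem faith (hR : RatF κ x) {O : ValuationSubring M}
    (hst : ∀ (γ : M ≃ₐ[R] M) (z : M), γ z ∈ O ↔ z ∈ O)
    (hf : ∀ γ : M ≃ₐ[R] M, (∀ z ∈ O, γ z - z ∈ O.nonunits) → γ = 1) {a b : RingAut M}
    {σ : κ ≃ₐ[k] κ} (hA : SA k x a σ) (hB : SA k x b σ) {g h : M ≃ₐ[R] M}
    (hAg : ∀ z ∈ O, a z - g z ∈ O.nonunits) (hBh : ∀ z ∈ O, b z - h z ∈ O.nonunits) (z : M) :
    a z = b (h⁻¹ (g z)) := by
  obtain ⟨γ, hγ⟩ := diffR hR hA hB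
  have h1 : ∀ z ∈ O, h (γ z) - g z ∈ O.nonunits := by
    intro z hz
    have h2 := hAg z hz
    have h3 := hBh (γ z) ((hst γ z).2 hz)
    rw [hγ] at h3
    have h4 : h (γ z) - g z = (a z - g z) + -(a z - h (γ z)) := by ring
    rw [h4]
    exact non_add h2 (non_neg h3)
  have h2 : (g⁻¹ * h * γ : M ≃ₐ[R] M) = 1 := by
    refine hf _ fun z hz => ?_
    have h3 : (g⁻¹ * h * γ : M ≃ₐ[R] M) z - z = g⁻¹ (h (γ z) - g z) := by
      rw [map_sub, inv_c]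
      rfl
    rw [h3]
    exact (stable_non (τ := ((g⁻¹ : M ≃ₐ[R] M) : M ≃+* M)) (fun w => hst g⁻¹ w) _).2 (h1 z hz)
  have h3 : γ = h⁻¹ * g := by
    have h4 : h⁻¹ * g * (g⁻¹ * h * γ) = h⁻¹ * g * 1 := by rw [h2]
    rw [mul_one] at h4
    rw [← h4]
    group
  rw [← hγ, h3]
  rfl

end

end Pool.Agent.Zk12.TR
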