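import Mathlib
import Pool.Agent.Zk12.TR.Stm
import Pool.Agent.Y158.GR.Glb

/-!
# Rigidity of twisted sections: the main theorem in abstract form
-/

set_option autoImplicit false
set_option linter.all false

open Polynomial FF Pool.Agent.Y157.PS IsDedekindDomain NumberField

namespace Pool.Agent.Zk12.TR

open Pool.Agent.Y158.GR Pool.Agent.Zk12

/-- **the main theorem in abstract form**: `S` is a section with any twist `a`, of type `e` (the
square roots), whose decomposition group at `2` fixes a place `W` above `e`; then it fixes `W` -/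
def S_MAIN : Prop :=
  ∀ (κ R M : Type) [Field κ] [Algebra ℚ κ] [IsAlgClosure ℚ κ] [Field R] [Field M] [Algebra κ R]
    [Algebra R M] [Algebra κ M] [IsScalarTower κ R M] (x : R) (Y : M),
    Cov 2 κ R M x (BK κ) Y → ∀ (a : ℚ) (δ : κ), a ≠ 0 → δ ^ 2 = algebraMap ℚ κ (30 ^ 5 * a) →
    ∀ S : (κ ≃ₐ[ℚ] κ) →* RingAut M, Sec ℚ κ R M x Y δ S →
    ∀ (C : Type) [Field C] [Algebra ℚ_[2] C] [Algebra ℚ C] [IsScalarTower ℚ ℚ_[2] C]
      [IsAlgClosure ℚ_[2] C] (ι : κ →ₐ[ℚ] C) (W : Place κ M), ∀ e ∈ BK κ,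
      0 < W.ord (algebraMap R M x - algebraMap κ M e) →
      (∀ σ, DecL ℚ_[2] ι σ → Fixes W (S σ)) →
      (∀ l ∈ BK κ, ∀ l' ∈ BK κ, l ≠ e → l' ≠ e → ∃ γ : M, (∀ σ, S σ γ = γ) ∧
        γ ^ 2 = (algebraMap R M x - algebraMap κ M l) * (algebraMap R M x - algebraMap κ M l') *
          algebraMap κ M ((e - l) * (e - l'))) →
      ∀ σ, Fixes W (S σ)

end Pool.Agent.Zk12.TR
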