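import Mathlib
import Pool.Agent.Zk12.TR.Stm

/-!
# Rigidity of twisted sections: two more statements
-/

set_option autoImplicit false
set_option linter.all false

open Polynomial FF Pool.Agent.Y157.PS IsDedekindDomain NumberField

namespace Pool.Agent.Zk12.TR

open Pool.Agent.Y158.GR Pool.Agent.Zk12

/-- **part C**: the local data at a place `v` outside `6` where `a` is a uniformiser; `α` is a square
root of `a` (this is `Pool.Agent.Zk47.TR.bad_all`) -/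
def S_BAD3 : Prop :=
  ∀ (κ R M : Type) [Field κ] [Algebra ℚ κ] [IsAlgClosure ℚ κ] [Field R] [Field M] [Algebra κ R]
    [Algebra R M] [Algebra κ M] [IsScalarTower κ R M] (x : R) (Y : M),
    Cov 2 κ R M x (BK κ) Y → ∀ (a : ℚ) (δ α : κ), δ ^ 2 = algebraMap ℚ κ (30 ^ 5 * a) →
    α ^ 2 = algebraMap ℚ κ a →
    ∀ v : HeightOneSpectrum (𝓞 ℚ), v.valuation ℚ 6 = 1 →
      v.valuation ℚ a = WithZero.exp (-1 : ℤ) →
    ∃ (V : ValuationSubring κ) (O : ValuationSubring M) (σ : κ ≃ₐ[ℚ] κ) (q : ℕ), Above v V ∧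
      1 < q ∧ Fro V q σ ∧
      (∀ (γ : M ≃ₐ[R] M) (z : M), γ z ∈ O ↔ z ∈ O) ∧
      (∀ γ : M ≃ₐ[R] M, (∀ z ∈ O, γ z - z ∈ O.nonunits) → γ = 1) ∧
      (∀ (j : ℕ) (φ : RingAut M), SA ℚ x φ (σ ^ 2 ^ j) → Frb ℚ x Y φ (σ ^ 2 ^ j) (q ^ 2 ^ j)) ∧
      ∀ S : (κ ≃ₐ[ℚ] κ) →* RingAut M, Sec ℚ κ R M x Y δ S →
        ∃ (W : Place κ M) (c : M ≃ₐ[R] M),
          (∃ e ∈ BK κ, 0 < W.ord (algebraMap R M x - algebraMap κ M e)) ∧
          Fixes W c ∧ c Y ≠ Y ∧ c ^ 2 = 1 ∧ (∀ τ : κ ≃ₐ[ℚ] κ, Dec V τ → Fixes W (S τ)) ∧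
          (∀ τ : κ ≃ₐ[ℚ] κ, Ine V τ → τ α = α → ∀ z ∈ O, S τ z - z ∈ O.nonunits) ∧
          (∀ τ : κ ≃ₐ[ℚ] κ, Ine V τ → τ α ≠ α → ∀ z ∈ O, S τ z - c z ∈ O.nonunits) ∧
          ∀ W' : Place κ M,
            (∃ e ∈ BK κ, 0 < W'.ord (algebraMap R M x - algebraMap κ M e)) →
            (∀ τ : κ ≃ₐ[ℚ] κ, Dec V τ → Fixes W' (S τ)) → W' = W

/-- **the type**: if the inertia group at a place where `a` is a uniformiser fixes a place above the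
branch point `l`, and the section is of type `e`, then `l = e` -/
def S_TYP : Prop :=
  ∀ (κ R M : Type) [Field κ] [Algebra ℚ κ] [IsAlgClosure ℚ κ] [Field R] [Field M] [Algebra κ R]
    [Algebra R M] [Algebra κ M] [IsScalarTower κ R M] (x : R) (Y : M),
    Cov 2 κ R M x (BK κ) Y → ∀ (a : ℚ) (δ : κ), δ ^ 2 = algebraMap ℚ κ (30 ^ 5 * a) →
    ∀ S : (κ ≃ₐ[ℚ] κ) →* RingAut M, Sec ℚ κ R M x Y δ S →
    ∀ v : HeightOneSpectrum (𝓞 ℚ), v.valuation ℚ 6 = 1 →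
      v.valuation ℚ a = WithZero.exp (-1 : ℤ) →
    ∀ V : ValuationSubring κ, Above v V → ∀ W : Place κ M, ∀ e ∈ BK κ, ∀ l ∈ BK κ,
      0 < W.ord (algebraMap R M x - algebraMap κ M l) →
      (∀ τ : κ ≃ₐ[ℚ] κ, Ine V τ → Fixes W (S τ)) →
      (∀ l ∈ BK κ, ∀ l' ∈ BK κ, l ≠ e → l' ≠ e → ∃ γ : M, (∀ σ, S σ γ = γ) ∧
        γ ^ 2 = (algebraMap R M x - algebraMap κ M l) * (algebraMap R M x - algebraMap κ M l') *
          algebraMap κ M ((e - l) * (e - l'))) → l = e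

end Pool.Agent.Zk12.TR
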