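import Mathlib
import Pool.Agent.Zk12.TR.Faith
import Pool.Agent.Zk12.TR.Stm2
import Pool.Agent.Zk12.TR.Stm4
import Pool.Agent.Zk12.Rigid

/-!
# Rigidity of twisted sections: the main theorem
-/

set_option autoImplicit false
set_option linter.all false

open Polynomial FF Pool.Agent.Y157.PS IsDedekindDomain NumberField

namespace Pool.Agent.Zk12.TR

open Pool.Agent.Y158.GR Pool.Agent.Zk12

section

variable {κ R M : Type} [Field κ] [Algebra ℚ κ] [IsAlgClosure ℚ κ] [Field R] [Field M]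
  [Algebra κ R] [Algebra R M] [Algebra κ M] [IsScalarTower κ R M] {x : R} {Y : M}

theorem hmu : ∀ σ : κ ≃ₐ[ℚ] κ, ∀ c : κ, c ^ 2 = 1 → σ c = c := by
  intro σ c hc
  have h1 : (c - 1) * (c + 1) = 0 := by linear_combination hc
  rcases mul_eq_zero.1 h1 with h | h
  · rw [sub_eq_zero.1 h, map_one]
  · rw [eq_neg_of_add_eq_zero_left h, map_neg, map_one]

theorem main0 (hNF : S_NF) (hWT : S_WT) (hT : S_T1E) (hBAD : S_BAD3) (hTYP : S_TYP)
    (hC : Cov 2 κ R M x (BK κ) Y) {a : ℚ} {δ : κ}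
    (hδ : δ ^ 2 = algebraMap ℚ κ (30 ^ 5 * a))
    (ha : ∀ v : HeightOneSpectrum (𝓞 ℚ), v.valuation ℚ 6 = 1 →
      v.valuation ℚ a = 1 ∨ v.valuation ℚ a = WithZero.exp (-1 : ℤ))
    (ha0 : a ≠ 0)
    (hgood : ∃ v : HeightOneSpectrum (𝓞 ℚ), v.valuation ℚ 6 = 1 ∧ v.valuation ℚ a = 1)
    {S : (κ ≃ₐ[ℚ] κ) →* RingAut M} (hS : Sec ℚ κ R M x Y δ S)
    {C : Type} [Field C] [Algebra ℚ_[2] C] [Algebra ℚ C] [IsScalarTower ℚ ℚ_[2] C]
    [IsAlgClosure ℚ_[2] C] (ι : κ →ₐ[ℚ] C) (W : Place κ M) {e : κ} (he : e ∈ BK κ)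
    (hW : 0 < W.ord (algebraMap R M x - algebraMap κ M e))
    (hD : ∀ σ, DecL ℚ_[2] ι σ → Fixes W (S σ))
    (hsq : ∀ l ∈ BK κ, ∀ l' ∈ BK κ, l ≠ e → l' ≠ e → ∃ γ : M, (∀ σ, S σ γ = γ) ∧
        γ ^ 2 = (algebraMap R M x - algebraMap κ M l) * (algebraMap R M x - algebraMap κ M l') *
          algebraMap κ M ((e - l) * (e - l'))) :
    ∀ σ, Fixes W (S σ) := by
  classical
  haveI : Algebra.IsAlgebraic ℚ κ := IsAlgClosure.isAlgebraic
  haveI : IsAlgClosed κ := IsAlgClosure.isAlgClosed ℚ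
  haveI : CharZero κ := charZero_of_injective_algebraMap (algebraMap ℚ κ).injective
  haveI : CharZero M := charZero_of_injective_algebraMap (algebraMap κ M).injective
  have hR := hC.rat
  have hδ0 : δ ≠ 0 := by
    rintro rfl
    rw [zero_pow two_ne_zero] at hδ
    have h5 := hδ.symm
    rw [_root_.map_eq_zero] at h5
    exact mul_ne_zero (by norm_num) ha0 h5
  have hBK : ∀ (σ : κ ≃ₐ[ℚ] κ), ∀ e ∈ BK κ, σ e = e := by
    intro σ e he
    obtain ⟨q, -, rfl⟩ := mem_BK.1 he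
    exact σ.commutes q
  -- the involution
  obtain ⟨vg, hvg6, hvga⟩ := hgood
  obtain ⟨-, -, -, -, hrot⟩ := good_all hC hδ hS hvg6 hvga
  obtain ⟨c, hcW, hcY⟩ := hrot W e he hW
  have hc1 : c ≠ 1 := by rintro rfl; exact hcY rfl
  obtain ⟨-, -, hY0, hcY', hc2, hcu⟩ := invol hC W c hcW hc1
  -- the section attached to `W`
  obtain ⟨t, ht, htW⟩ := exists_tw inferInstance hC hδ0 hS W he (fun σ => hBK σ e he) hW hcW hcY
  have hSA : ∀ σ, SA ℚ x (S σ) σ := fun σ => ⟨hS.const σ, hS.fixx σ⟩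
  have htA : ∀ σ, SA ℚ x (t σ) σ := fun σ => ⟨ht.const σ, ht.fixx σ⟩
  have hYY : ∀ σ, S σ Y = t σ Y := fun σ => by rw [hS.fixy, ht.fixy]
  have heqW : ∀ σ, Fixes W (S σ) → S σ = t σ := fun σ h =>
    sa_unique hC W he hW (hSA σ) (htA σ) h (htW σ) (hYY σ)
  have htc : ∀ σ z, t σ (c z) = c (t σ z) := fun σ z => comm_c hC hcW hc1 (htA σ) (htW σ) z
  obtain ⟨α, hα⟩ := IsAlgClosed.exists_pow_nat_eq (algebraMap ℚ κ a) (n := 2) (by norm_num)
  -- the data at the bad places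
  have hbad : ∀ v : HeightOneSpectrum (𝓞 ℚ), v.valuation ℚ 6 = 1 →
      v.valuation ℚ a = WithZero.exp (-1 : ℤ) → ∃ (V : ValuationSubring κ)
        (O : ValuationSubring M) (W' : Place κ M) (c' : M ≃ₐ[R] M) (σ : κ ≃ₐ[ℚ] κ), Above v V ∧
        (∀ (γ : M ≃ₐ[R] M) (z : M), γ z ∈ O ↔ z ∈ O) ∧
        (∀ γ : M ≃ₐ[R] M, (∀ z ∈ O, γ z - z ∈ O.nonunits) → γ = 1) ∧
        0 < W'.ord (algebraMap R M x - algebraMap κ M e) ∧ Fixes W' c' ∧ c' ≠ 1 ∧
        Fixes W' (S σ) ∧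
        (∀ τ : κ ≃ₐ[ℚ] κ, Ine V τ → ∃ g h : M ≃ₐ[R] M, ((g = 1 ∧ h = 1) ∨ (g = c' ∧ h = c)) ∧
          (∀ z ∈ O, S τ z - g z ∈ O.nonunits) ∧ (∀ z ∈ O, t τ z - h z ∈ O.nonunits)) ∧
        ∀ n : ℕ, FK (BK κ) x W c (Kn c n) (t σ) := by
    intro v hv6 hva
    obtain ⟨V, O, σ, q, hV, hq, hFro, hst, hf, hFrb, hsec⟩ :=
      hBAD κ R M x Y hC a δ α hδ hα v hv6 hva
    obtain ⟨W', c', hab, hcW', hcY', hc2', hDec, hi1, hi2, -⟩ := hsec S hS
    obtain ⟨W₁, c₁, hab₁, hcW₁, hcY₁, -, hDec₁, hj1, hj2, huniq⟩ := hsec t ht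
    have hW₁ : W = W₁ := huniq W ⟨e, he, hW⟩ fun τ _ => htW τ
    subst hW₁
    have hc₁ : c₁ = c := (hcu c₁ hcW₁).resolve_left (by rintro rfl; exact hcY₁ rfl)
    rw [hc₁] at hj2
    have hc'1 : c' ≠ 1 := by rintro rfl; exact hcY' rfl
    obtain ⟨l, hl, hW'l⟩ := hab
    have hle : l = e := hTYP κ R M x Y hC a δ hδ S hS v hv6 hva V hV W' e he l hl hW'l
      (fun τ hτ => hDec τ hτ.1) hsq
    subst hle
    have hV6 : IsU V (6 : κ) := by
      have := (hV.isU 6).2 hv6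
      rwa [map_ofNat] at this
    refine ⟨V, O, W', c', σ, hV, hst, hf, hW'l, hcW', hc'1, hDec σ hFro.1, fun τ hτ => ?_,
      fun n => ?_⟩
    · by_cases hτα : τ α = α
      · exact ⟨1, 1, Or.inl ⟨rfl, rfl⟩, hi1 τ hτ hτα, hj1 τ hτ hτα⟩
      · exact ⟨c', c, Or.inr ⟨rfl, rfl⟩, hi2 τ hτ hτα, hj2 τ hτ hτα⟩
    · have h1 := tower hNF hWT hT hC hV6 (φ := t σ) (σ := σ) hq hFro (fun j => by
        have h2 : (t σ ^ 2 ^ j : RingAut M) = t (σ ^ 2 ^ j) := (map_pow t σ _).symm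
        rw [h2]
        exact hFrb j _ (htA _)) hcW hc1 he hW (htW σ) n 0
      have h3 := h1.2
      rw [pow_zero, pow_one] at h3
      exact h3
  choose V O W' c' σv hV hst hf hW'e hcW' hc'1 hfix hine hFK using hbad
  -- the induction
  have key : ∀ n : ℕ, (∀ σ, ∀ z ∈ Kn c n, S σ z = t σ z) ∧
      ∀ v h6 ha, ∀ z ∈ Kn c n, (W' v h6 ha).ord z = W.ord z := by
    intro n
    induction n with
    | zero =>
      refine ⟨fun σ z hz => ?_, fun v h6 ha => bot_eq hC hW (hW'e v h6 ha)⟩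
      obtain ⟨r, rfl⟩ := IntermediateField.mem_bot.1 hz
      exact (Act.of_sec hS).eq_R hR (Act.of_sec ht) σ r
    | succ n ih =>
      obtain ⟨ih1, ih2⟩ := ih
      have htK : ∀ σ z, t σ z ∈ Kn c n ↔ z ∈ Kn c n := fun σ z =>
        Kn_sa hR (htA σ) (htc σ) n z
      have htL : ∀ σ, ∀ z ∈ LK (Kn c n) c, t σ z ∈ LK (Kn c n) c := fun σ z hz =>
        (LK_sa hR (htA σ) (htc σ) (htK σ)).2 hz
      have hSL : ∀ σ, ∀ z ∈ LK (Kn c n) c, S σ z ∈ LK (Kn c n) c := by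
        intro σ z hz
        obtain ⟨γ, hγ⟩ := diffR hR (hSA σ) (htA σ)
        have hγK : ∀ y ∈ Kn c n, γ y = y := by
          intro y hy
          apply (t σ).injective
          rw [hγ, ih1 σ y hy]
        rw [← hγ]
        exact htL σ _ (LK_gal hγK hz)
      have heq : ∀ σ, ∀ z ∈ LK (Kn c n) c, S σ z = t σ z := by
        refine rigid2 inferInstance hC (fun σ e he => hBK σ e he) hmu (LK (Kn c n) c)
          (Act.of_sec hS) (Act.of_sec ht) hSL htL fun χ h1 h2 h3 h4 => ?_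
        refine char_triv ι χ h1 h2 h3 (fun v hv => ?_) fun σ hσ => h4 σ fun z _ => ?_
        · rcases ha v hv with hva | hva
          · obtain ⟨V, hV, -, hcm, -⟩ := good_all hC hδ hS hv hva
            refine ⟨V, hV, fun σ hσ => h4 σ fun z _ => ?_⟩
            rw [heqW σ (fixes_of_comm hC (Act.of_sec hS) W he hW hcW hcY (hcm c σ hσ))]
          · refine ⟨V v hv hva, hV v hv hva, fun σ hσ => h4 σ fun z hz => ?_⟩
            obtain ⟨g, h, hgh, hg, hh⟩ := hine v hv hva σ hσ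
            rw [faith hR (hst v hv hva) (hf v hv hva) (hSA σ) (htA σ) hg hh z]
            rcases hgh with ⟨hg1, hh1⟩ | ⟨hg1, hh1⟩
            · rw [hg1, hh1, inv_one]; rfl
            · rw [hg1, hh1]
              have h5 : c' v hv hva z = z := LK_conj hC hcW hc1 (hcW' v hv hva) (hc'1 v hv hva)
                (fun y hy => (ih2 v hv hva y hy).symm) hz
              rw [h5]
              have h6 : c⁻¹ z = z := by
                apply c.injective
                rw [c_inv, LK_fix hz]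
              rw [h6]
        · rw [heqW σ (hD σ hσ)]
      refine ⟨heq, fun v h6 ha => ?_⟩
      refine hFK v h6 ha n (W' v h6 ha) ⟨e, he, hW'e v h6 ha⟩ fun z hz => ?_
      rw [← heq _ z hz]
      exact hfix v h6 ha z
  -- conclusion
  have hall : ∀ σ z, S σ z = t σ z := by
    intro σ z
    have hfx : ∀ y, c y = y → S σ y = t σ y := by
      intro y hy
      obtain ⟨n, hn⟩ := Kn_top hC hcW hc1 hy
      exact (key n).1 σ y hn
    have hcc : ∀ y, c (c y) = y := by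
      intro y
      have h1 := DFunLike.congr_fun hc2 y
      rw [pow_two] at h1
      exact h1
    have h1 : z = (z + c z) / 2 + (z - c z) / (2 * Y) * Y := by
      field_simp
      ring
    have h2 : c ((z + c z) / 2) = (z + c z) / 2 := by
      rw [map_div₀, map_add, hcc, map_ofNat, add_comm]
    have h3 : c ((z - c z) / (2 * Y)) = (z - c z) / (2 * Y) := by
      rw [map_div₀, map_sub, hcc, map_mul, map_ofNat, hcY']
      field_simp
      ring
    rw [h1, map_add, map_add, map_mul, map_mul, hfx _ h2, hfx _ h3, hYY]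
  intro σ z
  rw [hall]
  exact htW σ z

end

end Pool.Agent.Zk12.TR
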