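import Mathlib
import Pool.Agent.Zk12.TR.Main

/-!
# Rigidity of twisted sections: reduction to squarefree twists
-/

set_option autoImplicit false
set_option linter.all false

open Polynomial FF Pool.Agent.Y157.PS IsDedekindDomain NumberField

namespace Pool.Agent.Zk12.TR

open Pool.Agent.Y158.GR Pool.Agent.Zk12

/-- an integer which is not divisible by `p` -/
theorem val_one {p : ℕ} [hp : Fact p.Prime] {v : HeightOneSpectrum (𝓞 ℚ)}
    (hv : (v.valuation ℚ).IsEquiv (Rat.padicValuation p)) {n : ℤ} (hn : ¬ (p : ℤ) ∣ n) :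
    v.valuation ℚ (n : ℚ) = 1 := by
  rw [← map_one (v.valuation ℚ)]
  apply hv.val_eq.2
  rw [map_one, Rat.padicValuation_cast, Int.padicValuation_eq_one_iff]
  exact hn

/-- the value of `p` -/
theorem val_p {p : ℕ} [hp : Fact p.Prime] {v : HeightOneSpectrum (𝓞 ℚ)}
    (hv : (v.valuation ℚ).IsEquiv (Rat.padicValuation p)) :
    v.valuation ℚ (p : ℚ) = WithZero.exp (-1 : ℤ) := by
  obtain ⟨π, hπ⟩ := v.valuation_exists_uniformizer ℚ
  have hπ0 : π ≠ 0 := by
    rintro rfl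
    rw [map_zero] at hπ
    exact WithZero.exp_ne_zero hπ.symm
  have hp0 : (p : ℚ) ≠ 0 := by exact_mod_cast hp.out.ne_zero
  -- `π = p ^ k * u`
  obtain ⟨k, hk⟩ : ∃ k : ℤ, Rat.padicValuation p π = WithZero.exp (-k) :=
    ⟨padicValRat p π, by rw [Rat.padicValuation]; simp [hπ0]⟩
  have hpz : ∀ m : ℤ, Rat.padicValuation p ((p : ℚ) ^ m) = WithZero.exp (-m) := by
    intro m
    rw [map_zpow₀, Rat.padicValuation_self, ← WithZero.exp_zsmul]
    congr 1
    simp
  have h1 : v.valuation ℚ π = v.valuation ℚ (p : ℚ) ^ k := by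
    rw [← map_zpow₀]
    apply hv.val_eq.2
    rw [hk, hpz]
  have hp1 : v.valuation ℚ (p : ℚ) < 1 := by
    rw [hv.lt_one_iff_lt_one, Rat.padicValuation_self]
    exact WithZero.exp_lt_exp.2 (by norm_num)
  obtain ⟨m, hm⟩ : ∃ m : ℤ, v.valuation ℚ (p : ℚ) = WithZero.exp m := by
    have h2 : v.valuation ℚ (p : ℚ) ≠ 0 := (Valuation.ne_zero_iff _).2 hp0
    exact ⟨WithZero.log (v.valuation ℚ (p : ℚ)), (WithZero.exp_log h2).symm⟩
  rw [hm, hπ, ← WithZero.exp_zsmul] at h1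
  have h2 : (-1 : ℤ) = k * m := by
    have := WithZero.exp_injective h1
    simpa using this
  have h3 : m < 0 := by
    rw [hm] at hp1
    rw [← WithZero.exp_zero] at hp1
    exact WithZero.exp_lt_exp.1 hp1
  have h4 : m ∣ 1 := ⟨-k, by linear_combination -h2⟩
  rw [hm]
  congr 1
  rcases Int.isUnit_iff.1 (isUnit_of_dvd_one h4) with h | h
  · omega
  · exact h

theorem val_sqf {n : ℤ} (hn : Squarefree n) (v : HeightOneSpectrum (𝓞 ℚ)) :
    v.valuation ℚ (n : ℚ) = 1 ∨ v.valuation ℚ (n : ℚ) = WithZero.exp (-1 : ℤ) := by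
  obtain ⟨p, hp, hv⟩ := exists_p v
  haveI := hp
  by_cases h : (p : ℤ) ∣ n
  · right
    obtain ⟨m, rfl⟩ := h
    have h1 : ¬ (p : ℤ) ∣ m := by
      rintro ⟨m', rfl⟩
      have h2 := hn (p : ℤ) ⟨m', by ring⟩
      rw [Int.isUnit_iff] at h2
      have h3 := hp.out.one_lt
      rcases h2 with h2 | h2 <;> omega
    push_cast
    rw [map_mul, val_p hv, val_one hv h1, mul_one]
  · exact Or.inl (val_one hv h)

theorem main (hNF : S_NF) (hWT : S_WT) (hT : S_T1E) (hBAD : S_BAD3) (hTYP : S_TYP) : S_MAIN := by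
  intro κ R M _ _ _ _ _ _ _ _ _ x Y hC a δ ha0 hδ S hS C _ _ _ _ _ ι W e he hW hD hsq
  haveI : CharZero κ := charZero_of_injective_algebraMap (algebraMap ℚ κ).injective
  obtain ⟨n, hn, t, ht, hant⟩ := rat_sqf ha0
  have hn0 : n ≠ 0 := hn.ne_zero
  have htκ : algebraMap ℚ κ t ≠ 0 := (_root_.map_ne_zero _).2 ht
  refine main0 hNF hWT hT hBAD hTYP hC (a := n) (δ := δ / algebraMap ℚ κ t) ?_
    (fun v _ => val_sqf hn v) (by exact_mod_cast hn0) ?_ ⟨hS.const, hS.fixx, fun σ => ?_, hS.cont⟩ ι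
    W he hW hD hsq
  · rw [div_pow, hδ, hant, ← map_pow, ← map_div₀]
    congr 1
    field_simp
  · obtain ⟨p, hpn, hp⟩ := Nat.exists_infinite_primes (6 * n.natAbs + 1)
    haveI : Fact p.Prime := ⟨hp⟩
    obtain ⟨v, hv⟩ := exists_v p
    have hna : 0 < n.natAbs := Int.natAbs_pos.2 hn0
    refine ⟨v, ?_, ?_⟩
    · have h1 := val_one hv (n := 6) (by
        intro h
        have h2 := Nat.le_of_dvd (by norm_num) (by exact_mod_cast h : p ∣ 6)
        omega)
      exact_mod_cast h1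
    · refine val_one hv fun h => ?_
      have h2 := Nat.le_of_dvd hna (Int.natCast_dvd.1 h)
      omega
  · rw [map_div₀ σ, σ.commutes, hS.fixy σ]
    congr 2
    field_simp

end Pool.Agent.Zk12.TR
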