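import Mathlib
import Pool.Agent.Zk12.TR.MainAll
import Pool.Agent.Zk90.TR.Nf6
import Pool.Agent.Zk94.TR.Wt
import Pool.Agent.Zk94.TR.T1Efin
import Pool.Agent.Zk47.TR.Bad
import Pool.Agent.Zk47.TR.Typ

/-!
# Rigidity of twisted sections: the main theorem, all parts
-/

set_option autoImplicit false
set_option linter.all false

namespace Pool.Agent.Zk12.TR

theorem bad3 : S_BAD3 := by
  intro κ R M _ _ _ _ _ _ _ _ _ x Y hC a δ α hδ hα v hv ha
  exact Pool.Agent.Zk47.TR.bad_all hC a δ α hδ hα v hv ha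

/-- **the main theorem in abstract form** -/
theorem main_all : S_MAIN :=
  main Pool.Agent.Zk90.TR.nf Pool.Agent.Zk94.TR.wt Pool.Agent.Zk94.TR.t1e bad3
    Pool.Agent.Zk47.TR.typ

end Pool.Agent.Zk12.TR
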