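import Pool.Agent.Y158.GR.Rig

/-!
# Classes modulo a stable subfield which are fixed by a group of semilinear automorphisms

(After `Pool.Agent.Y158.GR.FixV`.)
-/

set_option autoImplicit false
set_option linter.all false

open Polynomial FF Pool.Agent.Y157.PS

namespace Pool.Agent.Zk12.TR

open Pool.Agent.Y158.GR

variable {ℓ : ℕ} [hℓ : Fact ℓ.Prime] {κ R M : Type} [Field κ] [IsAlgClosed κ] [CharZero κ]
  [Field R] [Field M] [Algebra κ R] [Algebra R M] [Algebra κ M] [IsScalarTower κ R M] {x : R}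
  {B : Finset κ} {Y : M} {k : Type} [Field k] [Algebra k κ]

/-- **a nontrivial class which is fixed by all semilinear automorphisms** -/
theorem exists_fixed2 (hk : Algebra.IsAlgebraic k κ) (hC : Cov ℓ κ R M x B Y)
    (hB : ∀ σ : κ ≃ₐ[k] κ, ∀ e ∈ B, σ e = e) (hμ : ∀ σ : κ ≃ₐ[k] κ, ∀ c : κ, c ^ ℓ = 1 → σ c = c)
    (G : Subgroup (RingAut M)) (hGG : G ≤ GG (κ := κ) k M x)
    (L L0 : IntermediateField R M) (hLL : L ≤ L0) (hL : ∀ ψ ∈ G, ∀ z ∈ L, ψ z ∈ L)
    (hL0 : ∀ ψ ∈ G, ∀ z ∈ L0, ψ z ∈ L0) (h0 : M) (h00L : h0 ∈ L0)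
    (h0L : h0 ∉ L) (h0ℓ : h0 ^ ℓ ∈ L) :
    ∃ h : M, h ∈ L0 ∧ h ∉ L ∧ h ^ ℓ ∈ L ∧ ∀ ψ ∈ G, ψ h / h ∈ L := by
  classical
  haveI := hC.gal
  have hR := hC.rat
  haveI : CharZero R := charZero_of_injective_algebraMap (algebraMap κ R).injective
  have hM : Algebra.IsAlgebraic R M := inferInstance
  obtain ⟨T, hT, hm, hs⟩ := Pool.Agent.Y748.PS.exists_orbit (k := k) hk hR hM h0
  have hs' : ∀ ψ ∈ GG (κ := κ) k M x, ∀ w ∈ T, ψ w ∈ T := by
    rintro ψ ⟨σ, h1, h2⟩ w hw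
    exact hs ψ (fun c => by rw [h1, AlgEquiv.commutes]) h2 w hw
  -- the level generated by the orbit
  haveI : Finite T := hT
  set N := IntermediateField.adjoin R T with hN
  haveI hfin : FiniteDimensional R N :=
    IntermediateField.finiteDimensional_adjoin fun w _ => (hM.isAlgebraic w).isIntegral
  have hnorm : Normal R N := by
    rw [IntermediateField.normal_iff_forall_map_le']
    intro g
    rw [hN, IntermediateField.adjoin_map, IntermediateField.adjoin_le_iff]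
    rintro _ ⟨w, hw, rfl⟩
    exact IntermediateField.subset_adjoin R T (hs' _ (gal_GG g) w hw)
  haveI : Algebra.IsSeparable R N := inferInstance
  have hgal : IsGalois R N := ⟨⟩
  have hLev : Lev ℓ N := Pool.Agent.Y748.PS.lev_of_galois hC.pow N hfin hgal
  have hNs : ∀ ψ ∈ GG (κ := κ) k M x, ∀ z ∈ N, ψ z ∈ N := by
    intro ψ hψ z hz
    induction hz using IntermediateField.adjoin_induction with
    | mem y hy => exact IntermediateField.subset_adjoin R T (hs' ψ hψ y hy)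
    | algebraMap c =>
      obtain ⟨σ, hσ⟩ := mem_GG.1 hψ
      obtain ⟨c', hc'⟩ := hσ.mapR hR c
      rw [hc']
      exact N.algebraMap_mem c'
    | add a b _ _ ha hb => rw [map_add]; exact add_mem ha hb
    | inv a _ ha => rw [map_inv₀]; exact inv_mem ha
    | mul a b _ _ ha hb => rw [map_mul]; exact mul_mem ha hb
  have hNs' : ∀ ψ ∈ GG (κ := κ) k M x, ∀ z, ψ z ∈ N ↔ z ∈ N := by
    intro ψ hψ z
    refine ⟨fun h => ?_, hNs ψ hψ z⟩
    have h1 := hNs _ (inv_mem hψ) _ h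
    have e : (ψ⁻¹ : RingAut M) (ψ z) = z := ψ.symm_apply_apply z
    rwa [e] at h1
  -- powers act trivially
  have htriv : ∀ ψ ∈ GG (κ := κ) k M x, ∃ n : ℕ, ∀ w ∈ T, w ≠ 0 → w ^ ℓ ∈ L →
      (ψ ^ (ℓ ^ n) : RingAut M) w / w ∈ L := by
    intro ψ hψ
    obtain ⟨σ, hσ⟩ := mem_GG.1 hψ
    obtain ⟨n, hn⟩ := commute_pow hC hσ (hB σ) (hμ σ) hLev (hNs' ψ hψ)
    refine ⟨n, fun w hw hw0 hwL => ?_⟩
    obtain ⟨σ', hσ'⟩ := mem_GG.1 (pow_mem hψ (ℓ ^ n))
    set β : RingAut M := ψ ^ (ℓ ^ n) with hβ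
    have hβw : β w ≠ 0 := (map_ne_zero_iff β β.injective).2 hw0
    haveI : IsGalois L M := inferInstance
    have key : ∀ γ : M ≃ₐ[L] M, γ (β w / w) = β w / w := by
      intro γ
      have h1 : (γ w / w) ^ ℓ = 1 := by
        have h2 : γ (w ^ ℓ) = w ^ ℓ := γ.commutes ⟨w ^ ℓ, hwL⟩
        rw [div_pow, ← map_pow, h2, div_self (pow_ne_zero _ hw0)]
      obtain ⟨c, hc, hcz⟩ := Pool.Agent.Y748.PS.rou_const (κ := κ) hℓ.out.pos h1
      have h2 : γ w = algebraMap κ M c * w := by rw [hcz, div_mul_cancel₀ _ hw0]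
      have h3 := hn (γ.restrictScalars R) w (IntermediateField.subset_adjoin R T hw)
      change β (γ w) = γ (β w) at h3
      have h4 : β (algebraMap κ M c) = algebraMap κ M c := by
        rw [hσ'.const, hμ σ' c hc]
      have hc0 : algebraMap κ M c ≠ 0 := by
        rw [hcz]
        exact div_ne_zero ((map_ne_zero_iff γ γ.injective).2 hw0) hw0
      rw [map_div₀, ← h3, h2, map_mul, h4, mul_div_mul_left _ _ hc0]
    have h5 := (InfiniteGalois.mem_bot_iff_fixed (k := L) (K := M) (β w / w)).2 key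
    obtain ⟨a, ha⟩ := IntermediateField.mem_bot.1 h5
    rw [← ha]
    exact a.2
  -- the classes
  have hG : ∀ ψ ∈ G, ∀ z ∈ L.toSubfield, ψ z ∈ L.toSubfield := hL
  letI : MulAction G (Mˣ ⧸ UL L.toSubfield) := qact G hG
  have hsm : ∀ (ψ : G) (u : Mˣ), ψ • (QuotientGroup.mk u : Mˣ ⧸ UL L.toSubfield) =
      QuotientGroup.mk (Units.map ((ψ : RingAut M) : M →* M) u) := fun ψ u => rfl
  have hsmul : ∀ (ψ : G) (q q' : Mˣ ⧸ UL L.toSubfield), ψ • (q * q') = ψ • q * ψ • q' :=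
    fun ψ q q' => map_mul (qm G hG ψ) q q'
  have hsinv : ∀ (ψ : G) (q : Mˣ ⧸ UL L.toSubfield), ψ • q⁻¹ = (ψ • q)⁻¹ :=
    fun ψ q => map_inv (qm G hG ψ) q
  have hsone : ∀ (ψ : G), ψ • (1 : Mˣ ⧸ UL L.toSubfield) = 1 := fun ψ => map_one (qm G hG ψ)
  set S : Set (Mˣ ⧸ UL L.toSubfield) := {q | ∃ u : Mˣ, (u : M) ∈ T ∧ (u : M) ∈ L0 ∧
    (u : M) ^ ℓ ∈ L ∧ q = QuotientGroup.mk u} with hS
  have hSfin : S.Finite := by
    have h1 : {u : Mˣ | (u : M) ∈ T}.Finite := by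
      refine Set.Finite.preimage (f := fun u : Mˣ => (u : M)) ?_ hT
      exact fun a _ b _ h => Units.ext h
    refine (h1.image (fun u => (QuotientGroup.mk u : Mˣ ⧸ UL L.toSubfield))).subset ?_
    rintro q ⟨u, hu, -, -, rfl⟩
    exact ⟨u, hu, rfl⟩
  have hSs : ∀ (ψ : G), ∀ q ∈ S, ψ • q ∈ S := by
    rintro ψ q ⟨u, hu, hu0, hu2, rfl⟩
    refine ⟨Units.map ((ψ : RingAut M) : M →* M) u, hs' ψ (hGG ψ.2) _ hu, hL0 ψ ψ.2 _ hu0, ?_,
      hsm ψ u⟩
    change ((ψ : RingAut M) (u : M)) ^ ℓ ∈ L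
    rw [← map_pow]
    exact hL ψ ψ.2 _ hu2
  set W := Subgroup.closure S with hW
  have hWs : ∀ (ψ : G), ∀ q ∈ W, ψ • q ∈ W := by
    intro ψ q hq
    induction hq using Subgroup.closure_induction with
    | mem y hy => exact Subgroup.subset_closure (hSs ψ y hy)
    | one => rw [hsone]; exact one_mem _
    | mul a b _ _ ha hb => rw [hsmul]; exact mul_mem ha hb
    | inv a _ ha => rw [hsinv]; exact inv_mem ha
  have hWℓ : ∀ q ∈ W, q ^ ℓ = 1 := by
    intro q hq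
    induction hq using Subgroup.closure_induction with
    | mem y hy =>
      obtain ⟨u, -, -, hu, rfl⟩ := hy
      rw [← QuotientGroup.mk_pow, QuotientGroup.eq_one_iff]
      change ((u ^ ℓ : Mˣ) : M) ∈ L.toSubfield
      rw [Units.val_pow_eq_pow_val]
      exact hu
    | one => exact one_pow _
    | mul a b _ _ ha hb => exact (mul_pow a b ℓ).trans (by
        rw [ha, hb]
        exact one_mul (1 : Mˣ ⧸ UL L.toSubfield))
    | inv a _ ha => exact (inv_pow a ℓ).trans (by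
        rw [ha]
        exact inv_one (G := Mˣ ⧸ UL L.toSubfield))
  haveI hWfin : Finite W := by
    haveI : Group.FG W := (Group.fg_iff_subgroup_fg W).2
      ⟨hSfin.toFinset, by rw [Set.Finite.coe_toFinset]⟩
    refine CommGroup.finite_of_fg_torsion W ?_
    intro q
    rw [isOfFinOrder_iff_pow_eq_one]
    refine ⟨ℓ, hℓ.out.pos, Subtype.ext ?_⟩
    exact hWℓ _ q.2
  letI actW : MulAction G W :=
    { smul := fun ψ q => ⟨ψ • (q : Mˣ ⧸ UL L.toSubfield), hWs ψ q q.2⟩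
      one_smul := fun q => Subtype.ext (one_smul G (q : Mˣ ⧸ UL L.toSubfield))
      mul_smul := fun ψ ψ' q => Subtype.ext (mul_smul ψ ψ' (q : Mˣ ⧸ UL L.toSubfield)) }
  have hactW : ∀ (ψ : G) (q : W), ((ψ • q : W) : Mˣ ⧸ UL L.toSubfield) =
      ψ • (q : Mˣ ⧸ UL L.toSubfield) := fun ψ q => rfl
  set H := (MulAction.toPermHom G W).range with hH
  have hHp : IsPGroup ℓ H := by
    rintro ⟨_, ψ, rfl⟩
    obtain ⟨n, hn⟩ := htriv ψ (hGG ψ.2)
    refine ⟨n, Subtype.ext ?_⟩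
    change (MulAction.toPermHom G W ψ) ^ (ℓ ^ n) = 1
    rw [← map_pow]
    ext q : 1
    change (ψ ^ (ℓ ^ n) : G) • q = q
    apply Subtype.ext
    rw [hactW]
    have hfix : ∀ q ∈ W, (ψ ^ (ℓ ^ n) : G) • q = q := by
      intro q hq
      induction hq using Subgroup.closure_induction with
      | mem y hy =>
        obtain ⟨u, hu, -, hu2, rfl⟩ := hy
        rw [hsm, eq_comm, QuotientGroup.eq]
        change ((u⁻¹ * Units.map (((ψ ^ (ℓ ^ n) : G) : RingAut M) : M →* M) u : Mˣ) : M) ∈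
          L.toSubfield
        rw [Units.val_mul, Units.val_inv_eq_inv_val, mul_comm, ← div_eq_mul_inv]
        exact hn (u : M) hu u.ne_zero hu2
      | one => exact hsone _
      | mul a b _ _ ha hb => rw [hsmul, ha, hb]
      | inv a _ ha => rw [hsinv, ha]
    exact hfix q q.2
  have h00 : h0 ≠ 0 := by
    rintro rfl
    exact h0L (zero_mem _)
  have hq0 : (QuotientGroup.mk (Units.mk0 h0 h00) : Mˣ ⧸ UL L.toSubfield) ∈ W :=
    Subgroup.subset_closure ⟨_, hm, h00L, h0ℓ, rfl⟩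
  have hq0ne : (⟨_, hq0⟩ : W) ≠ 1 := by
    intro h
    have h1 := congrArg Subtype.val h
    change (QuotientGroup.mk (Units.mk0 h0 h00) : Mˣ ⧸ UL L.toSubfield) = 1 at h1
    rw [QuotientGroup.eq_one_iff] at h1
    exact h0L h1
  have hdvd : ℓ ∣ Nat.card W := by
    have h1 : orderOf (⟨_, hq0⟩ : W) = ℓ :=
      orderOf_eq_prime (Subtype.ext (hWℓ _ hq0)) hq0ne
    rw [← h1]
    exact orderOf_dvd_natCard _
  have hone : (1 : W) ∈ MulAction.fixedPoints H W := by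
    rintro ⟨_, ψ, rfl⟩
    change ψ • (1 : W) = 1
    exact Subtype.ext (hsone ψ)
  obtain ⟨b, hb, hb1⟩ := hHp.exists_fixed_point_of_prime_dvd_card_of_fixed_point W hdvd hone
  have hrep : ∀ q ∈ W, ∃ u : Mˣ, (u : M) ∈ L0 ∧ (QuotientGroup.mk u : Mˣ ⧸ UL L.toSubfield) = q := by
    intro q hq
    induction hq using Subgroup.closure_induction with
    | mem y hy =>
      obtain ⟨u, -, hu, -, rfl⟩ := hy
      exact ⟨u, hu, rfl⟩
    | one => exact ⟨1, one_mem L0, rfl⟩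
    | mul a b _ _ ha hb =>
      obtain ⟨u, hu, rfl⟩ := ha
      obtain ⟨v, hv, rfl⟩ := hb
      exact ⟨u * v, mul_mem hu hv, rfl⟩
    | inv a _ ha =>
      obtain ⟨u, hu, rfl⟩ := ha
      refine ⟨u⁻¹, ?_, rfl⟩
      rw [Units.val_inv_eq_inv_val]
      exact inv_mem hu
  obtain ⟨u, huL0, hu⟩ := hrep (b : Mˣ ⧸ UL L.toSubfield) b.2
  refine ⟨u, huL0, ?_, ?_, ?_⟩
  · intro huL
    apply hb1
    apply Subtype.ext
    rw [← hu]
    exact ((QuotientGroup.eq_one_iff u).2 huL).symm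
  · have h1 := hWℓ _ b.2
    rw [← hu, ← QuotientGroup.mk_pow, QuotientGroup.eq_one_iff] at h1
    change ((u ^ ℓ : Mˣ) : M) ∈ L.toSubfield at h1
    rw [Units.val_pow_eq_pow_val] at h1
    exact h1
  · intro ψ hψ
    have h1 : (⟨ψ, hψ⟩ : G) • b = b := hb ⟨_, ⟨ψ, hψ⟩, rfl⟩
    have h2 := congrArg Subtype.val h1
    rw [hactW, ← hu, hsm, eq_comm, QuotientGroup.eq] at h2
    change ((u⁻¹ * Units.map ((ψ : RingAut M) : M →* M) u : Mˣ) : M) ∈ L.toSubfield at h2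
    rw [Units.val_mul, Units.val_inv_eq_inv_val, mul_comm, ← div_eq_mul_inv] at h2
    exact h2

end Pool.Agent.Zk12.TR
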